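import Mathlib
import Pool.Agent.H807R2.Dav1

/-! Digit functions: sums over digits, Fourier coefficients modulo `N`, the `ℓ¹` norm of the Fourier coefficients
(helper99). -/

set_option autoImplicit false

namespace Pool.Agent.V7H99.SY
open Finset
open Pool.Agent.H807R2.Dav

/-! ## digits -/

/-- the `j`-th digit -/
def dg (b j n : ℕ) : ℕ := n / b ^ j % b

lemma dg_lt {b : ℕ} (hb : 1 ≤ b) (j n : ℕ) : dg b j n < b := Nat.mod_lt _ (by omega)

lemma dg_add_low {b : ℕ} (hb : 1 ≤ b) {j K : ℕ} (hj : j < K) (r d : ℕ) : dg b j (r + d * b ^ K) = dg b j r := by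
  unfold dg
  obtain ⟨c, rfl⟩ : ∃ c, K = j + 1 + c := ⟨K - (j + 1), by omega⟩
  have e : r + d * b ^ (j + 1 + c) = r + b ^ j * (b * (d * b ^ c)) := by rw [pow_add, pow_succ]; ring
  rw [e, Nat.add_mul_div_left _ _ (by positivity), Nat.add_mul_mod_self_left]

lemma dg_add_top {b : ℕ} (hb : 1 ≤ b) {K r d : ℕ} (hr : r < b ^ K) (hd : d < b) : dg b K (r + d * b ^ K) = d := by
  unfold dg
  rw [Nat.add_mul_div_right _ _ (by positivity), Nat.div_eq_of_lt hr, zero_add, Nat.mod_eq_of_lt hd]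

lemma sum_split {b : ℕ} (hb : 1 ≤ b) (K : ℕ) (G : ℕ → ℂ) :
    ∑ n ∈ range (b ^ (K + 1)), G n = ∑ r ∈ range (b ^ K), ∑ d ∈ range b, G (r + d * b ^ K) := by
  rw [← sum_product']
  symm
  have hbK : 0 < b ^ K := by positivity
  refine sum_nbij' (fun p => p.1 + p.2 * b ^ K) (fun n => (n % b ^ K, n / b ^ K)) ?_ ?_ ?_ ?_ ?_
  · rintro ⟨r, d⟩ h
    rw [mem_product, mem_range, mem_range] at h
    rw [mem_range]
    obtain ⟨h1, h2⟩ := h
    simp only at h1 h2 ⊢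
    calc r + d * b ^ K < b ^ K + d * b ^ K := by omega
      _ = (d + 1) * b ^ K := by ring
      _ ≤ b * b ^ K := Nat.mul_le_mul_right _ (by omega)
      _ = b ^ (K + 1) := by rw [pow_succ]; ring
  · intro n h
    rw [mem_range] at h
    rw [mem_product, mem_range, mem_range]
    refine ⟨Nat.mod_lt _ hbK, ?_⟩
    rw [Nat.div_lt_iff_lt_mul hbK]
    calc n < b ^ (K + 1) := h
      _ = b * b ^ K := by rw [pow_succ]; ring
  · rintro ⟨r, d⟩ h
    rw [mem_product, mem_range, mem_range] at h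
    obtain ⟨h1, h2⟩ := h
    simp only at h1 h2 ⊢
    rw [Nat.add_mul_mod_self_right, Nat.mod_eq_of_lt h1, Nat.add_mul_div_right _ _ hbK, Nat.div_eq_of_lt h1, zero_add]
  · intro n _
    simp only
    rw [mul_comm]
    exact Nat.mod_add_div _ _
  · intro p _; rfl

/-- sums of products over digits -/
lemma prodsum {b : ℕ} (hb : 1 ≤ b) (F : ℕ → ℕ → ℂ) (K : ℕ) :
    ∑ n ∈ range (b ^ K), ∏ j ∈ range K, F j (dg b j n) = ∏ j ∈ range K, ∑ d ∈ range b, F j d := by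
  induction K with
  | zero => simp
  | succ K ih =>
    rw [sum_split hb, prod_range_succ, ← ih, sum_mul]
    apply sum_congr rfl
    intro r hr
    rw [mem_range] at hr
    rw [mul_sum]
    apply sum_congr rfl
    intro d hd
    rw [mem_range] at hd
    rw [prod_range_succ, dg_add_top hb hr hd]
    congr 1
    apply prod_congr rfl
    intro j hj
    rw [mem_range] at hj
    rw [dg_add_low hb hj]

lemma dgsum (b n K : ℕ) : ∑ j ∈ range K, b ^ j * dg b j n = n % b ^ K := by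
  induction K with
  | zero => simp [Nat.mod_one]
  | succ K ih => rw [sum_range_succ, ih, Nat.mod_pow_succ]; rfl

lemma ee_prod {ι : Type*} (s : Finset ι) (f : ι → ℝ) : ee (∑ i ∈ s, f i) = ∏ i ∈ s, ee (f i) := by
  classical
  induction s using Finset.induction_on with
  | empty => simp [ee_zero]
  | insert a s ha ih => rw [sum_insert ha, prod_insert ha, ee_add, ih]

lemma ee_dig {b K n : ℕ} (hn : n < b ^ K) (x : ℝ) :
    ee ((n : ℝ) * x) = ∏ j ∈ range K, ee ((dg b j n : ℝ) * ((b : ℝ) ^ j * x)) := by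
  rw [← ee_prod]
  congr 1
  have h : (n : ℝ) = ∑ j ∈ range K, (b : ℝ) ^ j * (dg b j n : ℝ) := by
    have h1 := dgsum b n K
    rw [Nat.mod_eq_of_lt hn] at h1
    exact_mod_cast h1.symm
  conv_lhs => rw [h]
  rw [sum_mul]
  apply sum_congr rfl
  intro j _
  ring

/-- the digit function `e(∑ w_j d_j(n) / b)` -/
noncomputable def FF (b : ℕ) (w : ℕ → ℕ) (K n : ℕ) : ℂ := ∏ j ∈ range K, ee ((dg b j n : ℝ) * ((w j : ℝ) / b))

lemma norm_FF (b : ℕ) (w : ℕ → ℕ) (K n : ℕ) : ‖FF b w K n‖ = 1 := by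
  unfold FF
  rw [norm_prod]
  exact prod_eq_one fun j _ => norm_ee _

/-- the local factor -/
noncomputable def gg (b u : ℕ) (x : ℝ) : ℂ := (1 / (b : ℂ)) * ∑ d ∈ range b, ee ((d : ℝ) * ((u : ℝ) / b - x))

/-- Fourier coefficients modulo `N` -/
noncomputable def ft (N : ℕ) (F : ℕ → ℂ) (a : ℕ) : ℂ := (1 / (N : ℂ)) * ∑ n ∈ range N, F n * ee (-((n : ℝ) * ((a : ℝ) / N)))

lemma ft_FF {b : ℕ} (hb : 1 ≤ b) (w : ℕ → ℕ) (K a : ℕ) :
    ft (b ^ K) (FF b w K) a = ∏ j ∈ range K, gg b (w j) ((b : ℝ) ^ j * ((a : ℝ) / ((b ^ K : ℕ) : ℝ))) := by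
  unfold ft
  set x : ℝ := (a : ℝ) / ((b ^ K : ℕ) : ℝ) with hx
  have h1 : ∀ n ∈ range (b ^ K), FF b w K n * ee (-((n : ℝ) * x)) =
      ∏ j ∈ range K, (fun (j d : ℕ) => ee ((d : ℝ) * ((w j : ℝ) / b - (b : ℝ) ^ j * x))) j (dg b j n) := by
    intro n hn
    rw [mem_range] at hn
    rw [show -((n : ℝ) * x) = (n : ℝ) * (-x) by ring, ee_dig hn, FF, ← prod_mul_distrib]
    apply prod_congr rfl
    intro j _
    rw [← ee_add]
    simp only
    congr 1
    ring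
  rw [sum_congr rfl h1, prodsum hb (fun (j d : ℕ) => ee ((d : ℝ) * ((w j : ℝ) / b - (b : ℝ) ^ j * x))) K]
  unfold gg
  rw [prod_mul_distrib, prod_const, card_range]
  congr 1
  push_cast
  rw [one_div, one_div, inv_pow]

lemma norm_gg_le {b : ℕ} (hb : 1 ≤ b) (u : ℕ) (x : ℝ) : ‖gg b u x‖ ≤ 1 := by
  unfold gg
  have hb0 : (0 : ℝ) < b := by exact_mod_cast hb
  rw [norm_mul, norm_div, norm_one, Complex.norm_natCast]
  have h : ‖∑ d ∈ range b, ee ((d : ℝ) * ((u : ℝ) / b - x))‖ ≤ b := by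
    refine (norm_sum_le _ _).trans ?_
    simp [norm_ee]
  calc 1 / (b : ℝ) * ‖∑ d ∈ range b, ee ((d : ℝ) * ((u : ℝ) / b - x))‖ ≤ 1 / (b : ℝ) * b := by gcongr
    _ = 1 := by field_simp

/-- a full sum of a nontrivial character -/
lemma full_sum {b u : ℕ} (hb : 1 ≤ b) (hu : ¬ b ∣ u) : ∑ d ∈ range b, ee ((d : ℝ) * ((u : ℝ) / b)) = 0 := by
  have hb0 : (b : ℝ) ≠ 0 := by positivity
  have h1 : ∀ d ∈ range b, ee ((d : ℝ) * ((u : ℝ) / b)) = ee ((u : ℝ) / b) ^ d := fun d _ => ee_pow _ _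
  rw [sum_congr rfl h1]
  have h2 : ee ((u : ℝ) / b) ≠ 1 := by
    intro h
    unfold ee at h
    rw [Complex.exp_eq_one_iff] at h
    obtain ⟨n, hn⟩ := h
    have h3 : ((u : ℝ) / b : ℝ) = n := by
      have h4 : ((((u : ℝ) / b : ℝ)) : ℂ) = n := by
        have h5 : (2 * (Real.pi : ℂ) * Complex.I) ≠ 0 := Complex.two_pi_I_ne_zero
        apply mul_left_cancel₀ h5
        rw [hn]; ring
      exact_mod_cast h4
    rw [div_eq_iff hb0] at h3
    have h4 : (u : ℤ) = n * b := by exact_mod_cast h3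
    apply hu
    have h5 : (b : ℤ) ∣ (u : ℤ) := ⟨n, by rw [h4]; ring⟩
    exact_mod_cast h5
  rw [geom_sum_eq h2]
  rw [← ee_pow]
  have h3 : ee ((b : ℕ) * ((u : ℝ) / b)) = 1 := by
    rw [mul_div_cancel₀ _ hb0]
    exact_mod_cast ee_int (u : ℤ)
  rw [h3]; simp

/-- the local factor near an integer, nontrivial digit character -/
lemma gg_near {b u : ℕ} (hb : 1 ≤ b) (hu : ¬ b ∣ u) (t : ℤ) (β : ℝ) : ‖gg b u (t + β)‖ ≤ 2 * Real.pi * b * |β| := by
  have hb0 : (0 : ℝ) < b := by exact_mod_cast hb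
  have e1 : ∀ d ∈ range b, ee ((d : ℝ) * ((u : ℝ) / b - (t + β))) = ee ((d : ℝ) * ((u : ℝ) / b)) * ee (-((d : ℝ) * β)) := by
    intro d _
    have : (d : ℝ) * ((u : ℝ) / b - (t + β)) = (d : ℝ) * ((u : ℝ) / b) + -((d : ℝ) * β) + ((-(d : ℤ) * t : ℤ) : ℝ) := by
      push_cast; ring
    rw [this, ee_add_int, ee_add]
  have e2 : ∑ d ∈ range b, ee ((d : ℝ) * ((u : ℝ) / b - (t + β))) =
      -∑ d ∈ range b, ee ((d : ℝ) * ((u : ℝ) / b)) * (1 - ee (-((d : ℝ) * β))) := by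
    rw [sum_congr rfl e1]
    simp only [mul_sub, mul_one, sum_sub_distrib]
    rw [full_sum hb hu]; ring
  unfold gg
  rw [e2, norm_mul, norm_neg, norm_div, norm_one, Complex.norm_natCast]
  have h : ‖∑ d ∈ range b, ee ((d : ℝ) * ((u : ℝ) / b)) * (1 - ee (-((d : ℝ) * β)))‖ ≤ b * (2 * Real.pi * b * |β|) := by
    refine (norm_sum_le _ _).trans ?_
    have h3 : ∀ d ∈ range b, ‖ee ((d : ℝ) * ((u : ℝ) / b)) * (1 - ee (-((d : ℝ) * β)))‖ ≤ 2 * Real.pi * b * |β| := by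
      intro d hd
      rw [mem_range] at hd
      rw [norm_mul, norm_ee, one_mul]
      have h4 := dd_le (-((d : ℝ) * β))
      unfold dd at h4
      refine h4.trans ?_
      rw [abs_neg, abs_mul, Nat.abs_cast]
      have h5 : (d : ℝ) ≤ b := by exact_mod_cast hd.le
      have h6 := Real.pi_pos
      have h7 := abs_nonneg β
      calc 2 * Real.pi * ((d : ℝ) * |β|) ≤ 2 * Real.pi * ((b : ℝ) * |β|) := by gcongr
        _ = _ := by ring
    refine (sum_le_sum h3).trans ?_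
    rw [sum_const, card_range, nsmul_eq_mul]
  calc 1 / (b : ℝ) * _ ≤ 1 / (b : ℝ) * (b * (2 * Real.pi * b * |β|)) := by gcongr
    _ = _ := by field_simp

/-- the local factor away from the integers, trivial digit character -/
lemma gg_far {b u : ℕ} (hb : 2 ≤ b) (hu : u = 0) (x : ℝ) {δ : ℝ} (hδ : 0 ≤ δ) (h : δ ≤ dd x) :
    ‖gg b u x‖ ≤ 1 - δ ^ 2 / (4 * b) := by
  have hb0 : (0 : ℝ) < b := by exact_mod_cast (by omega : 0 < b)
  subst hu
  have hz : ‖(1 : ℂ) + ee (-x)‖ ≤ 2 - δ ^ 2 / 4 := by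
    have h1 : ‖(1 : ℂ) + ee (-x)‖ ^ 2 + ‖(1 : ℂ) - ee (-x)‖ ^ 2 = 4 := by
      have := parallelogram_law_with_norm ℝ (1 : ℂ) (ee (-x))
      rw [norm_one, norm_ee] at this
      linarith
    have h2 : ‖(1 : ℂ) - ee (-x)‖ = dd x := by rw [← dd_neg]; rfl
    rw [h2] at h1
    have h3 : δ ^ 2 ≤ dd x ^ 2 := pow_le_pow_left₀ hδ h 2
    have h4 := norm_nonneg ((1 : ℂ) + ee (-x))
    have h5 : dd x ≤ 2 := by
      unfold dd
      refine (norm_sub_le _ _).trans ?_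
      rw [norm_one, norm_ee]; norm_num
    have h6 : 0 ≤ 2 - δ ^ 2 / 4 := by nlinarith [dd_nonneg x]
    have h7 : ‖(1 : ℂ) + ee (-x)‖ ^ 2 ≤ (2 - δ ^ 2 / 4) ^ 2 := by nlinarith [sq_nonneg (δ ^ 2)]
    exact le_of_sq_le_sq h7 h6
  unfold gg
  rw [norm_mul, norm_div, norm_one, Complex.norm_natCast]
  obtain ⟨m, rfl⟩ : ∃ m, b = m + 2 := ⟨b - 2, by omega⟩
  have hs : ‖∑ d ∈ range (m + 2), ee ((d : ℝ) * (((0 : ℕ) : ℝ) / ((m + 2 : ℕ) : ℝ) - x))‖ ≤ m + (2 - δ ^ 2 / 4) := by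
    rw [show m + 2 = 2 + m by ring, sum_range_add]
    refine (norm_add_le _ _).trans ?_
    rw [add_comm (m : ℝ)]
    apply add_le_add
    · simp only [sum_range_succ, sum_range_zero, zero_add]
      have e1 : ee (((0 : ℕ) : ℝ) * (((0 : ℕ) : ℝ) / ((2 + m : ℕ) : ℝ) - x)) = 1 := by
        rw [Nat.cast_zero, zero_mul, ee_zero]
      have e2 : ee (((1 : ℕ) : ℝ) * (((0 : ℕ) : ℝ) / ((2 + m : ℕ) : ℝ) - x)) = ee (-x) := by
        congr 1; push_cast; ring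
      rw [e1, e2]
      exact hz
    · refine (norm_sum_le _ _).trans ?_
      simp [norm_ee]
  have hm : (((m + 2 : ℕ) : ℝ)) = (m : ℝ) + 2 := by push_cast; ring
  calc 1 / ((m + 2 : ℕ) : ℝ) * _ ≤ 1 / ((m + 2 : ℕ) : ℝ) * (m + (2 - δ ^ 2 / 4)) := by gcongr
    _ = 1 - δ ^ 2 / (4 * ((m + 2 : ℕ) : ℝ)) := by rw [hm]; field_simp; ring

end Pool.Agent.V7H99.SY
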