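import Mathlib
import Pool.Agent.V7H99.SY.B

/-! The second moment over random digit symmetries (helper99). -/

set_option autoImplicit false

namespace Pool.Agent.V7H99.SY
open Finset

section group
variable {b : ℕ} {G : Type*} [Group G] [Fintype G] [MulAction G (Fin b)]

open Classical in
/-- the number of the elements with two prescribed values -/
noncomputable def cn (G : Type*) [Group G] [Fintype G] {b : ℕ} [MulAction G (Fin b)] (x y x' y' : Fin b) : ℕ :=
  (univ.filter (fun g : G => g • x = y ∧ g • x' = y')).card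

/-- two-transitivity on the digits -/
def TwoTrans (G : Type*) [Group G] (b : ℕ) [MulAction G (Fin b)] : Prop :=
  ∀ x x' y y' : Fin b, x ≠ x' → y ≠ y' → ∃ g : G, g • x = y ∧ g • x' = y'

lemma cn_eq (h2 : TwoTrans G b) {x x' y y' z z' : Fin b} (hy : y ≠ y') (hz : z ≠ z') :
    cn G x y x' y' = cn G x z x' z' := by
  classical
  obtain ⟨h, h3, h4⟩ := h2 y y' z z' hy hz
  unfold cn
  apply card_bij (fun g _ => h * g)
  · intro g hg
    rw [mem_filter] at hg ⊢
    refine ⟨mem_univ _, ?_, ?_⟩
    · rw [mul_smul, hg.2.1, h3]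
    · rw [mul_smul, hg.2.2, h4]
  · intro g _ g' _ hgg
    exact mul_left_cancel hgg
  · intro g hg
    rw [mem_filter] at hg
    refine ⟨h⁻¹ * g, ?_, by rw [mul_inv_cancel_left]⟩
    rw [mem_filter]
    refine ⟨mem_univ _, ?_, ?_⟩
    · rw [mul_smul, hg.2.1, ← h3, inv_smul_smul]
    · rw [mul_smul, hg.2.2, ← h4, inv_smul_smul]

lemma cn_sum (x x' : Fin b) : ∑ p : Fin b × Fin b, cn G x p.1 x' p.2 = Fintype.card G := by
  classical
  have h := card_eq_sum_card_fiberwise (s := (univ : Finset G)) (t := (univ : Finset (Fin b × Fin b)))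
    (f := fun g : G => (g • x, g • x')) (fun _ _ => mem_coe.2 (mem_univ _))
  rw [card_univ] at h
  rw [h]
  apply sum_congr rfl
  intro p _
  unfold cn
  congr 1
  ext g
  simp only [mem_filter, mem_univ, true_and, Prod.ext_iff]

lemma cn_same {x x' y : Fin b} (hx : x ≠ x') : cn G x y x' y = 0 := by
  classical
  unfold cn
  rw [card_eq_zero, filter_eq_empty_iff]
  intro g _ h
  exact hx (MulAction.injective g (h.1.trans h.2.symm))

lemma cn_diff {x y y' : Fin b} (hy : y ≠ y') : cn G x y x y' = 0 := by
  classical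
  unfold cn
  rw [card_eq_zero, filter_eq_empty_iff]
  intro g _ h
  exact hy (h.1.symm.trans h.2)

lemma cn_two (h2 : TwoTrans G b) {x x' y y' : Fin b} (hx : x ≠ x') (hy : y ≠ y') :
    (b * b - b) * cn G x y x' y' = Fintype.card G := by
  classical
  rw [← cn_sum (G := G) x x']
  have h1 : ∑ p : Fin b × Fin b, cn G x p.1 x' p.2 = ∑ p ∈ (univ : Finset (Fin b)).offDiag, cn G x p.1 x' p.2 := by
    symm
    apply sum_subset (subset_univ _)
    intro p _ hp
    rw [mem_offDiag] at hp
    push Not at hp
    have := hp (mem_univ _) (mem_univ _)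
    rw [this]
    exact cn_same hx
  have h3 : ∀ p ∈ (univ : Finset (Fin b)).offDiag, cn G x p.1 x' p.2 = cn G x y x' y' := by
    intro p hp
    rw [mem_offDiag] at hp
    exact cn_eq h2 hp.2.2 hy
  rw [h1, sum_congr rfl h3, sum_const, offDiag_card, card_univ, Fintype.card_fin, smul_eq_mul]

lemma cn_one (hb : 2 ≤ b) (h2 : TwoTrans G b) (x y : Fin b) : b * cn G x y x y = Fintype.card G := by
  classical
  obtain ⟨x', hx⟩ : ∃ x' : Fin b, x ≠ x' := by
    have : Nontrivial (Fin b) := Fin.nontrivial_iff_two_le.2 hb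
    obtain ⟨x', h⟩ := exists_ne x
    exact ⟨x', h.symm⟩
  have h1 : cn G x y x y = ∑ y' : Fin b, cn G x y x' y' := by
    have h := card_eq_sum_card_fiberwise (s := univ.filter (fun g : G => g • x = y ∧ g • x = y)) (t := (univ : Finset (Fin b)))
      (f := fun g : G => g • x') (fun _ _ => mem_coe.2 (mem_univ _))
    have e0 : cn G x y x y = (univ.filter (fun g : G => g • x = y ∧ g • x = y)).card := by
      unfold cn; congr
    rw [e0, h]
    apply sum_congr rfl
    intro y' _
    unfold cn
    congr 1
    ext g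
    simp only [mem_filter, mem_univ, true_and]
    tauto
  have h3 : (∑ y' : Fin b, cn G x y x' y') = ∑ y' ∈ univ.erase y, cn G x y x' y' := by
    symm
    apply sum_subset (subset_univ _)
    intro y' _ hy'
    have : y' = y := by
      by_contra h
      exact hy' (mem_erase.2 ⟨h, mem_univ _⟩)
    rw [this]
    exact cn_same hx
  obtain ⟨y0, hy0⟩ : ∃ y0 : Fin b, y ≠ y0 := by
    have : Nontrivial (Fin b) := Fin.nontrivial_iff_two_le.2 hb
    obtain ⟨x', h⟩ := exists_ne y
    exact ⟨x', h.symm⟩
  have h4 : (∑ y' ∈ univ.erase y, cn G x y x' y') = (b - 1) * cn G x y x' y0 := by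
    have h5 : ∀ y' ∈ univ.erase y, cn G x y x' y' = cn G x y x' y0 := by
      intro y' hy'
      rw [mem_erase] at hy'
      exact cn_eq h2 (Ne.symm hy'.1) hy0
    rw [sum_congr rfl h5, sum_const, card_erase_of_mem (mem_univ _), card_univ,
      Fintype.card_fin, smul_eq_mul]
  rw [h1, h3, h4, ← cn_two h2 hx hy0]
  have : b * (b - 1) = b * b - b := by rw [Nat.mul_sub, mul_one]
  rw [← mul_assoc, this]

open Classical in
/-- the kernel -/
theorem cn_formula (hb : 2 ≤ b) (h2 : TwoTrans G b) (x y x' y' : Fin b) :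
    (cn G x y x' y' : ℝ) = Fintype.card G * (1 / (b : ℝ) ^ 2 *
      (1 + (1 / ((b : ℝ) - 1)) * ((if x = x' then (b : ℝ) - 1 else -1) * (if y = y' then (b : ℝ) - 1 else -1)))) := by
  have hb2 : (2 : ℝ) ≤ b := by exact_mod_cast hb
  have hb0 : (b : ℝ) ≠ 0 := by positivity
  have hb1 : (b : ℝ) - 1 ≠ 0 := by
    have : (0 : ℝ) < b - 1 := by linarith
    exact this.ne'
  by_cases hx : x = x'
  · subst hx
    by_cases hy : y = y'
    · subst hy
      have h := cn_one (G := G) hb h2 x y
      have h' : (b : ℝ) * cn G x y x y = Fintype.card G := by exact_mod_cast h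
      rw [if_pos rfl, if_pos rfl, ← h']
      field_simp
      ring
    · rw [cn_diff hy, if_pos rfl, if_neg hy]
      field_simp
      simp
  · by_cases hy : y = y'
    · subst hy
      rw [cn_same hx, if_neg hx, if_pos rfl]
      field_simp
      simp
    · have h := cn_two (G := G) h2 hx hy
      have h' : ((b : ℝ) * b - b) * cn G x y x' y' = Fintype.card G := by
        have h3 : (((b * b - b : ℕ) : ℝ)) * cn G x y x' y' = Fintype.card G := by exact_mod_cast h
        rw [Nat.cast_sub (by nlinarith)] at h3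
        push_cast at h3
        exact h3
      rw [if_neg hx, if_neg hy, ← h']
      field_simp
      ring

end group

end Pool.Agent.V7H99.SY
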