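import Mathlib
import Pool.Agent.V7H99.SY.Q1

/-! The second moment over random digit symmetries, part 2 (helper99). -/

set_option autoImplicit false

namespace Pool.Agent.V7H99.SY
open Finset
open Pool.Agent.H807R2.Dav

/-- the `j`-th digit as an element of `Fin b` -/
def fd (b : ℕ) [NeZero b] (j n : ℕ) : Fin b := Fin.ofNat b (n / b ^ j)

lemma fd_eq_iff {b : ℕ} [NeZero b] {j n n' : ℕ} : fd b j n = fd b j n' ↔ dg b j n = dg b j n' := by
  unfold fd dg
  rw [Fin.ext_iff]
  rfl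

/-- `b` or `0`, minus `1` -/
noncomputable def dl (b j n n' : ℕ) : ℝ := if dg b j n = dg b j n' then (b : ℝ) - 1 else -1

/-- the quadratic form of the characters which are nontrivial exactly at the places in `J` -/
noncomputable def DD (b N : ℕ) (g : ℕ → ℝ) (J : Finset ℕ) : ℝ :=
  ∑ n ∈ range N, ∑ n' ∈ range N, g n * g n' * ∏ j ∈ J, dl b j n n'

/-- the places -/
def JJ (k : ℕ) (T : Finset ℕ) : Finset ℕ := T ∪ T.image (fun i => k - 1 - i)

lemma prod_JJ {k : ℕ} {T : Finset ℕ} (hT : T ⊆ range (k / 2)) (f : ℕ → ℝ) :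
    ∏ j ∈ JJ k T, f j = ∏ i ∈ T, f i * f (k - 1 - i) := by
  have hlt : ∀ i ∈ T, i < k / 2 := fun i hi => mem_range.1 (hT hi)
  unfold JJ
  rw [prod_union, prod_image, ← prod_mul_distrib]
  · intro i hi j hj hij
    have := hlt i hi
    have := hlt j hj
    simp only at hij
    omega
  · rw [disjoint_left]
    intro i hi hi2
    rw [mem_image] at hi2
    obtain ⟨j, hj, hji⟩ := hi2
    have := hlt i hi
    have := hlt j hj
    omega

lemma card_JJ {k : ℕ} {T : Finset ℕ} (hT : T ⊆ range (k / 2)) : (JJ k T).card = 2 * T.card := by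
  have hlt : ∀ i ∈ T, i < k / 2 := fun i hi => mem_range.1 (hT hi)
  unfold JJ
  rw [card_union_of_disjoint, card_image_of_injOn, two_mul]
  · intro i hi j hj hij
    have := hlt i hi
    have := hlt j hj
    simp only at hij
    omega
  · rw [disjoint_left]
    intro i hi hi2
    rw [mem_image] at hi2
    obtain ⟨j, hj, hji⟩ := hi2
    have := hlt i hi
    have := hlt j hj
    omega

lemma JJ_sub {k : ℕ} {T : Finset ℕ} (hT : T ⊆ range (k / 2)) : JJ k T ⊆ range k := by
  intro j hj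
  unfold JJ at hj
  rw [mem_union, mem_image] at hj
  rw [mem_range]
  rcases hj with h | ⟨i, hi, rfl⟩
  · have := mem_range.1 (hT h); omega
  · have := mem_range.1 (hT hi); omega

lemma JJ_inj (k : ℕ) : Set.InjOn (JJ k) {T | T ⊆ range (k / 2)} := by
  have key : ∀ T : Finset ℕ, T ⊆ range (k / 2) → (JJ k T).filter (fun i => i < k / 2) = T := by
    intro T hT
    ext i
    rw [mem_filter]
    unfold JJ
    rw [mem_union, mem_image]
    constructor
    · rintro ⟨h | ⟨j, hj, hji⟩, h2⟩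
      · exact h
      · have := mem_range.1 (hT hj); omega
    · intro h
      exact ⟨Or.inl h, mem_range.1 (hT h)⟩
  intro T hT T' hT' h
  rw [← key T hT, ← key T' hT', h]

section moment
variable {b : ℕ} [NeZero b] {G : Type*} [Group G] [Fintype G] [MulAction G (Fin b)]

/-- the symmetry condition -/
def SymC (k : ℕ) (σ : Fin (k / 2) → G) (n : ℕ) : Prop :=
  ∀ i : Fin (k / 2), σ i • fd b i n = fd b (k - 1 - i) n

open Classical in
theorem second_moment (hb : 2 ≤ b) (h2 : TwoTrans G b) (k N : ℕ) (g : ℕ → ℝ) :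
    ∑ σ : Fin (k / 2) → G, (∑ n ∈ (range N).filter (fun n => SymC (b := b) k σ n), g n) ^ 2 =
      (Fintype.card G : ℝ) ^ (k / 2) * (1 / (b : ℝ) ^ 2) ^ (k / 2) *
        ∑ T ∈ (range (k / 2)).powerset, (1 / ((b : ℝ) - 1)) ^ T.card * DD b N g (JJ k T) := by
  have h1 : ∀ σ : Fin (k / 2) → G, (∑ n ∈ (range N).filter (fun n => SymC (b := b) k σ n), g n) ^ 2 =
      ∑ n ∈ range N, ∑ n' ∈ range N, g n * g n' * ∏ i : Fin (k / 2),
        (if σ i • fd b i n = fd b (k - 1 - i) n ∧ σ i • fd b i n' = fd b (k - 1 - i) n' then (1 : ℝ) else 0) := by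
    intro σ
    rw [sum_filter, sq, sum_mul_sum]
    apply sum_congr rfl; intro n _
    apply sum_congr rfl; intro n' _
    rw [prod_ite_zero (s := univ) (p := fun i : Fin (k / 2) =>
      σ i • fd b i n = fd b (k - 1 - i) n ∧ σ i • fd b i n' = fd b (k - 1 - i) n') (f := fun _ => (1 : ℝ))]
    simp only [prod_const_one, mem_univ, true_implies]
    by_cases ha : SymC (b := b) k σ n
    · by_cases hb' : SymC (b := b) k σ n'
      · rw [if_pos ha, if_pos hb', if_pos (fun i => ⟨ha i, hb' i⟩), mul_one]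
      · rw [if_neg hb', mul_zero, if_neg (fun h => hb' fun i => (h i).2), mul_zero]
    · rw [if_neg ha, zero_mul, if_neg (fun h => ha fun i => (h i).1), mul_zero]
  simp only [h1]
  rw [sum_comm]
  have h3 : ∀ n n' : ℕ, ∑ σ : Fin (k / 2) → G, ∏ i : Fin (k / 2),
        (if σ i • fd b i n = fd b (k - 1 - i) n ∧ σ i • fd b i n' = fd b (k - 1 - i) n' then (1 : ℝ) else 0) =
      (Fintype.card G : ℝ) ^ (k / 2) * (1 / (b : ℝ) ^ 2) ^ (k / 2) *
        ∑ T ∈ (range (k / 2)).powerset, (1 / ((b : ℝ) - 1)) ^ T.card * ∏ j ∈ JJ k T, dl b j n n' := by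
    intro n n'
    have e1 := (prod_univ_sum (fun _ : Fin (k / 2) => (univ : Finset G)) (fun i τ =>
      (if τ • fd b i n = fd b (k - 1 - i) n ∧ τ • fd b i n' = fd b (k - 1 - i) n' then (1 : ℝ) else 0))).symm
    rw [Fintype.piFinset_univ] at e1
    rw [e1]
    have e2 : ∀ i : Fin (k / 2), ∑ τ : G, (if τ • fd b i n = fd b (k - 1 - i) n ∧ τ • fd b i n' = fd b (k - 1 - i) n' then (1 : ℝ) else 0) =
        Fintype.card G * (1 / (b : ℝ) ^ 2 * (1 + (1 / ((b : ℝ) - 1)) * (dl b i n n' * dl b (k - 1 - i) n n'))) := by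
      intro i
      rw [← sum_filter, sum_const, nsmul_eq_mul, mul_one]
      have e3 := cn_formula (G := G) hb h2 (fd b i n) (fd b (k - 1 - i) n) (fd b i n') (fd b (k - 1 - i) n')
      unfold cn at e3
      rw [e3]
      unfold dl
      simp only [fd_eq_iff]
    rw [prod_congr rfl fun i _ => e2 i]
    rw [prod_mul_distrib, prod_mul_distrib, prod_const, prod_const, card_univ, Fintype.card_fin, mul_assoc]
    congr 2
    rw [← prod_range (fun i => 1 + (1 / ((b : ℝ) - 1)) * (dl b i n n' * dl b (k - 1 - i) n n')), prod_one_add]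
    apply sum_congr rfl
    intro T hT
    rw [mem_powerset] at hT
    rw [prod_JJ hT, prod_mul_distrib, prod_const]
  have h4 : ∀ n ∈ range N, ∑ σ : Fin (k / 2) → G, ∑ n' ∈ range N, g n * g n' * ∏ i : Fin (k / 2),
        (if σ i • fd b i n = fd b (k - 1 - i) n ∧ σ i • fd b i n' = fd b (k - 1 - i) n' then (1 : ℝ) else 0) =
      ∑ n' ∈ range N, g n * g n' * ((Fintype.card G : ℝ) ^ (k / 2) * (1 / (b : ℝ) ^ 2) ^ (k / 2) *
        ∑ T ∈ (range (k / 2)).powerset, (1 / ((b : ℝ) - 1)) ^ T.card * ∏ j ∈ JJ k T, dl b j n n') := by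
    intro n _
    rw [sum_comm]
    apply sum_congr rfl; intro n' _
    rw [← mul_sum, h3]
  rw [sum_congr rfl h4]
  set C : ℝ := (Fintype.card G : ℝ) ^ (k / 2) * (1 / (b : ℝ) ^ 2) ^ (k / 2) with hC
  have h5 : ∀ n n' : ℕ, g n * g n' * (C * ∑ T ∈ (range (k / 2)).powerset, (1 / ((b : ℝ) - 1)) ^ T.card *
        ∏ j ∈ JJ k T, dl b j n n') =
      ∑ T ∈ (range (k / 2)).powerset, C * ((1 / ((b : ℝ) - 1)) ^ T.card * (g n * g n' * ∏ j ∈ JJ k T, dl b j n n')) := by
    intro n n'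
    rw [mul_sum, mul_sum]
    apply sum_congr rfl; intro T _
    ring
  rw [sum_congr rfl fun n _ => sum_congr rfl fun n' _ => h5 n n']
  rw [sum_congr rfl fun n _ => sum_comm, sum_comm, mul_sum]
  apply sum_congr rfl; intro T _
  unfold DD
  rw [mul_sum, mul_sum]
  apply sum_congr rfl; intro n _
  rw [mul_sum, mul_sum]

end moment

/-! ## the quadratic forms -/

lemma ee_nat (n : ℕ) : ee (n : ℝ) = 1 := by exact_mod_cast ee_int (n : ℤ)

lemma dl_char {b : ℕ} (hb : 2 ≤ b) (j n n' : ℕ) : ((dl b j n n' : ℝ) : ℂ) =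
    ∑ u ∈ Ico 1 b, ee ((dg b j n : ℝ) * ((u : ℝ) / b)) * (starRingEnd ℂ) (ee ((dg b j n' : ℝ) * ((u : ℝ) / b))) := by
  have hb0 : (b : ℝ) ≠ 0 := by positivity
  set d := dg b j n with hd
  set d' := dg b j n' with hd'
  have hd'b : d' < b := dg_lt (by omega) j n'
  have hdb : d < b := dg_lt (by omega) j n
  have h1 : ∀ u : ℕ, ee ((d : ℝ) * ((u : ℝ) / b)) * (starRingEnd ℂ) (ee ((d' : ℝ) * ((u : ℝ) / b))) =
      ee ((u : ℝ) * (((d + b - d' : ℕ) : ℝ) / b)) := by
    intro u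
    have h2 : (starRingEnd ℂ) (ee ((d' : ℝ) * ((u : ℝ) / b))) = ee (-((d' : ℝ) * ((u : ℝ) / b))) := by
      rw [ee_eq, ee_eq, ← Complex.exp_conj]
      congr 1
      simp only [map_mul, Complex.conj_ofReal, Complex.conj_I]
      push_cast; ring
    rw [h2, ← ee_add, Nat.cast_sub (by omega)]
    have h3 : (u : ℝ) * ((((d + b : ℕ) : ℝ) - d') / b) = ((d : ℝ) * ((u : ℝ) / b) + -((d' : ℝ) * ((u : ℝ) / b))) + ((u : ℤ) : ℝ) := by
      push_cast
      field_simp
      ring
    rw [h3, ee_add_int]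
  rw [sum_congr rfl fun u _ => h1 u]
  have h4 : ∑ u ∈ range b, ee ((u : ℝ) * (((d + b - d' : ℕ) : ℝ) / b)) = 1 + ∑ u ∈ Ico 1 b, ee ((u : ℝ) * (((d + b - d' : ℕ) : ℝ) / b)) := by
    rw [range_eq_Ico, sum_eq_sum_Ico_succ_bot (by omega)]
    rw [Nat.cast_zero, zero_mul, ee_zero]
  have h5 : ∑ u ∈ Ico 1 b, ee ((u : ℝ) * (((d + b - d' : ℕ) : ℝ) / b)) = ∑ u ∈ range b, ee ((u : ℝ) * (((d + b - d' : ℕ) : ℝ) / b)) - 1 := by
    rw [h4]; ring
  rw [h5]
  unfold dl
  rw [← hd, ← hd']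
  by_cases h : d = d'
  · rw [if_pos h, h]
    have e1 : d' + b - d' = b := by omega
    rw [e1]
    have : ∀ u ∈ range b, ee ((u : ℝ) * ((b : ℝ) / b)) = 1 := by
      intro u _
      rw [div_self hb0, mul_one, ee_nat]
    rw [sum_congr rfl this]
    simp
  · rw [if_neg h, full_sum (by omega) (by
      intro hdiv
      have h6 : d + b - d' < 2 * b := by omega
      have h7 : 0 < d + b - d' := by omega
      obtain ⟨c, hc⟩ := hdiv
      have : c < 2 := by
        by_contra hcc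
        have : b * 2 ≤ b * c := Nat.mul_le_mul_left _ (by omega)
        omega
      have : c = 1 := by
        rcases Nat.lt_or_ge c 1 with h8 | h8
        · have : c = 0 := by omega
          rw [this] at hc; omega
        · omega
      rw [this] at hc
      omega)]
    push_cast
    ring

/-- the quadratic form is bounded by the largest character sum -/
theorem DD_char {b : ℕ} (hb : 2 ≤ b) (N : ℕ) (J : Finset ℕ) : ∀ (c : ℕ → ℂ) (M : ℝ),
    (∀ w : ℕ → ℕ, (∀ j ∈ J, 1 ≤ w j ∧ w j < b) → (∀ j, j ∉ J → w j = 0) →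
      ‖∑ n ∈ range N, c n * ∏ j ∈ J, ee ((dg b j n : ℝ) * ((w j : ℝ) / b))‖ ≤ M) →
    ∃ r : ℝ, 0 ≤ r ∧ r ≤ ((b : ℝ) - 1) ^ J.card * M ^ 2 ∧
      ∑ n ∈ range N, ∑ n' ∈ range N, c n * (starRingEnd ℂ) (c n') * ∏ j ∈ J, ((dl b j n n' : ℝ) : ℂ) = r := by
  classical
  have hb1 : (1 : ℝ) ≤ b - 1 := by
    have : (2 : ℝ) ≤ b := by exact_mod_cast hb
    linarith
  induction J using Finset.induction_on with
  | empty =>
    intro c M h
    have h1 := h (fun _ => 0) (by simp) (by simp)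
    simp only [prod_empty, mul_one] at h1 ⊢
    refine ⟨‖∑ n ∈ range N, c n‖ ^ 2, by positivity, ?_, ?_⟩
    · rw [card_empty, pow_zero, one_mul]
      exact pow_le_pow_left₀ (norm_nonneg _) h1 2
    · rw [← sum_mul_sum, ← map_sum, Complex.mul_conj, Complex.normSq_eq_norm_sq]
  | insert j J hj ih =>
    intro c M h
    have hex : ∀ u ∈ Ico 1 b, ∃ r : ℝ, 0 ≤ r ∧ r ≤ ((b : ℝ) - 1) ^ J.card * M ^ 2 ∧
        ∑ n ∈ range N, ∑ n' ∈ range N, (c n * ee ((dg b j n : ℝ) * ((u : ℝ) / b))) *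
          (starRingEnd ℂ) (c n' * ee ((dg b j n' : ℝ) * ((u : ℝ) / b))) * ∏ i ∈ J, ((dl b i n n' : ℝ) : ℂ) = r := by
      intro u hu
      rw [mem_Ico] at hu
      apply ih
      intro w hw1 hw2
      have h2 := h (Function.update w j u) (by
        intro i hi
        rw [mem_insert] at hi
        rcases hi with rfl | hi
        · rw [Function.update_self]; exact hu
        · have : i ≠ j := fun e => hj (e ▸ hi)
          rw [Function.update_of_ne this]
          exact hw1 i hi) (by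
        intro i hi
        rw [mem_insert, not_or] at hi
        rw [Function.update_of_ne hi.1]
        exact hw2 i hi.2)
      refine le_trans (le_of_eq ?_) h2
      congr 1
      apply sum_congr rfl; intro n _
      rw [prod_insert hj, Function.update_self, mul_assoc]
      congr 2
      apply prod_congr rfl; intro i hi
      have : i ≠ j := fun e => hj (e ▸ hi)
      rw [Function.update_of_ne this]
    choose! r hr0 hr1 hr2 using hex
    refine ⟨∑ u ∈ Ico 1 b, r u, sum_nonneg fun u hu => hr0 u hu, ?_, ?_⟩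
    · refine (sum_le_sum fun u hu => hr1 u hu).trans ?_
      rw [sum_const, Nat.card_Ico, nsmul_eq_mul, card_insert_of_notMem hj, pow_succ, Nat.cast_sub (by omega)]
      push_cast
      apply le_of_eq
      ring
    · rw [Complex.ofReal_sum, sum_congr rfl fun u hu => (hr2 u hu).symm]
      have h3 : ∀ n n' : ℕ, c n * (starRingEnd ℂ) (c n') * ∏ i ∈ insert j J, ((dl b i n n' : ℝ) : ℂ) =
          ∑ u ∈ Ico 1 b, (c n * ee ((dg b j n : ℝ) * ((u : ℝ) / b))) *
          (starRingEnd ℂ) (c n' * ee ((dg b j n' : ℝ) * ((u : ℝ) / b))) * ∏ i ∈ J, ((dl b i n n' : ℝ) : ℂ) := by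
        intro n n'
        rw [prod_insert hj, dl_char hb, sum_mul, mul_sum]
        apply sum_congr rfl; intro u _
        rw [map_mul]
        ring
      rw [sum_congr rfl fun n _ => sum_congr rfl fun n' _ => h3 n n']
      rw [sum_congr rfl fun n _ => sum_comm, sum_comm]

/-- the quadratic form, real version -/
theorem DD_bound {b : ℕ} (hb : 2 ≤ b) (N : ℕ) (g : ℕ → ℝ) (J : Finset ℕ) (M : ℝ)
    (h : ∀ w : ℕ → ℕ, (∀ j ∈ J, 1 ≤ w j ∧ w j < b) → (∀ j, j ∉ J → w j = 0) →
      ‖∑ n ∈ range N, (g n : ℂ) * ∏ j ∈ J, ee ((dg b j n : ℝ) * ((w j : ℝ) / b))‖ ≤ M) :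
    0 ≤ DD b N g J ∧ DD b N g J ≤ ((b : ℝ) - 1) ^ J.card * M ^ 2 := by
  obtain ⟨r, h0, h1, h2⟩ := DD_char hb N J (fun n => (g n : ℂ)) M h
  have h3 : DD b N g J = r := by
    have h4 : ((DD b N g J : ℝ) : ℂ) = r := by
      rw [← h2]
      unfold DD
      push_cast
      apply sum_congr rfl; intro n _
      apply sum_congr rfl; intro n' _
      rw [Complex.conj_ofReal]
    exact_mod_cast h4
  rw [h3]
  exact ⟨h0, h1⟩

lemma DD_nonneg {b : ℕ} (hb : 2 ≤ b) (N : ℕ) (g : ℕ → ℝ) (J : Finset ℕ) : 0 ≤ DD b N g J := by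
  refine (DD_bound hb N g J (∑ n ∈ range N, |g n|) fun w _ _ => ?_).1
  refine (norm_sum_le _ _).trans (le_of_eq (sum_congr rfl fun n _ => ?_))
  rw [norm_mul, norm_prod, prod_congr rfl fun j _ => norm_ee _, prod_const_one, mul_one, Complex.norm_real, Real.norm_eq_abs]

/-- sum over all subsets -/
theorem DD_sum (b N : ℕ) (g : ℕ → ℝ) (U : Finset ℕ) :
    ∑ J ∈ U.powerset, DD b N g J = (b : ℝ) ^ U.card *
      ∑ n ∈ range N, ∑ n' ∈ range N, if ∀ j ∈ U, dg b j n = dg b j n' then g n * g n' else 0 := by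
  unfold DD
  rw [sum_comm, mul_sum]
  apply sum_congr rfl; intro n _
  rw [sum_comm, mul_sum]
  apply sum_congr rfl; intro n' _
  rw [← mul_sum, ← prod_one_add]
  have h1 : ∀ j ∈ U, 1 + dl b j n n' = if dg b j n = dg b j n' then (b : ℝ) else 0 := by
    intro j _
    unfold dl
    split_ifs <;> ring
  rw [prod_congr rfl h1, prod_ite_zero, prod_const]
  split_ifs <;> ring

end Pool.Agent.V7H99.SY
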