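import Mathlib

/-! Elementary asymptotics (helper99). -/

set_option autoImplicit false

namespace Pool.Agent.V7H99.SY

lemma ev_pow (c : ℝ) (n : ℕ) : ∃ U0 : ℕ, ∀ v : ℕ, U0 ≤ v → c * ((v : ℝ) + 1) ^ n ≤ 2 ^ v := by
  have h := tendsto_pow_const_div_const_pow_of_one_lt n (one_lt_two (α := ℝ))
  have h2 := h.eventually (gt_mem_nhds (show (0 : ℝ) < 1 / (2 * (|c| + 1)) by positivity))
  rw [Filter.eventually_atTop] at h2
  obtain ⟨N, hN⟩ := h2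
  refine ⟨N, fun v hv => ?_⟩
  have h3 := hN (v + 1) (by omega)
  push_cast at h3
  rw [div_lt_div_iff₀ (by positivity) (by positivity), one_mul] at h3
  have h4 : c ≤ |c| + 1 := by have := le_abs_self c; linarith
  have h5 : (0 : ℝ) ≤ ((v : ℝ) + 1) ^ n := by positivity
  have h6 : ((v : ℝ) + 1) ^ n * (2 * (|c| + 1)) < 2 ^ v * 2 := by rw [← pow_succ]; exact h3
  nlinarith

lemma ev_pow4 (c : ℝ) (n : ℕ) : ∃ U0 : ℕ, ∀ u : ℕ, U0 ≤ u → c * ((u : ℝ) + 1) ^ n ≤ 2 ^ (u / 4) := by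
  obtain ⟨U0, h⟩ := ev_pow (|c| * 4 ^ n) n
  refine ⟨4 * U0, fun u hu => ?_⟩
  have h1 := h (u / 4) (by omega)
  refine le_trans ?_ h1
  have h2 : (u : ℝ) + 1 ≤ 4 * (((u / 4 : ℕ) : ℝ) + 1) := by
    have : u + 1 ≤ 4 * (u / 4 + 1) := by omega
    exact_mod_cast this
  calc c * ((u : ℝ) + 1) ^ n ≤ |c| * (4 * (((u / 4 : ℕ) : ℝ) + 1)) ^ n := by
        gcongr
        exact le_abs_self c
    _ = _ := by rw [mul_pow]; ring

/-- `c (log₂ K + 1) ^ n ≤ K` for large `K` -/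
lemma ev_log (c n : ℕ) : ∃ K0 : ℕ, ∀ K : ℕ, K0 ≤ K → c * (Nat.log 2 K + 1) ^ n ≤ K := by
  obtain ⟨U0, h⟩ := ev_pow c n
  refine ⟨2 ^ (U0 + 1), fun K hK => ?_⟩
  have hK0 : K ≠ 0 := by
    have : 0 < 2 ^ (U0 + 1) := by positivity
    omega
  have hu : U0 ≤ Nat.log 2 K := by
    have := Nat.log_mono_right (b := 2) hK
    rw [Nat.log_pow (by norm_num)] at this
    omega
  have h1 := h (Nat.log 2 K) hu
  have h2 : 2 ^ Nat.log 2 K ≤ K := Nat.pow_log_le_self 2 hK0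
  have h3 : c * (Nat.log 2 K + 1) ^ n ≤ 2 ^ Nat.log 2 K := by exact_mod_cast h1
  omega

lemma ev_ge (U : ℕ) : ∃ K0 : ℕ, ∀ K : ℕ, K0 ≤ K → U ≤ Nat.log 2 K := by
  refine ⟨2 ^ U, fun K hK => ?_⟩
  have := Nat.log_mono_right (b := 2) hK
  rwa [Nat.log_pow (by norm_num)] at this

end Pool.Agent.V7H99.SY
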