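import Mathlib

/-! Real characters modulo the powers of a fixed integer (helper99). -/

set_option autoImplicit false

namespace Pool.Agent.V7H99.SY

/-- integers congruent to `1` modulo `b ^ 3` are squares modulo each power of `b` -/
theorem sq_lift {b : ℤ} (hb : b ≠ 0) {a : ℤ} (ha : b ^ 3 ∣ a - 1) (m : ℕ) (hm : 3 ≤ m) :
    ∃ c : ℤ, IsCoprime c b ∧ b ^ m ∣ c ^ 2 - a := by
  induction m, hm using Nat.le_induction with
  | base => exact ⟨1, isCoprime_one_left, by obtain ⟨d, hd⟩ := ha; exact ⟨-d, by linarith⟩⟩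
  | succ m hm ih =>
    obtain ⟨c, hc, s, hs⟩ := ih
    rcases Int.even_or_odd' b with ⟨β, hβ | hβ⟩
    · -- even
      obtain ⟨x, y, hxy⟩ := hc
      -- x c + y b = 1, t = - s x
      refine ⟨c + β * b ^ (m - 1) * (-(s * x)), ?_, ?_⟩
      · have h1 : b ∣ β * b ^ (m - 1) * (-(s * x)) := by
          have : b ∣ b ^ (m - 1) := dvd_pow_self b (by omega)
          exact Dvd.dvd.mul_right (Dvd.dvd.mul_left this _) _
        obtain ⟨z, hz⟩ := h1
        rw [hz]
        have h2 : IsCoprime c b := ⟨x, y, hxy⟩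
        exact (IsCoprime.add_mul_left_left h2 z)
      · obtain ⟨n, rfl⟩ : ∃ n, m = n + 3 := ⟨m - 3, by omega⟩
        have e1 : n + 3 - 1 = n + 2 := by omega
        rw [e1]
        refine ⟨s * y + β ^ 2 * b ^ n * (s * x) ^ 2, ?_⟩
        have e2 : (c + β * b ^ (n + 2) * (-(s * x))) ^ 2 - a =
            (c ^ 2 - a) - (2 * β) * c * b ^ (n + 2) * (s * x) + β ^ 2 * (b ^ (n + 2)) ^ 2 * (s * x) ^ 2 := by ring
        rw [e2, hs, ← hβ]
        have e3 : c * x = 1 - y * b := by linarith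
        calc b ^ (n + 3) * s - b * c * b ^ (n + 2) * (s * x) + β ^ 2 * (b ^ (n + 2)) ^ 2 * (s * x) ^ 2
            = b ^ (n + 3) * s - b ^ (n + 3) * s * (c * x) + β ^ 2 * (b ^ (n + 2)) ^ 2 * (s * x) ^ 2 := by ring
          _ = b ^ (n + 3 + 1) * (s * y + β ^ 2 * b ^ n * (s * x) ^ 2) := by rw [e3]; ring
    · -- odd
      have h2 : IsCoprime (2 * c) b := by
        apply IsCoprime.mul_left _ hc
        exact ⟨-β, 1, by rw [hβ]; ring⟩
      obtain ⟨x, y, hxy⟩ := h2
      refine ⟨c + b ^ m * (-(s * x)), ?_, ?_⟩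
      · have h1 : b ∣ b ^ m * (-(s * x)) := Dvd.dvd.mul_right (dvd_pow_self b (by omega)) _
        obtain ⟨z, hz⟩ := h1
        rw [hz]
        exact (IsCoprime.add_mul_left_left hc z)
      · obtain ⟨n, rfl⟩ : ∃ n, m = n + 3 := ⟨m - 3, by omega⟩
        refine ⟨s * y + b ^ (n + 2) * (s * x) ^ 2, ?_⟩
        have e2 : (c + b ^ (n + 3) * (-(s * x))) ^ 2 - a =
            (c ^ 2 - a) - b ^ (n + 3) * s * (x * (2 * c)) + (b ^ (n + 3)) ^ 2 * (s * x) ^ 2 := by ring
        rw [e2, hs]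
        have e3 : x * (2 * c) = 1 - y * b := by linarith
        rw [e3]; ring

/-- real characters modulo `b ^ m` come from characters modulo `b ^ 3` -/
theorem real_factors {b m : ℕ} (hb : 2 ≤ b) (hm : 3 ≤ m) (χ : DirichletCharacter ℂ (b ^ m)) (hχ : χ ^ 2 = 1) :
    χ.FactorsThrough (b ^ 3) := by
  have hd : b ^ 3 ∣ b ^ m := pow_dvd_pow b hm
  have : NeZero (b ^ m) := ⟨by positivity⟩
  rw [DirichletCharacter.factorsThrough_iff_ker_unitsMap hd]
  intro u hu
  rw [MonoidHom.mem_ker] at hu ⊢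
  -- `u` is `1` modulo `b ^ 3`
  have h1 : (ZMod.castHom hd (ZMod (b ^ 3))) (u : ZMod (b ^ m)) = 1 := by
    have := congrArg Units.val hu
    rwa [ZMod.unitsMap_def, Units.coe_map] at this
  set a : ℤ := ((u : ZMod (b ^ m)).val : ℤ) with ha
  have hau : ((a : ℤ) : ZMod (b ^ m)) = u := by
    rw [ha]; simp
  have h2 : (b : ℤ) ^ 3 ∣ a - 1 := by
    rw [← hau] at h1
    rw [map_intCast] at h1
    have h3 : (((a - 1 : ℤ)) : ZMod (b ^ 3)) = 0 := by push_cast; rw [h1]; ring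
    rw [ZMod.intCast_zmod_eq_zero_iff_dvd] at h3
    exact_mod_cast h3
  obtain ⟨c, hc, hcd⟩ := sq_lift (by exact_mod_cast (by omega : b ≠ 0)) h2 m hm
  have h4 : ((c : ZMod (b ^ m))) ^ 2 = u := by
    have h5 : (((c ^ 2 - a : ℤ)) : ZMod (b ^ m)) = 0 := by
      rw [ZMod.intCast_zmod_eq_zero_iff_dvd]
      exact_mod_cast hcd
    push_cast at h5
    rw [← hau]
    exact sub_eq_zero.1 h5
  have h6 : IsUnit (c : ZMod (b ^ m)) := by
    have : IsUnit ((c : ZMod (b ^ m)) ^ 2) := by rw [h4]; exact u.isUnit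
    exact (isUnit_pow_iff (by norm_num)).1 this
  obtain ⟨v, hv⟩ := h6
  have h7 : u = v ^ 2 := by
    apply Units.ext
    rw [Units.val_pow_eq_pow_val, hv, h4]
  rw [h7, map_pow]
  apply Units.ext
  rw [Units.val_pow_eq_pow_val, MulChar.coe_toUnitHom, ← MulChar.pow_apply_coe, hχ, Units.val_one]
  exact MulChar.one_apply_coe v

/-- the values at `1` of the `L`-functions of the real characters modulo the powers of `b` -/
theorem real_lower {b : ℕ} (hb : 2 ≤ b) : ∃ c₁ : ℝ, 0 < c₁ ∧ c₁ ≤ 1 ∧ ∀ m : ℕ, ∀ χ : DirichletCharacter ℂ (b ^ m),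
    χ ≠ 1 → χ ^ 2 = 1 → c₁ ≤ ‖@DirichletCharacter.LFunction (b ^ m) ⟨by positivity⟩ χ 1‖ := by
  classical
  have hne : ∀ m : ℕ, NeZero (b ^ m) := fun m => ⟨by positivity⟩
  have hfin : ∀ m : ℕ, ∃ c : ℝ, 0 < c ∧ ∀ χ : DirichletCharacter ℂ (b ^ m), χ ≠ 1 → c ≤ ‖χ.LFunction 1‖ := by
    intro m
    have := hne m
    set S := (Finset.univ : Finset (DirichletCharacter ℂ (b ^ m))).filter (fun χ => χ ≠ 1) with hS
    rcases S.eq_empty_or_nonempty with h | h
    · refine ⟨1, one_pos, fun χ hχ => ?_⟩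
      have : χ ∈ S := by rw [hS, Finset.mem_filter]; exact ⟨Finset.mem_univ _, hχ⟩
      rw [h] at this
      exact absurd this (Finset.notMem_empty _)
    · obtain ⟨χ₀, h0, hmin⟩ := S.exists_min_image (fun χ => ‖χ.LFunction 1‖) h
      rw [hS, Finset.mem_filter] at h0
      refine ⟨‖χ₀.LFunction 1‖, norm_pos_iff.2 (DirichletCharacter.LFunction_apply_one_ne_zero h0.2), fun χ hχ => ?_⟩
      exact hmin χ (by rw [hS, Finset.mem_filter]; exact ⟨Finset.mem_univ _, hχ⟩)
  choose c hc0 hc using hfin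
  refine ⟨min 1 (min (c 0) (min (c 1) (min (c 2) (c 3)))), ?_, min_le_left _ _, fun m χ hχ1 hχ2 => ?_⟩
  · exact lt_min one_pos (lt_min (hc0 0) (lt_min (hc0 1) (lt_min (hc0 2) (hc0 3))))
  have hle : ∀ j ≤ 3, min 1 (min (c 0) (min (c 1) (min (c 2) (c 3)))) ≤ c j := by
    intro j hj
    interval_cases j
    · exact (min_le_right _ _).trans (min_le_left _ _)
    · exact (min_le_right _ _).trans ((min_le_right _ _).trans (min_le_left _ _))
    · exact (min_le_right _ _).trans ((min_le_right _ _).trans ((min_le_right _ _).trans (min_le_left _ _)))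
    · exact (min_le_right _ _).trans ((min_le_right _ _).trans ((min_le_right _ _).trans (min_le_right _ _)))
  rcases le_or_gt m 3 with h | h
  · exact (hle m h).trans (hc m χ hχ1)
  · obtain ⟨hd, χ₀, h0⟩ := real_factors hb h.le χ hχ2
    have := hne m
    have := hne 3
    have hχ0 : χ₀ ≠ 1 := by
      rintro rfl
      apply hχ1
      rw [h0]
      simp
    have h1 : χ.LFunction 1 = χ₀.LFunction 1 := by
      rw [h0, DirichletCharacter.LFunction_changeLevel hd χ₀ (Or.inl hχ0)]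
      have h2 : ∏ p ∈ (b ^ m).primeFactors, (1 - χ₀ (p : ZMod (b ^ 3)) * (p : ℂ) ^ (-(1 : ℂ))) = 1 := by
        apply Finset.prod_eq_one
        intro p hp
        have hp1 := Nat.prime_of_mem_primeFactors hp
        have hp2 : p ∣ b := hp1.dvd_of_dvd_pow (Nat.dvd_of_mem_primeFactors hp)
        have h3 : ¬ IsUnit ((p : ZMod (b ^ 3))) := by
          rw [ZMod.isUnit_iff_coprime]
          intro h4
          have h5 : p ∣ b ^ 3 := hp2.trans (dvd_pow_self b (by norm_num))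
          have := Nat.Coprime.eq_one_of_dvd h4 h5
          exact hp1.one_lt.ne' this
        rw [χ₀.map_nonunit h3]
        ring
      rw [h2, mul_one]
    have h3 : ‖χ.LFunction 1‖ = ‖χ₀.LFunction 1‖ := by rw [h1]
    exact (hle 3 le_rfl).trans ((hc 3 χ₀ hχ0).trans h3.ge)

end Pool.Agent.V7H99.SY
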