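import Mathlib
import Pool.Agent.H343R2.EH.Unsmooth
import Pool.Agent.V7H99.SY.P1
import Pool.Agent.V7H99.SY.P2

/-! Primes in the residue classes modulo the powers of a fixed integer: logarithmic weights (helper99). -/

set_option autoImplicit false

namespace Pool.Agent.V7H99.SY

open Finset
open Pool.Agent.H410R2 Pool.Agent.H398R2.BV H343E

lemma q_pow_le {b m : ℕ} (hb : 2 ≤ b) (hm : 1 ≤ m) : ((b ^ m : ℕ) : ℝ) ^ (1 / (2 * (b : ℝ) * m)) ≤ 2 := by
  have hb0 : (0 : ℝ) < b := by exact_mod_cast (by omega : 0 < b)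
  have hm0 : (0 : ℝ) < m := by exact_mod_cast hm
  have h1 : ((b ^ m : ℕ) : ℝ) ^ (1 / (2 * (b : ℝ) * m)) = (b : ℝ) ^ (1 / (2 * (b : ℝ))) := by
    push_cast
    rw [← Real.rpow_natCast, ← Real.rpow_mul hb0.le]
    congr 1
    field_simp
  rw [h1, Real.rpow_def_of_pos hb0]
  have h2 : Real.log b ≤ b := (Real.log_le_sub_one_of_pos hb0).trans (by linarith)
  have h3 : Real.log b * (1 / (2 * (b : ℝ))) ≤ 1 / 2 := by
    rw [mul_one_div, div_le_div_iff₀ (by positivity) (by norm_num)]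
    linarith
  calc Real.exp (Real.log b * (1 / (2 * (b : ℝ)))) ≤ Real.exp (1 / 2) := Real.exp_le_exp.2 h3
    _ ≤ 2 := by
      have h4 : Real.exp (1 / 2) * Real.exp (1 / 2) = Real.exp 1 := by rw [← Real.exp_add]; norm_num
      have h5 := Real.exp_one_lt_d9
      have h6 := Real.exp_pos (1 / 2)
      nlinarith

lemma gen17 (x y z : ℝ) : x ^ 17 * (y ^ 17 * z ^ 17) = (x * y * z) ^ 17 := by ring

/-- one character -/
theorem char_bound {b : ℕ} (hb : 2 ≤ b) : ∃ C₁ : ℝ, 1 ≤ C₁ ∧ ∀ (k m : ℕ) (_ : 1 ≤ m) (_ : NeZero (b ^ m))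
    (χ : DirichletCharacter ℂ (b ^ m)), χ ≠ 1 → ∀ X : ℝ, Real.exp 1 ≤ X →
    ‖psiLog X (b ^ m) χ‖ ≤ (C₁ * (k + 1) * m) ^ (17 * (k + 1)) * X / Real.log X ^ k := by
  obtain ⟨C₀, hC₀, hmain⟩ := psi_expl
  obtain ⟨c₁, hc₁, hc₁1, hreal⟩ := real_lower hb
  have hb0 : (0 : ℝ) < b := by exact_mod_cast (by omega : 0 < b)
  have hb2 : (2 : ℝ) ≤ b := by exact_mod_cast hb
  set D : ℝ := 2 * (C₀ + 1) * (17280 * 256 * (34 * b) ^ 16 / c₁) with hD
  have hD1 : 1 ≤ D := by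
    have h1 : 1 ≤ 17280 * 256 * (34 * (b : ℝ)) ^ 16 / c₁ := by
      rw [le_div_iff₀ hc₁, one_mul]
      have : 1 ≤ (34 * (b : ℝ)) ^ 16 := one_le_pow₀ (by linarith)
      linarith
    have h2 : 1 ≤ 2 * (C₀ + 1) := by linarith
    calc (1 : ℝ) = 1 * 1 := by norm_num
      _ ≤ 2 * (C₀ + 1) * (17280 * 256 * (34 * b) ^ 16 / c₁) := by gcongr
  refine ⟨D, hD1, fun k m hm _ χ hχ X hX => ?_⟩
  have hm1 : (1 : ℝ) ≤ m := by exact_mod_cast hm
  have hk1 : (1 : ℝ) ≤ (k : ℝ) + 1 := by linarith [Nat.cast_nonneg (α := ℝ) k]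
  have hX0 : 0 < X := lt_of_lt_of_le (Real.exp_pos 1) hX
  have hlog : 1 ≤ Real.log X := by rw [Real.le_log_iff_exp_le hX0]; exact hX
  set θ : ℝ := 1 / (2 * (b : ℝ) * m) with hθ
  have hθ0 : 0 < θ := by positivity
  have hθ2 : θ ≤ 1 / 2 := by
    rw [hθ]
    apply one_div_le_one_div_of_le (by norm_num)
    nlinarith
  have hq1 : (1 : ℝ) ≤ ((b ^ m : ℕ) : ℝ) := by exact_mod_cast Nat.one_le_pow _ _ (by omega)
  have h := hmain k θ hθ0 hθ2 c₁ hc₁ hc₁1 (b ^ m) χ hχ (fun hsq => by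
    refine le_trans ?_ (hreal m χ hχ hsq)
    have h1 : ((b ^ m : ℕ) : ℝ) ^ (-(θ / (17 * ((k : ℝ) + 1)))) ≤ 1 := by
      apply Real.rpow_le_one_of_one_le_of_nonpos hq1
      have : 0 < θ / (17 * ((k : ℝ) + 1)) := by positivity
      linarith
    nlinarith) X hX
  refine h.trans ?_
  set H : ℝ := 34 * b * m * (k + 1) with hH
  have hH0 : 0 < H := by positivity
  have hH68 : 9 ≤ H := by
    rw [hH]
    have h1 : 2 * 1 * 1 ≤ (b : ℝ) * m * (k + 1) := by gcongr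
    nlinarith
  have hη : θ / (17 * ((k : ℝ) + 1)) = 1 / H := by
    rw [hθ, hH]; field_simp; norm_num
  rw [hη]
  have e1 : (9 + 1 / (1 / H)) / (1 / H) = (9 + H) * H := by field_simp
  rw [e1]
  have h2 : (9 + H) * H ≤ 2 * H ^ 2 := by nlinarith
  have h3 : ((9 + H) * H) ^ 8 ≤ 256 * H ^ 16 := by
    calc ((9 + H) * H) ^ 8 ≤ (2 * H ^ 2) ^ 8 := by gcongr
      _ = 256 * H ^ 16 := by ring
  have h4 : (k.factorial : ℝ) ≤ ((k : ℝ) + 1) ^ (k + 1) := by
    have a1 : k.factorial ≤ k ^ k := Nat.factorial_le_pow k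
    have a2 : k ^ k ≤ (k + 1) ^ (k + 1) := by
      calc k ^ k ≤ (k + 1) ^ k := Nat.pow_le_pow_left (by omega) _
        _ ≤ (k + 1) ^ (k + 1) := Nat.pow_le_pow_right (by omega) (by omega)
    exact_mod_cast a1.trans a2
  have h5 : C₀ * 2 ≤ (2 * (C₀ + 1)) ^ (k + 1) := by
    calc C₀ * 2 ≤ 2 * (C₀ + 1) := by linarith
      _ ≤ (2 * (C₀ + 1)) ^ (k + 1) := le_self_pow₀ (by linarith) (by omega)
  have hqp := q_pow_le hb hm
  have hl0 : 0 < Real.log X ^ k := by positivity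
  apply div_le_div_of_nonneg_right _ hl0.le
  calc C₀ * (k.factorial * (17280 * ((9 + H) * H) ^ 8 / c₁) ^ (k + 1)) * X * ((b ^ m : ℕ) : ℝ) ^ θ
      ≤ C₀ * (((k : ℝ) + 1) ^ (k + 1) * (17280 * (256 * H ^ 16) / c₁) ^ (k + 1)) * X * 2 := by
        gcongr
    _ = (C₀ * 2) * ((((k : ℝ) + 1) ^ (k + 1) * (17280 * (256 * H ^ 16) / c₁) ^ (k + 1)) * X) := by ring
    _ ≤ (2 * (C₀ + 1)) ^ (k + 1) * ((((k : ℝ) + 1) ^ (k + 1) * (17280 * (256 * H ^ 16) / c₁) ^ (k + 1)) * X) := by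
        gcongr
    _ = (D * ((k + 1) ^ 17 * m ^ 16)) ^ (k + 1) * X := by
        rw [← mul_assoc, ← mul_assoc, ← mul_pow, ← mul_pow]
        congr 2
        rw [hD, hH]
        generalize (k : ℝ) + 1 = κ
        generalize C₀ + 1 = γ
        ring
    _ ≤ ((D * (k + 1) * m) ^ 17) ^ (k + 1) * X := by
        gcongr
        have a1 : D ≤ D ^ 17 := le_self_pow₀ hD1 (by norm_num)
        have a2 : (m : ℝ) ^ 16 ≤ (m : ℝ) ^ 17 := pow_le_pow_right₀ hm1 (by norm_num)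
        calc D * (((k : ℝ) + 1) ^ 17 * (m : ℝ) ^ 16) ≤ D ^ 17 * (((k : ℝ) + 1) ^ 17 * (m : ℝ) ^ 17) := by gcongr
          _ = (D * ((k : ℝ) + 1) * m) ^ 17 := gen17 _ _ _
    _ = _ := by rw [← pow_mul]

/-- classes, logarithmic weights -/
theorem log_ap {b : ℕ} (hb : 2 ≤ b) : ∃ C₁ : ℝ, 1 ≤ C₁ ∧ ∀ (k m : ℕ), 1 ≤ m → ∀ r : ℕ, r.Coprime (b ^ m) →
    ∀ X : ℝ, Real.exp 1 ≤ X →
    |psiLogAP X (b ^ m) r - psiLog1 X / (Nat.totient (b ^ m) : ℝ)| ≤
      (C₁ * (k + 1) * m) ^ (17 * (k + 1)) * X / Real.log X ^ k + b * Real.log X ^ 2 := by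
  classical
  obtain ⟨C₁, hC₁, hchar⟩ := char_bound hb
  refine ⟨C₁, hC₁, fun k m hm r hr X hX => ?_⟩
  have hne : NeZero (b ^ m) := ⟨by positivity⟩
  have hX1 : 1 ≤ X := by
    have := Real.add_one_le_exp 1
    linarith
  set q := b ^ m with hq
  have hq1 : 1 ≤ q := Nat.one_le_pow _ _ (by omega)
  set E := (q.primeFactors.card : ℝ) * Real.log X ^ 2 with hE
  have hE0 : 0 ≤ E := by positivity
  have hφ : (1:ℝ) ≤ Nat.totient q := by exact_mod_cast Nat.totient_pos.mpr (by omega)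
  have h1 := psiLogAP_char X q r hr
  set F : ℝ := (C₁ * (k + 1) * m) ^ (17 * (k + 1)) * X / Real.log X ^ k with hF
  have h3 : ∑ χ ∈ (univ : Finset (DirichletCharacter ℂ q)).filter (fun χ => χ ≠ 1),
        ‖TL X q χ (fun n => ArithmeticFunction.vonMangoldt n)‖ ≤ Nat.totient q * F := by
    have h31 : ∀ χ ∈ (univ : Finset (DirichletCharacter ℂ q)).filter (fun χ => χ ≠ 1),
        ‖TL X q χ (fun n => ArithmeticFunction.vonMangoldt n)‖ ≤ F := by
      intro χ hχ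
      rw [mem_filter] at hχ
      exact hchar k m hm hne χ hχ.2 X hX
    refine (sum_le_sum h31).trans ?_
    rw [sum_const, nsmul_eq_mul]
    have hF0 : 0 ≤ F := by
      have : 0 ≤ Real.log X := Real.log_nonneg hX1
      have hm0 : (0 : ℝ) ≤ m := Nat.cast_nonneg m
      positivity
    apply mul_le_mul_of_nonneg_right _ hF0
    have h4 := DirichletCharacter.card_eq_totient_of_hasEnoughRootsOfUnity ℂ q
    rw [← h4, Nat.card_eq_fintype_card]
    exact_mod_cast (card_filter_le _ _)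
  -- principal character
  have h5 : psiLog1 X - ∑ n ∈ (Icc 1 ⌊X⌋₊).filter (fun n => n.Coprime q),
        ArithmeticFunction.vonMangoldt n * Real.log (X / n) =
      ∑ n ∈ (Icc 1 ⌊X⌋₊).filter (fun n => ¬ n.Coprime q),
        ArithmeticFunction.vonMangoldt n * Real.log (X / n) := by
    unfold psiLog1
    rw [← sum_filter_add_sum_filter_not (Icc 1 ⌊X⌋₊) (fun n => n.Coprime q)]
    ring
  have h6 := sum_nc X hX1 q hq1
  have h7 : 0 ≤ ∑ n ∈ (Icc 1 ⌊X⌋₊).filter (fun n => ¬ n.Coprime q),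
        ArithmeticFunction.vonMangoldt n * Real.log (X / n) := by
    apply sum_nonneg
    intro n hn
    rw [mem_filter] at hn
    exact mul_nonneg ArithmeticFunction.vonMangoldt_nonneg (log_div_bounds X n hX1 hn.1).1
  set P0 := ∑ n ∈ (Icc 1 ⌊X⌋₊).filter (fun n => n.Coprime q),
        ArithmeticFunction.vonMangoldt n * Real.log (X / n) with hP0
  have h8 : |(1 / (Nat.totient q : ℝ)) * P0 - psiLog1 X / (Nat.totient q : ℝ)| ≤ E := by
    have : (1 / (Nat.totient q : ℝ)) * P0 - psiLog1 X / (Nat.totient q : ℝ) =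
        -((psiLog1 X - P0) / (Nat.totient q : ℝ)) := by ring
    rw [this, abs_neg, h5, abs_of_nonneg (by positivity)]
    rw [div_le_iff₀ (by linarith)]
    calc _ ≤ E := h6
      _ = E * 1 := by ring
      _ ≤ E * (Nat.totient q : ℝ) := mul_le_mul_of_nonneg_left hφ hE0
  have h9 : (1 / (Nat.totient q : ℝ)) *
      ∑ χ ∈ (univ : Finset (DirichletCharacter ℂ q)).filter (fun χ => χ ≠ 1),
        ‖TL X q χ (fun n => ArithmeticFunction.vonMangoldt n)‖ ≤ F := by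
    calc _ ≤ (1 / (Nat.totient q : ℝ)) * (Nat.totient q * F) :=
          mul_le_mul_of_nonneg_left h3 (by positivity)
      _ = _ := by
          have : (Nat.totient q : ℝ) ≠ 0 := by positivity
          field_simp
  have h10 : E ≤ b * Real.log X ^ 2 := by
    rw [hE]
    apply mul_le_mul_of_nonneg_right _ (by positivity)
    rw [hq, Nat.primeFactors_pow _ (by omega)]
    have : b.primeFactors.card ≤ b := by
      have h11 : b.primeFactors ⊆ Icc 1 b := by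
        intro p hp
        rw [mem_Icc]
        exact ⟨(Nat.prime_of_mem_primeFactors hp).one_lt.le, Nat.le_of_mem_primeFactors hp⟩
      have := card_le_card h11
      simpa using this
    exact_mod_cast this
  calc |psiLogAP X q r - psiLog1 X / (Nat.totient q : ℝ)| =
      |(psiLogAP X q r - (1 / (Nat.totient q : ℝ)) * P0) +
        ((1 / (Nat.totient q : ℝ)) * P0 - psiLog1 X / (Nat.totient q : ℝ))| := by
        congr 1; ring
    _ ≤ |psiLogAP X q r - (1 / (Nat.totient q : ℝ)) * P0| +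
        |(1 / (Nat.totient q : ℝ)) * P0 - psiLog1 X / (Nat.totient q : ℝ)| := abs_add_le _ _
    _ ≤ _ := by linarith

end Pool.Agent.V7H99.SY
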