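import Mathlib
import Pool.Agent.V7H99.SY.P3
import Pool.Agent.V7H99.SY.Ev

/-! Primes in the residue classes modulo the powers of a fixed integer (helper99). -/

set_option autoImplicit false

namespace Pool.Agent.V7H99.SY

open Finset
open Pool.Agent.H410R2 Pool.Agent.H398R2.BV H343E

/-- the sum of `Λ` up to `y` -/
noncomputable def psN (y : ℕ) : ℝ := ∑ n ∈ Icc 1 y, ArithmeticFunction.vonMangoldt n

/-- the sum of `Λ` over a class -/
noncomputable def psA (y q r : ℕ) : ℝ := ∑ n ∈ (Icc 1 y).filter (fun n => n ≡ r [MOD q]), ArithmeticFunction.vonMangoldt n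

lemma psN_le (y : ℕ) : psN y ≤ 6 * y := by
  unfold psN
  have h := Chebyshev.psi_le_const_mul_self (x := (y : ℝ)) (Nat.cast_nonneg y)
  rw [Chebyshev.psi_eq_sum_Icc, Nat.floor_natCast] at h
  have h1 : ∑ n ∈ Icc 1 y, (ArithmeticFunction.vonMangoldt n : ℝ) ≤ ∑ n ∈ Icc 0 y, ArithmeticFunction.vonMangoldt n := by
    apply sum_le_sum_of_subset_of_nonneg (Icc_subset_Icc_left (by norm_num))
    intro n _ _
    exact ArithmeticFunction.vonMangoldt_nonneg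
  have hlog4 : Real.log 4 ≤ 2 := by
    have h1 : Real.log 4 = 2 * Real.log 2 := by
      rw [show (4 : ℝ) = 2 ^ 2 by norm_num, Real.log_pow]; push_cast; ring
    have := Real.log_two_lt_d9
    linarith
  have : (0 : ℝ) ≤ y := Nat.cast_nonneg y
  nlinarith

lemma psA_nonneg (y q r : ℕ) : 0 ≤ psA y q r := sum_nonneg fun _ _ => ArithmeticFunction.vonMangoldt_nonneg

lemma psA_le (y q r : ℕ) : psA y q r ≤ psN y := by
  unfold psA psN
  apply sum_le_sum_of_subset_of_nonneg (filter_subset _ _)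
  intro n _ _
  exact ArithmeticFunction.vonMangoldt_nonneg

lemma psN_nonneg (y : ℕ) : 0 ≤ psN y := sum_nonneg fun _ _ => ArithmeticFunction.vonMangoldt_nonneg

/-! numerical lemmas -/

theorem hexp2_aux (A u : ℕ) (hu : 20 ≤ u) : (u / 4) * ((4 * A + 10) * u + 1) + (2 * A + 5) * u ^ 2 ≤ (u - 2) * ((4 * A + 10) * u) := by
  obtain ⟨v, hv⟩ : ∃ v, u = v + 2 := ⟨u - 2, by omega⟩
  have h4 : 4 * (u / 4) ≤ u := Nat.mul_div_le u 4
  have h5 : 4 * ((u / 4) * ((4 * A + 10) * u + 1)) ≤ u * ((4 * A + 10) * u + 1) := by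
    calc 4 * ((u / 4) * ((4 * A + 10) * u + 1)) = (4 * (u / 4)) * ((4 * A + 10) * u + 1) := by ring
      _ ≤ _ := Nat.mul_le_mul_right _ h4
  have h6 : u - 2 = v := by omega
  rw [h6]
  have h7 : 20 ≤ v + 2 := by omega
  have h8 : u * ((4 * A + 10) * u + 1) + 4 * ((2 * A + 5) * u ^ 2) ≤ 4 * (v * ((4 * A + 10) * u)) := by
    rw [hv]
    have h9 : (v + 2) * ((4 * A + 10) * (v + 2) + 1) + 4 * ((2 * A + 5) * (v + 2) ^ 2) =
      (v + 2) * ((12 * A + 30) * (v + 2) + 1) := by ring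
    rw [h9]
    have h10 : 4 * (v * ((4 * A + 10) * (v + 2))) = (v + 2) * ((16 * A + 40) * v) := by ring
    rw [h10]
    apply Nat.mul_le_mul_left
    nlinarith
  omega

theorem tt1 (N T S : ℝ) (A u : ℕ) (hu : 20 ≤ u) (hN0 : 0 < N) (hT : T = 2 ^ (A * u ^ 2)) (hS : S = 2 ^ ((A + 2) * u ^ 2)) :
    S * (3 * (3 * N / 2 ^ ((2 * A + 5) * u ^ 2))) ≤ (N / T) / 4 := by
  have hT0 : 0 < T := by rw [hT]; positivity
  have h1 : S * (3 * (3 * N / 2 ^ ((2 * A + 5) * u ^ 2))) = 9 * N / (2 ^ ((A + 3) * u ^ 2)) := by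
    rw [hS, show (2 * A + 5) * u ^ 2 = (A + 2) * u ^ 2 + (A + 3) * u ^ 2 by ring, pow_add]
    field_simp; norm_num
  rw [h1, div_div, div_le_div_iff₀ (by positivity) (by positivity)]
  calc 9 * N * (T * 4) = N * (36 * T) := by ring
    _ ≤ N * (2 ^ 6 * T) := by gcongr; norm_num
    _ = N * 2 ^ (6 + A * u ^ 2) := by rw [hT, pow_add]
    _ ≤ N * 2 ^ ((A + 3) * u ^ 2) := by
        gcongr
        · norm_num
        · nlinarith

theorem tt2 (N T S b K : ℝ) (A u Kn : ℕ) (hu : 20 ≤ u) (hT : T = 2 ^ (A * u ^ 2)) (hS : S = 2 ^ ((A + 2) * u ^ 2))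
    (hKpow : K ≤ 2 ^ (u + 1)) (hbpow : b ≤ 2 ^ u) (hb0 : 0 < b) (hK0 : 0 ≤ K) (hKu : (100 + 8 * A) * (u + 1) ^ 2 ≤ Kn)
    (hexp : ∀ e : ℕ, e ≤ Kn → (2 : ℝ) ^ e ≤ N) :
    S * (3 * (b ^ 3 * K ^ 2)) ≤ (N / T) / 4 := by
  have hT0 : 0 < T := by rw [hT]; positivity
  have hS0 : 0 < S := by rw [hS]; positivity
  rw [div_div, le_div_iff₀ (by positivity)]
  calc S * (3 * ((b : ℝ) ^ 3 * K ^ 2)) * (T * 4) = 12 * (S * T * ((b : ℝ) ^ 3 * K ^ 2)) := by ring
    _ ≤ 2 ^ 4 * (S * T * ((2 ^ u) ^ 3 * (2 ^ (u + 1)) ^ 2)) := by gcongr; norm_num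
    _ = 2 ^ (4 + ((A + 2) * u ^ 2 + A * u ^ 2) + (u * 3 + (u + 1) * 2)) := by
        rw [hS, hT]
        simp only [← pow_mul, ← pow_add]
        congr 1; ring
    _ ≤ N := by
        apply hexp
        nlinarith

theorem tt3 (N T S b K y η : ℝ) (A u : ℕ) (hu : 20 ≤ u) (hN0 : 0 < N) (hT : T = 2 ^ (A * u ^ 2)) (hS : S = 2 ^ ((A + 2) * u ^ 2))
    (hKpow : K ≤ 2 ^ (u + 1)) (hbpow : b ≤ 2 ^ u) (hb0 : 0 < b) (hK0 : 0 ≤ K) (hy0 : 0 < y) (hyN : y ≤ N) (hη : η = 1 / S)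
    (hu2' : 20 * u ≤ u ^ 2) :
    3 * η * y * (K * b) ≤ (N / T) / 4 := by
  have hT0 : 0 < T := by rw [hT]; positivity
  have hS0 : 0 < S := by rw [hS]; positivity
  rw [div_div, le_div_iff₀ (by positivity)]
  calc 3 * η * y * (K * b) * (T * 4) = 12 * (y * (K * b) * T) / S := by rw [hη]; field_simp; ring
    _ ≤ 2 ^ 4 * (N * (2 ^ (u + 1) * 2 ^ u) * T) / S := by gcongr; norm_num
    _ ≤ N := by
        rw [div_le_iff₀ hS0]
        calc 2 ^ 4 * (N * (2 ^ (u + 1) * 2 ^ u) * T) = N * 2 ^ (4 + (u + 1 + u) + A * u ^ 2) := by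
              rw [hT, pow_add, pow_add, pow_add]; ring
          _ ≤ N * S := by
              rw [hS]
              gcongr
              · norm_num
              · nlinarith

theorem tt4 (N T b K : ℝ) (A u Kn : ℕ) (hu : 20 ≤ u) (hT : T = 2 ^ (A * u ^ 2))
    (hKpow : K ≤ 2 ^ (u + 1)) (hbpow : b ≤ 2 ^ u) (hb0 : 0 < b) (hKu : (100 + 8 * A) * (u + 1) ^ 2 ≤ Kn)
    (hexp : ∀ e : ℕ, e ≤ Kn → (2 : ℝ) ^ e ≤ N) :
    1 * (K * b) ≤ (N / T) / 4 := by
  have hT0 : 0 < T := by rw [hT]; positivity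
  rw [div_div, le_div_iff₀ (by positivity)]
  calc 1 * ((K : ℝ) * b) * (T * 4) ≤ 1 * (2 ^ (u + 1) * 2 ^ u) * (T * 2 ^ 2) := by gcongr; norm_num
    _ = 2 ^ (u + 1 + u + A * u ^ 2 + 2) := by rw [hT]; simp only [pow_add]; ring
    _ ≤ N := by
        apply hexp
        nlinarith

theorem nn1 (A u K : ℕ) (hKu : (100 + 8 * A) * (u + 1) ^ 2 ≤ K) : 6 + 2 * (A * u ^ 2) ≤ K := by
  have h1 : A * u ^ 2 ≤ A * (u + 1) ^ 2 := Nat.mul_le_mul_left _ (Nat.pow_le_pow_left (by omega) 2)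
  have h2 : 1 ≤ (u + 1) ^ 2 := Nat.one_le_pow _ _ (by omega)
  have h3 : (100 + 8 * A) * (u + 1) ^ 2 = 100 * (u + 1) ^ 2 + 8 * (A * (u + 1) ^ 2) := by ring
  omega

theorem nn2 (y N : ℝ) (h0 : 0 ≤ y) (hN : 1 ≤ N) (h : N < y ^ 2) : 1 ≤ y := by
  by_contra hc
  push Not at hc
  nlinarith

theorem nn3 (K l l2 s : ℝ) (hK : 100 ≤ K) (h2 : 0.6931471803 < l2) (hl : K / 2 * l2 ≤ l) (hs : -1 ≤ s) : K / 4 ≤ l + s := by nlinarith

theorem nn4 (K b l s : ℝ) (hK : 100 ≤ K) (hl : l ≤ K * (b - 1)) (hs : s ≤ 1) : l + s ≤ K * b := by nlinarith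

theorem nn5 (D u : ℝ) (hD : 0 ≤ D) (hu : 0 ≤ u) : D * u + 1 ≤ (D + 1) * (u + 1) := by nlinarith

theorem nn6 (a φ c : ℝ) (hφ : 1 ≤ φ) (hc : 0 ≤ c) (h : a ≤ c) : a ≤ c * φ := by nlinarith

/-- classes modulo the powers of `b` -/
theorem ap_small {b : ℕ} (hb : 2 ≤ b) (A B : ℕ) : ∃ K0 : ℕ, ∀ K : ℕ, K0 ≤ K → ∀ m : ℕ, 1 ≤ m →
    m ≤ B * (Nat.log 2 K) ^ 2 → ∀ r : ℕ, r.Coprime (b ^ m) → ∀ y : ℕ, y ≤ b ^ K →
    |psA y (b ^ m) r - psN y / (Nat.totient (b ^ m) : ℝ)| ≤ (b : ℝ) ^ K / 2 ^ (A * (Nat.log 2 K) ^ 2) := by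
  obtain ⟨C₁, hC₁, hE⟩ := log_ap hb
  have hb0 : (0 : ℝ) < b := by exact_mod_cast (by omega : 0 < b)
  have hb1 : (1 : ℝ) ≤ b := by exact_mod_cast (by omega : 1 ≤ b)
  have hb2 : (2 : ℝ) ≤ b := by exact_mod_cast hb
  -- derivative order `k = D u`
  set D : ℕ := 4 * A + 10 with hD
  obtain ⟨U1, hU1⟩ := ev_pow4 ((C₁ * (D + 1) * B) ^ 17) 51
  obtain ⟨K1, hK1⟩ := ev_ge (max U1 (b + 20))
  obtain ⟨K2, hK2⟩ := ev_log (100 + 8 * A) 2
  refine ⟨max (max K1 K2) 100, fun K hK m hm hmB r hr y hy => ?_⟩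
  have hKa : K1 ≤ K := le_trans (le_trans (le_max_left _ _) (le_max_left _ _)) hK
  have hKb : K2 ≤ K := le_trans (le_trans (le_max_right _ _) (le_max_left _ _)) hK
  have hK100 : 100 ≤ K := le_trans (le_max_right _ _) hK
  set u := Nat.log 2 K with hu
  have huU : U1 ≤ u := le_trans (le_max_left _ _) (hK1 K hKa)
  have hub : b + 20 ≤ u := le_trans (le_max_right _ _) (hK1 K hKa)
  have hKu : (100 + 8 * A) * (u + 1) ^ 2 ≤ K := hK2 K hKb
  have hK2u : K < 2 ^ (u + 1) := Nat.lt_pow_succ_log_self (by norm_num) _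
  have h2uK : 2 ^ u ≤ K := Nat.pow_log_le_self 2 (by omega)
  have hKr : (100 : ℝ) ≤ K := by exact_mod_cast hK100
  set q := b ^ m with hq
  have hφ : (1:ℝ) ≤ Nat.totient q := by
    exact_mod_cast Nat.totient_pos.mpr (Nat.pos_of_ne_zero (by positivity))
  set T : ℝ := 2 ^ (A * u ^ 2) with hT
  have hT0 : 0 < T := by positivity
  have hbK2 : (2 : ℝ) ^ K ≤ (b : ℝ) ^ K := pow_le_pow_left₀ (by norm_num) hb2 _
  set N : ℝ := (b : ℝ) ^ K with hN
  have hN0 : 0 < N := by positivity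
  have hyN : (y : ℝ) ≤ N := by rw [hN]; exact_mod_cast hy
  -- the trivial range
  have hexp : ∀ e : ℕ, e ≤ K → (2 : ℝ) ^ e ≤ N := fun e he => (pow_le_pow_right₀ (by norm_num) he).trans hbK2
  rcases le_or_gt (y ^ 2) (b ^ K) with hsmall | hbig
  · have h1 : |psA y q r - psN y / (Nat.totient q : ℝ)| ≤ 6 * y := by
      have a1 := psA_nonneg y q r
      have a2 := psA_le y q r
      have a3 := psN_le y
      have a4 := psN_nonneg y
      have a5 : 0 ≤ psN y / (Nat.totient q : ℝ) := by positivity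
      have a6 : psN y / (Nat.totient q : ℝ) ≤ psN y := div_le_self a4 hφ
      rw [abs_le]
      constructor <;> linarith
    refine h1.trans ?_
    rw [le_div_iff₀ hT0]
    have h2 : (y : ℝ) ^ 2 ≤ N := by rw [hN]; exact_mod_cast hsmall
    have h3 : (6 * T) ^ 2 ≤ N := by
      calc (6 * T) ^ 2 ≤ (2 ^ 3 * T) ^ 2 := by gcongr; norm_num
        _ = 2 ^ (6 + 2 * (A * u ^ 2)) := by rw [hT, pow_add, mul_pow, ← pow_mul, ← pow_mul]; ring
        _ ≤ N := hexp _ (nn1 A u K hKu)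
    have h4 : (6 * y * T) ^ 2 ≤ N ^ 2 := by
      calc (6 * y * T) ^ 2 = (y : ℝ) ^ 2 * (6 * T) ^ 2 := by ring
        _ ≤ N * N := by gcongr
        _ = N ^ 2 := by ring
    exact le_of_sq_le_sq h4 hN0.le
  -- the main range
  set k := D * u with hk
  set S : ℝ := 2 ^ ((A + 2) * u ^ 2) with hS
  have hS0 : 0 < S := by positivity
  have hS1 : 1 ≤ S := one_le_pow₀ (by norm_num)
  set η : ℝ := 1 / S with hη
  have hη0 : 0 < η := by positivity
  have hη1 : η ≤ 1 := by rw [hη, div_le_one hS0]; exact hS1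
  have hybig : N < (y : ℝ) ^ 2 := by rw [hN]; exact_mod_cast hbig
  have hy1 : (1 : ℝ) ≤ y := nn2 y N (Nat.cast_nonneg y) (one_le_pow₀ hb1) hybig
  have hy0 : (0 : ℝ) < y := by linarith
  have hlogy : (K : ℝ) / 2 * Real.log 2 ≤ Real.log y := by
    have h1 := Real.log_le_log hN0 hybig.le
    rw [hN, Real.log_pow, Real.log_pow] at h1
    have h2 : Real.log 2 ≤ Real.log b := Real.log_le_log (by norm_num) hb2
    have h3 : (K : ℝ) * Real.log 2 ≤ K * Real.log b := by gcongr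
    push_cast at h1
    linarith
  have hlogy2 : Real.log y ≤ K * (b - 1) := by
    have h1 := Real.log_le_log hy0 hyN
    rw [hN, Real.log_pow] at h1
    have h2 : Real.log b ≤ b - 1 := Real.log_le_sub_one_of_pos hb0
    have h3 : (K : ℝ) * Real.log b ≤ K * (b - 1) := by gcongr
    linarith
  -- the bound for the logarithmic sums
  set R : ℝ := 3 * N / 2 ^ ((2 * A + 5) * u ^ 2) + (b : ℝ) ^ 3 * K ^ 2 with hR
  have hRX : ∀ s : ℝ, -1 ≤ s → s ≤ 1 →
      |psiLogAP ((y : ℝ) * Real.exp s) q r - psiLog1 ((y : ℝ) * Real.exp s) / (Nat.totient q : ℝ)| ≤ R := by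
    intro s hs1 hs2
    set X : ℝ := (y : ℝ) * Real.exp s with hX
    have hX0 : 0 < X := by positivity
    have hlogX : Real.log X = Real.log y + s := by
      rw [hX, Real.log_mul hy0.ne' (Real.exp_pos s).ne', Real.log_exp]
    have hlX1 : (K : ℝ) / 4 ≤ Real.log X := by
      rw [hlogX]
      exact nn3 K _ _ s hKr Real.log_two_gt_d9 hlogy hs1
    have hlX2 : Real.log X ≤ K * b := by rw [hlogX]; exact nn4 K b _ s hKr hlogy2 hs2
    have hXe : Real.exp 1 ≤ X := by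
      rw [← Real.le_log_iff_exp_le hX0]; linarith
    have hXN : X ≤ 3 * N := by
      rw [hX]
      have h1 : Real.exp s ≤ 3 := by
        have := Real.exp_le_exp.2 hs2
        have := Real.exp_one_lt_d9
        linarith
      calc (y : ℝ) * Real.exp s ≤ N * 3 := by gcongr
        _ = 3 * N := by ring
    refine (hE k m hm r hr X hXe).trans ?_
    have hP : (C₁ * (k + 1) * m) ^ 17 ≤ 2 ^ (u / 4) := by
      refine le_trans ?_ (hU1 u huU)
      have h1 : (k : ℝ) + 1 ≤ (D + 1) * (u + 1) := by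
        rw [hk]; push_cast
        exact nn5 D u (Nat.cast_nonneg D) (Nat.cast_nonneg u)
      have h2 : (m : ℝ) ≤ B * (u + 1) ^ 2 := by
        have h3 : (m : ℝ) ≤ B * (u : ℝ) ^ 2 := by exact_mod_cast hmB
        refine h3.trans ?_
        gcongr
        linarith
      calc (C₁ * ((k : ℝ) + 1) * m) ^ 17 ≤ (C₁ * ((D + 1) * (u + 1)) * (B * (u + 1) ^ 2)) ^ 17 := by gcongr
        _ = (C₁ * (D + 1) * B * (u + 1) ^ 3) ^ 17 := by congr 1; ring
        _ = (C₁ * (D + 1) * B) ^ 17 * ((u : ℝ) + 1) ^ 51 := by rw [mul_pow, ← pow_mul]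
    have hP2 : (C₁ * (k + 1) * m) ^ (17 * (k + 1)) ≤ 2 ^ ((u / 4) * (k + 1)) := by
      rw [pow_mul, pow_mul]
      gcongr
    have hlk : (2 : ℝ) ^ ((u - 2) * k) ≤ Real.log X ^ k := by
      rw [pow_mul]
      apply pow_le_pow_left₀ (by positivity)
      refine le_trans ?_ hlX1
      have h1 : (2 : ℝ) ^ u ≤ K := by exact_mod_cast h2uK
      have h2 : (2 : ℝ) ^ u = 2 ^ (u - 2) * 4 := by
        conv_lhs => rw [show u = u - 2 + 2 by omega, pow_add]
        norm_num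
      rw [h2] at h1
      linarith
    have hexp2 : (2 : ℝ) ^ ((u / 4) * (k + 1)) * 2 ^ ((2 * A + 5) * u ^ 2) ≤ 2 ^ ((u - 2) * k) := by
      rw [← pow_add]
      apply pow_le_pow_right₀ (by norm_num)
      rw [hk, hD]
      exact hexp2_aux A u (by omega)
    rw [hR]
    apply add_le_add
    · calc (C₁ * (k + 1) * m) ^ (17 * (k + 1)) * X / Real.log X ^ k
          ≤ 2 ^ ((u / 4) * (k + 1)) * (3 * N) / 2 ^ ((u - 2) * k) := by
            gcongr
        _ ≤ 3 * N / 2 ^ ((2 * A + 5) * u ^ 2) := by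
            rw [div_le_div_iff₀ (by positivity) (by positivity)]
            calc 2 ^ (u / 4 * (k + 1)) * (3 * N) * 2 ^ ((2 * A + 5) * u ^ 2) =
                (2 ^ (u / 4 * (k + 1)) * 2 ^ ((2 * A + 5) * u ^ 2)) * (3 * N) := by ring
              _ ≤ 2 ^ ((u - 2) * k) * (3 * N) := by gcongr
              _ = _ := by ring
    · have h0 : 0 ≤ Real.log X := by linarith
      calc (b : ℝ) * Real.log X ^ 2 ≤ b * (K * b) ^ 2 := by gcongr
        _ = _ := by ring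
  have hun := unsmooth_point (x := (y : ℝ)) hy0 hη0 q r
  have hsh := psi1_short (x := (y : ℝ)) hy1 hη0 hη1
  have e1 : psiAP (y : ℝ) q r = psA y q r := by unfold psiAP psA; rw [Nat.floor_natCast]
  have e2 : psi1 (y : ℝ) = psN y := by unfold psi1 psN; rw [Nat.floor_natCast]
  rw [e1, e2] at hun
  have hE1 := hRX η (by linarith) hη1
  have hE2 := hRX 0 (by norm_num) (by norm_num)
  rw [Real.exp_zero, mul_one] at hE2
  have hE3 := hRX (-η) (by linarith) (by linarith)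
  have hmono : psi1 ((y : ℝ) * Real.exp η) - psi1 ((y : ℝ) * Real.exp (-η)) ≤ (3 * η * y + 1) * (K * b) := by
    refine hsh.trans ?_
    gcongr
    exact nn4 K b _ 1 hKr hlogy2 le_rfl
  have hsh0 : 0 ≤ (3 * η * y + 1) * (K * b) := by positivity
  have hdiv : (psi1 ((y : ℝ) * Real.exp η) - psi1 ((y : ℝ) * Real.exp (-η))) / (Nat.totient q : ℝ) ≤ (3 * η * y + 1) * (K * b) := by
    rw [div_le_iff₀ (by linarith)]
    exact nn6 _ _ _ hφ hsh0 hmono
  refine hun.trans ?_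
  have hη' : 1 / η = S := by rw [hη, one_div_one_div]
  rw [hη']
  have hfin1 : S * (|psiLogAP ((y : ℝ) * Real.exp η) q r - psiLog1 ((y : ℝ) * Real.exp η) / (Nat.totient q : ℝ)| +
      |psiLogAP (y : ℝ) q r - psiLog1 (y : ℝ) / (Nat.totient q : ℝ)| +
      |psiLogAP ((y : ℝ) * Real.exp (-η)) q r - psiLog1 ((y : ℝ) * Real.exp (-η)) / (Nat.totient q : ℝ)|) ≤ S * (3 * R) := by
    gcongr
    linarith
  -- the four terms
  have hKpow : (K : ℝ) ≤ 2 ^ (u + 1) := by exact_mod_cast hK2u.le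
  have hbpow : (b : ℝ) ≤ 2 ^ u := by
    have : b ≤ 2 ^ u := by
      calc b ≤ 2 ^ b := Nat.lt_two_pow_self.le
        _ ≤ 2 ^ u := Nat.pow_le_pow_right (by norm_num) (by omega)
    exact_mod_cast this
  have hu2' : 20 * u ≤ u ^ 2 := by rw [sq]; exact Nat.mul_le_mul_right _ (by omega)
  have t1 : S * (3 * (3 * N / 2 ^ ((2 * A + 5) * u ^ 2))) ≤ (N / T) / 4 := tt1 N T S A u (by omega) hN0 hT hS
  have t2 : S * (3 * ((b : ℝ) ^ 3 * K ^ 2)) ≤ (N / T) / 4 :=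
    tt2 N T S b K A u K (by omega) hT hS hKpow hbpow hb0 (Nat.cast_nonneg K) hKu hexp
  have t3 : 3 * η * y * (K * b) ≤ (N / T) / 4 :=
    tt3 N T S b K y η A u (by omega) hN0 hT hS hKpow hbpow hb0 (Nat.cast_nonneg K) hy0 hyN hη hu2'
  have t4 : 1 * ((K : ℝ) * b) ≤ (N / T) / 4 :=
    tt4 N T b K A u K (by omega) hT hKpow hbpow hb0 hKu hexp
  have hsum : S * (3 * R) = S * (3 * (3 * N / 2 ^ ((2 * A + 5) * u ^ 2))) + S * (3 * ((b : ℝ) ^ 3 * K ^ 2)) := by rw [hR]; ring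
  have hsum2 : (3 * η * y + 1) * (K * b) = 3 * η * y * (K * b) + 1 * ((K : ℝ) * b) := by ring
  calc _ ≤ S * (3 * R) + (3 * η * y + 1) * (K * b) := add_le_add hfin1 hdiv
    _ ≤ N / T := by rw [hsum, hsum2]; linarith

end Pool.Agent.V7H99.SY
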