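import Mathlib
import Pool.Agent.V7H99.SY.P4
import Pool.Agent.V7H99.SY.B

/-! The model for the primes and its cell sums (helper99). -/

set_option autoImplicit false

namespace Pool.Agent.V7H99.SY
open Finset

/-- the primes, with logarithmic weights -/
noncomputable def th (n : ℕ) : ℝ := if n.Prime then Real.log n else 0

/-- the sum of `Λ` over the `c`-th interval of length `L` -/
noncomputable def Ps (L c : ℕ) : ℝ := ∑ n ∈ Ico (c * L) ((c + 1) * L), ArithmeticFunction.vonMangoldt n

/-- the model -/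
noncomputable def g1 (b k m n : ℕ) : ℝ :=
  if n.Coprime b ∧ b ^ (k - 1) ≤ n then ((b : ℝ) / (Nat.totient b : ℝ)) * (Ps (b ^ (k - m)) (n / b ^ (k - m)) / (b : ℝ) ^ (k - m)) else 0

/-- the difference -/
noncomputable def g0 (b k m n : ℕ) : ℝ := (if b ^ (k - 1) ≤ n then th n else 0) - g1 b k m n

lemma th_nonneg (n : ℕ) : 0 ≤ th n := by
  unfold th
  split_ifs
  · exact Real.log_natCast_nonneg n
  · exact le_rfl

lemma th_le (n : ℕ) : th n ≤ ArithmeticFunction.vonMangoldt n := by
  unfold th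
  split_ifs with h
  · rw [ArithmeticFunction.vonMangoldt_apply_prime h]
  · exact ArithmeticFunction.vonMangoldt_nonneg

/-- prime powers are few -/
lemma lam_th {N : ℕ} (hN : 1 ≤ N) : ∑ n ∈ range N, (ArithmeticFunction.vonMangoldt n - th n) ≤ 2 * √(N : ℝ) * Real.log N := by
  have h := Chebyshev.psi_sub_theta_le (x := (N : ℝ)) (by exact_mod_cast hN)
  refine le_trans ?_ h
  rw [Chebyshev.psi_eq_sum_Icc, Chebyshev.theta_eq_sum_Icc, Nat.floor_natCast, sum_filter, ← sum_sub_distrib]
  have h1 : ∑ n ∈ Icc 0 N, (ArithmeticFunction.vonMangoldt n - if n.Prime then Real.log n else 0) =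
      ∑ n ∈ Icc 0 N, (ArithmeticFunction.vonMangoldt n - th n) := rfl
  rw [h1]
  apply sum_le_sum_of_subset_of_nonneg
  · intro n hn
    rw [mem_range] at hn
    rw [mem_Icc]; omega
  · intro n _ _
    have := th_le n
    linarith

lemma log_pow_le {b k n : ℕ} (hb : 2 ≤ b) (hn : n ≤ b ^ k) : Real.log n ≤ b * k := by
  have hb0 : (0 : ℝ) < b := by exact_mod_cast (by omega : 0 < b)
  rcases Nat.eq_zero_or_pos n with rfl | h
  · rw [Nat.cast_zero, Real.log_zero]; positivity
  have h1 : Real.log n ≤ Real.log ((b ^ k : ℕ) : ℝ) := Real.log_le_log (by exact_mod_cast h) (by exact_mod_cast hn)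
  rw [Nat.cast_pow, Real.log_pow] at h1
  have h2 : Real.log b ≤ b := (Real.log_le_sub_one_of_pos hb0).trans (by linarith)
  calc Real.log n ≤ k * Real.log b := h1
    _ ≤ k * b := by gcongr
    _ = b * k := mul_comm _ _

lemma Ps_nonneg (L c : ℕ) : 0 ≤ Ps L c := sum_nonneg fun _ _ => ArithmeticFunction.vonMangoldt_nonneg

lemma Ps_le {b k L c : ℕ} (hb : 2 ≤ b) (hc : (c + 1) * L ≤ b ^ k) : Ps L c ≤ L * (b * k) := by
  unfold Ps
  have h1 : ∀ n ∈ Ico (c * L) ((c + 1) * L), (ArithmeticFunction.vonMangoldt n : ℝ) ≤ b * k := by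
    intro n hn
    rw [mem_Ico] at hn
    exact ArithmeticFunction.vonMangoldt_le_log.trans (log_pow_le hb (hn.2.le.trans hc))
  refine (sum_le_sum h1).trans ?_
  rw [sum_const, Nat.card_Ico, nsmul_eq_mul]
  have : (c + 1) * L - c * L = L := by rw [add_mul, one_mul]; omega
  rw [this]

/-- the size of the difference -/
theorem g0_abs {b k m n : ℕ} (hb : 2 ≤ b) (hm : m ≤ k) (hn : n < b ^ k) : |g0 b k m n| ≤ 2 * b ^ 2 * k := by
  have hb0 : (0 : ℝ) < b := by exact_mod_cast (by omega : 0 < b)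
  have hb1 : (1 : ℝ) ≤ b := by exact_mod_cast (by omega : 1 ≤ b)
  have hφ : (1 : ℝ) ≤ (Nat.totient b : ℝ) := by exact_mod_cast Nat.totient_pos.2 (by omega)
  have hL0 : 0 < b ^ (k - m) := by positivity
  have h1 : (n / b ^ (k - m) + 1) * b ^ (k - m) ≤ b ^ k := by
    have h2 : n / b ^ (k - m) < b ^ m := by
      rw [Nat.div_lt_iff_lt_mul hL0, ← pow_add]
      rwa [Nat.add_sub_cancel' hm]
    calc (n / b ^ (k - m) + 1) * b ^ (k - m) ≤ b ^ m * b ^ (k - m) := Nat.mul_le_mul_right _ h2
      _ = b ^ k := by rw [← pow_add, Nat.add_sub_cancel' hm]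
  have h3 := Ps_le hb h1
  have h4 := Ps_nonneg (b ^ (k - m)) (n / b ^ (k - m))
  have hk0 : (0 : ℝ) ≤ b * k := by positivity
  have h5 : 0 ≤ g1 b k m n := by unfold g1; split_ifs <;> positivity
  have h6 : g1 b k m n ≤ b ^ 2 * k := by
    unfold g1
    split_ifs
    · have h7 : Ps (b ^ (k - m)) (n / b ^ (k - m)) / (b : ℝ) ^ (k - m) ≤ b * k := by
        rw [div_le_iff₀ (by positivity)]
        push_cast at h3
        linarith
      have h8 : (b : ℝ) / (Nat.totient b : ℝ) ≤ b := div_le_self hb0.le hφ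
      calc (b : ℝ) / (Nat.totient b : ℝ) * (Ps (b ^ (k - m)) (n / b ^ (k - m)) / (b : ℝ) ^ (k - m)) ≤ b * (b * k) := by
            gcongr
        _ = _ := by ring
    · positivity
  have h7 : 0 ≤ (if b ^ (k - 1) ≤ n then th n else 0) := by split_ifs; exacts [th_nonneg n, le_rfl]
  have h8 : (if b ^ (k - 1) ≤ n then th n else 0) ≤ (b : ℝ) * k := by
    split_ifs
    · exact (th_le n).trans (ArithmeticFunction.vonMangoldt_le_log.trans (log_pow_le hb hn.le))
    · exact hk0
  have h9 : (b : ℝ) * k ≤ b ^ 2 * k := by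
    have : (0 : ℝ) ≤ k := Nat.cast_nonneg k
    rw [sq, mul_assoc]
    exact le_mul_of_one_le_left hk0 hb1
  unfold g0
  rw [abs_le]
  constructor <;> nlinarith

/-- the size of a cell -/
lemma cell_card {q L c r : ℕ} (hr : r < q) (hqL : q ∣ L) :
    ((Ico (c * L) ((c + 1) * L)).filter (fun n => n % q = r)).card = L / q := by
  have hq : 0 < q := by omega
  obtain ⟨t, rfl⟩ := hqL
  rw [Nat.mul_div_cancel_left _ hq]
  refine Eq.trans (Eq.symm ?_) (card_range t)
  apply card_bij (fun s _ => c * (q * t) + r + q * s)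
  · intro s hs
    rw [mem_range] at hs
    rw [mem_filter, mem_Ico]
    refine ⟨⟨by omega, ?_⟩, ?_⟩
    · have : q * (s + 1) ≤ q * t := Nat.mul_le_mul_left _ hs
      rw [mul_add, mul_one] at this
      rw [add_mul, one_mul]
      omega
    · have e1 : c * (q * t) + r + q * s = r + q * (c * t + s) := by ring
      rw [e1, Nat.add_mul_mod_self_left, Nat.mod_eq_of_lt hr]
  · intro s _ s' _ h
    have : q * s = q * s' := by omega
    exact Nat.eq_of_mul_eq_mul_left hq this
  · intro n hn
    rw [mem_filter, mem_Ico] at hn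
    obtain ⟨⟨h1, h2⟩, h3⟩ := hn
    refine ⟨(n - c * (q * t)) / q, ?_, ?_⟩
    · rw [mem_range, Nat.div_lt_iff_lt_mul hq]
      rw [add_mul, one_mul] at h2
      have : t * q = q * t := mul_comm _ _
      omega
    · have h4 : (n - c * (q * t)) % q = r := by
        have h5 : n = (n - c * (q * t)) + q * (c * t) := by
          have : q * (c * t) = c * (q * t) := by ring
          omega
        rw [h5, Nat.add_mul_mod_self_left] at h3
        exact h3
      have h6 := Nat.div_add_mod (n - c * (q * t)) q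
      rw [h4] at h6
      omega

/-- the cell sums -/
theorem cell_eq {b k m r c : ℕ} (hb : 2 ≤ b) (hm : 1 ≤ m) (hmk : 2 * m ≤ k) (hk : 3 ≤ k) (hr : r < b ^ m) (hc : c < b ^ m)
    (hc1 : b ^ (m - 1) ≤ c) :
    ∑ n ∈ (range (b ^ k)).filter (fun n => n % b ^ m = r ∧ n / b ^ (k - m) = c), g0 b k m n =
      (if r.Coprime b then
        ((psA ((c + 1) * b ^ (k - m) - 1) (b ^ m) r - psN ((c + 1) * b ^ (k - m) - 1) / (Nat.totient (b ^ m) : ℝ)) -
          (psA (c * b ^ (k - m) - 1) (b ^ m) r - psN (c * b ^ (k - m) - 1) / (Nat.totient (b ^ m) : ℝ))) -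
          ∑ n ∈ (Ico (c * b ^ (k - m)) ((c + 1) * b ^ (k - m))).filter (fun n => n % b ^ m = r),
            (ArithmeticFunction.vonMangoldt n - th n)
      else 0) := by
  have hb0 : (0 : ℝ) < b := by exact_mod_cast (by omega : 0 < b)
  have hφ : (1 : ℝ) ≤ (Nat.totient b : ℝ) := by exact_mod_cast Nat.totient_pos.2 (by omega)
  set L := b ^ (k - m) with hL
  set q := b ^ m with hq
  have hL0 : 0 < L := by positivity
  have hq0 : 0 < q := by positivity
  have hqL : q * L = b ^ k := by rw [hq, hL, ← pow_add]; congr 1; omega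
  have hset : (range (b ^ k)).filter (fun n => n % q = r ∧ n / L = c) = (Ico (c * L) ((c + 1) * L)).filter (fun n => n % q = r) := by
    ext n
    rw [mem_filter, mem_filter, mem_range, mem_Ico]
    constructor
    · rintro ⟨h1, h2, h3⟩
      refine ⟨⟨?_, ?_⟩, h2⟩
      · rw [← h3]; exact Nat.div_mul_le_self n L
      · rw [← h3]; have := Nat.lt_div_mul_add (a := n) hL0
        rw [add_mul, one_mul]; exact this
    · rintro ⟨⟨h1, h2⟩, h3⟩
      refine ⟨?_, h3, ?_⟩
      · calc n < (c + 1) * L := h2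
          _ ≤ q * L := Nat.mul_le_mul_right _ hc
          _ = b ^ k := hqL
      · exact Nat.div_eq_of_lt_le h1 h2
  rw [hset]
  have hbk : b ^ (k - 1) ≤ c * L := by
    calc b ^ (k - 1) = b ^ (m - 1) * L := by rw [hL, ← pow_add]; congr 1; omega
      _ ≤ c * L := Nat.mul_le_mul_right _ hc1
  have hbig : ∀ n ∈ (Ico (c * L) ((c + 1) * L)).filter (fun n => n % q = r), b ^ (k - 1) ≤ n := by
    intro n hn
    rw [mem_filter, mem_Ico] at hn
    exact hbk.trans hn.1.1
  have hcop : ∀ n ∈ (Ico (c * L) ((c + 1) * L)).filter (fun n => n % q = r), (n.Coprime b ↔ r.Coprime b) := by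
    intro n hn
    rw [mem_filter] at hn
    have h1 : b ∣ q := dvd_pow_self b (by omega)
    have h2 : n % b = r % b := by
      rw [← hn.2, Nat.mod_mod_of_dvd _ h1]
    rw [Nat.coprime_iff_gcd_eq_one, Nat.coprime_iff_gcd_eq_one, Nat.gcd_comm n b, Nat.gcd_comm r b,
      Nat.gcd_rec b n, Nat.gcd_rec b r, h2]
  split_ifs with hcr
  · -- coprime class
    have hlo : 1 ≤ c * L := le_trans (Nat.one_le_pow _ _ (by omega)) hbk
    have hhi : c * L ≤ (c + 1) * L := Nat.mul_le_mul_right _ (by omega)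
    have e1 : ∀ n ∈ (Ico (c * L) ((c + 1) * L)).filter (fun n => n % q = r), g0 b k m n =
        ArithmeticFunction.vonMangoldt n - (ArithmeticFunction.vonMangoldt n - th n) -
          ((b : ℝ) / (Nat.totient b : ℝ)) * (Ps L c / (b : ℝ) ^ (k - m)) := by
      intro n hn
      have h1 := hbig n hn
      have h2 := (hcop n hn).2 hcr
      rw [mem_filter, mem_Ico] at hn
      have h3 : n / L = c := Nat.div_eq_of_lt_le hn.1.1 hn.1.2
      unfold g0 g1
      rw [if_pos h1, if_pos ⟨h2, h1⟩, ← hL, h3]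
      ring
    rw [sum_congr rfl e1, sum_sub_distrib, sum_sub_distrib, sum_const, cell_card hr (by
      rw [hL, hq]; exact pow_dvd_pow b (by omega)), nsmul_eq_mul]
    have hIcc : ∀ f : ℕ → ℝ, ∑ n ∈ Icc 1 ((c + 1) * L - 1), f n = ∑ n ∈ Icc 1 (c * L - 1), f n + ∑ n ∈ Ico (c * L) ((c + 1) * L), f n := by
      intro f
      have a1 : Icc 1 ((c + 1) * L - 1) = Ico 1 ((c + 1) * L) := by ext n; rw [mem_Icc, mem_Ico]; omega
      have a2 : Icc 1 (c * L - 1) = Ico 1 (c * L) := by ext n; rw [mem_Icc, mem_Ico]; omega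
      rw [a1, a2, sum_Ico_consecutive _ hlo hhi]
    have e2 : Ps L c = psN ((c + 1) * L - 1) - psN (c * L - 1) := by
      unfold Ps psN
      rw [hIcc]; ring
    have e3 : ∑ n ∈ (Ico (c * L) ((c + 1) * L)).filter (fun n => n % q = r), (ArithmeticFunction.vonMangoldt n : ℝ) =
        psA ((c + 1) * L - 1) q r - psA (c * L - 1) q r := by
      unfold psA
      have hmod : ∀ n : ℕ, (n ≡ r [MOD q]) ↔ n % q = r := by
        intro n
        unfold Nat.ModEq
        rw [Nat.mod_eq_of_lt hr]
      simp only [hmod]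
      rw [sum_filter, sum_filter, sum_filter, hIcc]
      ring
    have htot : (Nat.totient q : ℝ) = (b : ℝ) ^ (m - 1) * Nat.totient b := by
      obtain ⟨j, rfl⟩ : ∃ j, m = j + 1 := ⟨m - 1, by omega⟩
      rw [hq, Nat.add_sub_cancel]
      have : Nat.totient (b ^ (j + 1)) = b ^ j * Nat.totient b := by
        clear * - hb
        induction j with
        | zero => simp
        | succ j ih =>
          have h1 := Nat.totient_gcd_mul_totient_mul b (b ^ (j + 1))
          have h2 : b.gcd (b ^ (j + 1)) = b := Nat.gcd_eq_left (dvd_pow_self b (by omega))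
          rw [h2, ← pow_succ'] at h1
          have h3 : 0 < Nat.totient b := Nat.totient_pos.2 (by omega)
          apply Nat.eq_of_mul_eq_mul_left h3
          rw [h1, ih]; ring
      exact_mod_cast this
    rw [e3, e2, htot]
    have hLq : ((L / q : ℕ) : ℝ) = (b : ℝ) ^ (k - m) / (b : ℝ) ^ m := by
      rw [Nat.cast_div (by rw [hL, hq]; exact pow_dvd_pow b (by omega)) (by positivity)]
      rw [hL, hq]; push_cast; rfl
    rw [hLq]
    have hbm : (b : ℝ) ^ m = (b : ℝ) ^ (m - 1) * b := by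
      rw [← pow_succ]; congr 1; omega
    rw [hbm]
    field_simp
    ring
  · apply sum_eq_zero
    intro n hn
    have h1 := hbig n hn
    have h2 : ¬ n.Coprime b := fun h => hcr ((hcop n hn).1 h)
    have h3 : ¬ n.Prime := by
      intro hp
      have h4 : n ∣ b := by
        rcases (Nat.Prime.coprime_iff_not_dvd hp).not_left.1 h2 with h5
        exact h5
      have h5 : n ≤ b := Nat.le_of_dvd (by omega) h4
      have h6 : b < b ^ (k - 1) := by
        calc b = b ^ 1 := (pow_one b).symm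
          _ < b ^ (k - 1) := Nat.pow_lt_pow_right (by omega) (by omega)
      omega
    unfold g0 g1 th
    rw [if_pos h1, if_neg h3, if_neg (fun h => h2 h.1), sub_zero]

end Pool.Agent.V7H99.SY
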