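import Mathlib
import Pool.Agent.V7H99.SY.R1

/-! The cell sums are small (helper99). -/

set_option autoImplicit false

namespace Pool.Agent.V7H99.SY
open Finset

theorem nn7 (A u k : ℕ) (hKu : (100 + 8 * A) * (u + 1) ^ 2 ≤ k) : 6 + 4 * u + 2 * (A * u ^ 2) ≤ k := by
  have h1 : A * u ^ 2 ≤ A * (u + 1) ^ 2 := Nat.mul_le_mul_left _ (Nat.pow_le_pow_left (by omega) 2)
  have h2 : u + 1 ≤ (u + 1) ^ 2 := Nat.le_self_pow (by norm_num) _
  have h3 : (100 + 8 * A) * (u + 1) ^ 2 = 100 * (u + 1) ^ 2 + 8 * (A * (u + 1) ^ 2) := by ring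
  omega

/-- the contribution of the prime powers -/
theorem pp_small {b k A u : ℕ} (hb : 2 ≤ b) (hub : b ≤ 2 ^ u) (hk2 : k < 2 ^ (u + 1)) (hKu : (100 + 8 * A) * (u + 1) ^ 2 ≤ k) :
    2 * √((b ^ k : ℕ) : ℝ) * Real.log ((b ^ k : ℕ) : ℝ) ≤ ((b : ℝ) ^ k / 2 ^ (A * u ^ 2)) / 2 := by
  have hb0 : (0 : ℝ) < b := by exact_mod_cast (by omega : 0 < b)
  have hb2 : (2 : ℝ) ≤ b := by exact_mod_cast hb
  have h1 : Real.log ((b ^ k : ℕ) : ℝ) ≤ b * k := log_pow_le hb le_rfl
  have hN : ((b ^ k : ℕ) : ℝ) = (b : ℝ) ^ k := by push_cast; rfl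
  rw [hN] at h1 ⊢
  set N : ℝ := (b : ℝ) ^ k with hNd
  have hN0 : 0 < N := by positivity
  set s := √N with hs
  have hs0 : 0 < s := Real.sqrt_pos.2 hN0
  have hss : s * s = N := Real.mul_self_sqrt hN0.le
  have hbr : (b : ℝ) ≤ 2 ^ u := by exact_mod_cast hub
  have hkr : (k : ℝ) ≤ 2 ^ (u + 1) := by exact_mod_cast hk2.le
  have h2 : 4 * (b * k) * 2 ^ (A * u ^ 2) ≤ s := by
    rw [hs]
    apply Real.le_sqrt_of_sq_le
    have h3 : 4 * ((b : ℝ) * k) * 2 ^ (A * u ^ 2) ≤ 2 ^ 2 * (2 ^ u * 2 ^ (u + 1)) * 2 ^ (A * u ^ 2) := by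
      gcongr
      norm_num
    have h4 : (2 : ℝ) ^ 2 * (2 ^ u * 2 ^ (u + 1)) * 2 ^ (A * u ^ 2) = 2 ^ (3 + 2 * u + A * u ^ 2) := by
      rw [← pow_add, ← pow_add, ← pow_add]; congr 1; ring
    rw [h4] at h3
    calc (4 * ((b : ℝ) * k) * 2 ^ (A * u ^ 2)) ^ 2 ≤ (2 ^ (3 + 2 * u + A * u ^ 2)) ^ 2 := by
          apply pow_le_pow_left₀ (by positivity) h3
      _ = 2 ^ (6 + 4 * u + 2 * (A * u ^ 2)) := by rw [← pow_mul]; congr 1; ring
      _ ≤ 2 ^ k := pow_le_pow_right₀ (by norm_num) (nn7 A u k hKu)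
      _ ≤ N := pow_le_pow_left₀ (by norm_num) hb2 _
  rw [div_div, le_div_iff₀ (by positivity)]
  calc 2 * s * Real.log N * (2 ^ (A * u ^ 2) * 2) ≤ 2 * s * (b * k) * (2 ^ (A * u ^ 2) * 2) := by gcongr
    _ = s * (4 * (b * k) * 2 ^ (A * u ^ 2)) := by ring
    _ ≤ s * s := by gcongr
    _ = N := hss

/-- the cell sums are small -/
theorem cell_bound {b : ℕ} (hb : 2 ≤ b) (A B : ℕ) : ∃ K0 : ℕ, ∀ k : ℕ, K0 ≤ k → ∀ m : ℕ, 1 ≤ m →
    m ≤ B * (Nat.log 2 k) ^ 2 → 2 * m ≤ k → ∀ r c : ℕ, r < b ^ m → c < b ^ m →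
    |∑ n ∈ (range (b ^ k)).filter (fun n => n % b ^ m = r ∧ n / b ^ (k - m) = c), g0 b k m n| ≤
      (b : ℝ) ^ k / 2 ^ (A * (Nat.log 2 k) ^ 2) := by
  obtain ⟨K1, h1⟩ := ap_small hb (A + 1) B
  obtain ⟨K2, h2⟩ := ev_log (100 + 8 * A) 2
  obtain ⟨K3, h3⟩ := ev_ge (b + 3)
  refine ⟨max (max K1 K2) (max K3 3), fun k hk m hm hmB hmk r c hr hc => ?_⟩
  have hka : K1 ≤ k := le_trans (le_trans (le_max_left _ _) (le_max_left _ _)) hk
  have hkb : K2 ≤ k := le_trans (le_trans (le_max_right _ _) (le_max_left _ _)) hk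
  have hkc : K3 ≤ k := le_trans (le_trans (le_max_left _ _) (le_max_right _ _)) hk
  have hk3 : 3 ≤ k := le_trans (le_trans (le_max_right _ _) (le_max_right _ _)) hk
  have hA := h1 k hka m hm hmB r
  have hKu := h2 k hkb
  have hub := h3 k hkc
  set u := Nat.log 2 k with hu
  have hk2 : k < 2 ^ (u + 1) := Nat.lt_pow_succ_log_self (by norm_num) _
  have hbu : b ≤ 2 ^ u := by
    calc b ≤ 2 ^ b := Nat.lt_two_pow_self.le
      _ ≤ 2 ^ u := Nat.pow_le_pow_right (by norm_num) (by omega)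
  have hb0 : (0 : ℝ) < b := by exact_mod_cast (by omega : 0 < b)
  set N : ℝ := (b : ℝ) ^ k with hN
  have hN0 : 0 < N := by positivity
  have hL0 : 0 < b ^ (k - m) := by positivity
  rcases Nat.lt_or_ge c (b ^ (m - 1)) with hc1 | hc1
  · -- the leading digit is zero
    rw [sum_eq_zero, abs_zero]
    · positivity
    · intro n hn
      rw [mem_filter, mem_range] at hn
      have h4 : n < b ^ (k - 1) := by
        have h5 : n < (c + 1) * b ^ (k - m) := by
          rw [← hn.2.2]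
          have := Nat.lt_div_mul_add (a := n) hL0
          rw [add_mul, one_mul]; exact this
        calc n < (c + 1) * b ^ (k - m) := h5
          _ ≤ b ^ (m - 1) * b ^ (k - m) := Nat.mul_le_mul_right _ hc1
          _ = b ^ (k - 1) := by rw [← pow_add]; congr 1; omega
      unfold g0 g1
      rw [if_neg (by omega), if_neg (by omega), sub_zero]
  · rw [cell_eq hb hm hmk hk3 hr hc hc1]
    split_ifs with hcr
    · have hcr' : r.Coprime (b ^ m) := Nat.Coprime.pow_right m hcr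
      have hLk : ∀ t, t ≤ b ^ m → t * b ^ (k - m) - 1 ≤ b ^ k := by
        intro t ht
        have : t * b ^ (k - m) ≤ b ^ k := by
          calc t * b ^ (k - m) ≤ b ^ m * b ^ (k - m) := Nat.mul_le_mul_right _ ht
            _ = b ^ k := by rw [← pow_add]; congr 1; omega
        omega
      have e1 := hA hcr' ((c + 1) * b ^ (k - m) - 1) (hLk _ hc)
      have e2 := hA hcr' (c * b ^ (k - m) - 1) (hLk _ hc.le)
      have e3 : |∑ n ∈ (Ico (c * b ^ (k - m)) ((c + 1) * b ^ (k - m))).filter (fun n => n % b ^ m = r),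
            (ArithmeticFunction.vonMangoldt n - th n)| ≤ (N / 2 ^ (A * u ^ 2)) / 2 := by
        rw [abs_of_nonneg (sum_nonneg fun n _ => sub_nonneg.2 (th_le n))]
        refine le_trans ?_ (pp_small hb hbu hk2 hKu)
        refine le_trans ?_ (lam_th (N := b ^ k) (Nat.one_le_pow _ _ (by omega)))
        apply sum_le_sum_of_subset_of_nonneg
        · intro n hn
          rw [mem_filter, mem_Ico] at hn
          rw [mem_range]
          calc n < (c + 1) * b ^ (k - m) := hn.1.2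
            _ ≤ b ^ m * b ^ (k - m) := Nat.mul_le_mul_right _ hc
            _ = b ^ k := by rw [← pow_add]; congr 1; omega
        · intro n _ _
          exact sub_nonneg.2 (th_le n)
      have e4 : N / 2 ^ ((A + 1) * u ^ 2) ≤ (N / 2 ^ (A * u ^ 2)) / 4 := by
        rw [div_div]
        apply div_le_div_of_nonneg_left hN0.le (by positivity)
        have h5 : 2 ≤ u ^ 2 := by
          have : 2 ≤ u := by omega
          calc 2 ≤ u := this
            _ ≤ u ^ 2 := Nat.le_self_pow (by norm_num) _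
        calc (2 : ℝ) ^ (A * u ^ 2) * 4 = 2 ^ (A * u ^ 2 + 2) := by rw [pow_add]; norm_num
          _ ≤ 2 ^ ((A + 1) * u ^ 2) := by
              apply pow_le_pow_right₀ (by norm_num)
              rw [add_mul, one_mul]; omega
      refine (abs_sub _ _).trans ?_
      have e5 := abs_sub (psA ((c + 1) * b ^ (k - m) - 1) (b ^ m) r - psN ((c + 1) * b ^ (k - m) - 1) / (Nat.totient (b ^ m) : ℝ))
          (psA (c * b ^ (k - m) - 1) (b ^ m) r - psN (c * b ^ (k - m) - 1) / (Nat.totient (b ^ m) : ℝ))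
      linarith
    · rw [abs_zero]; positivity

end Pool.Agent.V7H99.SY
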