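import Mathlib
import Pool.Agent.V7H99.SY.B

/-! The `ℓ¹` norm of the Fourier coefficients of digit functions (helper99). -/

set_option autoImplicit false

namespace Pool.Agent.V7H99.SY
open Finset
open Pool.Agent.H807R2.Dav

/-- Fourier transform on `ZMod N` -/
noncomputable def hz (N : ℕ) [NeZero N] (F : ZMod N → ℂ) (a : ZMod N) : ℂ :=
  ∑ x : ZMod N, F x * ZMod.stdAddChar (-(a * x))

/-- the Wiener norm -/
noncomputable def An (N : ℕ) [NeZero N] (F : ZMod N → ℂ) : ℝ := (1 / (N : ℝ)) * ∑ a : ZMod N, ‖hz N F a‖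

variable {N : ℕ} [NeZero N]

lemma orth (c : ZMod N) : ∑ x : ZMod N, (ZMod.stdAddChar (x * c) : ℂ) = if c = 0 then (N : ℂ) else 0 := by
  have h := AddChar.sum_mulShift c (ZMod.isPrimitive_stdAddChar N)
  rw [h]
  simp [ZMod.card]

lemma hz_inv (F : ZMod N → ℂ) (x : ZMod N) : F x = (1 / (N : ℂ)) * ∑ a : ZMod N, hz N F a * ZMod.stdAddChar (a * x) := by
  have hN : (N : ℂ) ≠ 0 := by exact_mod_cast (NeZero.ne N)
  unfold hz
  have h1 : ∑ a : ZMod N, (∑ y : ZMod N, F y * ZMod.stdAddChar (-(a * y))) * ZMod.stdAddChar (a * x) =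
      ∑ y : ZMod N, F y * ∑ a : ZMod N, (ZMod.stdAddChar (a * (x - y)) : ℂ) := by
    simp only [sum_mul, mul_sum]
    rw [sum_comm]
    apply sum_congr rfl; intro y _
    apply sum_congr rfl; intro a _
    rw [mul_assoc, ← AddChar.map_add_eq_mul]
    congr 2
    ring
  rw [h1]
  simp only [orth]
  have h2 : ∀ y : ZMod N, F y * (if x - y = 0 then (N : ℂ) else 0) = if x = y then F y * N else 0 := by
    intro y
    by_cases h : x = y
    · subst h; simp
    · rw [if_neg (sub_ne_zero.2 h), if_neg h, mul_zero]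
  simp only [h2]
  rw [sum_ite_eq univ x, if_pos (mem_univ _)]
  field_simp

lemma hz_mul (F G : ZMod N → ℂ) (a : ZMod N) :
    hz N (fun x => F x * G x) a = (1 / (N : ℂ)) * ∑ c : ZMod N, hz N F c * hz N G (a - c) := by
  unfold hz
  have h1 : ∀ x : ZMod N, F x * G x * ZMod.stdAddChar (-(a * x)) =
      (1 / (N : ℂ)) * ∑ c : ZMod N, hz N F c * (G x * ZMod.stdAddChar (-((a - c) * x))) := by
    intro x
    conv_lhs => rw [hz_inv F x]
    rw [mul_assoc, mul_assoc]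
    congr 1
    rw [sum_mul]
    apply sum_congr rfl; intro c _
    rw [show -((a - c) * x) = c * x + -(a * x) by ring, AddChar.map_add_eq_mul]
    ring
  rw [sum_congr rfl fun x _ => h1 x, ← mul_sum]
  congr 1
  rw [sum_comm]
  apply sum_congr rfl; intro c _
  rw [← mul_sum]
  rfl

lemma An_nonneg (F : ZMod N → ℂ) : 0 ≤ An N F := by unfold An; positivity

lemma An_mul (F G : ZMod N → ℂ) : An N (fun x => F x * G x) ≤ An N F * An N G := by
  have hN : (0 : ℝ) < N := by exact_mod_cast Nat.pos_of_ne_zero (NeZero.ne N)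
  unfold An
  have h1 : ∀ a : ZMod N, ‖hz N (fun x => F x * G x) a‖ ≤ (1 / (N : ℝ)) * ∑ c : ZMod N, ‖hz N F c‖ * ‖hz N G (a - c)‖ := by
    intro a
    rw [hz_mul, norm_mul, norm_div, norm_one, Complex.norm_natCast]
    apply mul_le_mul_of_nonneg_left _ (by positivity)
    refine (norm_sum_le _ _).trans (le_of_eq (sum_congr rfl fun c _ => norm_mul _ _))
  have h2 : ∑ a : ZMod N, ∑ c : ZMod N, ‖hz N F c‖ * ‖hz N G (a - c)‖ =
      (∑ c : ZMod N, ‖hz N F c‖) * ∑ a : ZMod N, ‖hz N G a‖ := by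
    rw [sum_comm, sum_mul]
    apply sum_congr rfl; intro c _
    rw [← mul_sum]
    congr 1
    exact Fintype.sum_equiv (Equiv.subRight c) _ _ (fun a => rfl)
  calc (1 / (N : ℝ)) * ∑ a : ZMod N, ‖hz N (fun x => F x * G x) a‖
      ≤ (1 / (N : ℝ)) * ∑ a : ZMod N, (1 / (N : ℝ)) * ∑ c : ZMod N, ‖hz N F c‖ * ‖hz N G (a - c)‖ := by
        apply mul_le_mul_of_nonneg_left (sum_le_sum fun a _ => h1 a) (by positivity)
    _ = _ := by
        rw [← mul_sum, h2]; ring

lemma An_one : An N (fun _ => (1 : ℂ)) ≤ 1 := by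
  have hN : (0 : ℝ) < N := by exact_mod_cast Nat.pos_of_ne_zero (NeZero.ne N)
  have h1 : ∀ a : ZMod N, ‖hz N (fun _ => (1 : ℂ)) a‖ = if a = 0 then (N : ℝ) else 0 := by
    intro a
    unfold hz
    have : ∀ x : ZMod N, (1 : ℂ) * ZMod.stdAddChar (-(a * x)) = ZMod.stdAddChar (x * (-a)) := by
      intro x; rw [one_mul]; congr 1; ring
    rw [sum_congr rfl fun x _ => this x, orth]
    by_cases h : a = 0
    · simp [h]
    · rw [if_neg (by simpa using h), if_neg h, norm_zero]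
  unfold An
  rw [sum_congr rfl fun a _ => h1 a, sum_ite_eq' univ (0 : ZMod N), if_pos (mem_univ _)]
  rw [one_div, inv_mul_cancel₀ hN.ne']

lemma An_prod {ι : Type*} (s : Finset ι) (F : ι → ZMod N → ℂ) : An N (fun x => ∏ i ∈ s, F i x) ≤ ∏ i ∈ s, An N (F i) := by
  classical
  induction s using Finset.induction_on with
  | empty => simpa using An_one
  | insert i s hi ih =>
    simp only [prod_insert hi]
    exact (An_mul _ _).trans (mul_le_mul_of_nonneg_left ih (An_nonneg _))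

lemma sum_zmod (G : ℕ → ℂ) : ∑ x : ZMod N, G x.val = ∑ n ∈ range N, G n := by
  refine sum_nbij' (fun x => x.val) (fun n => (n : ZMod N)) ?_ ?_ ?_ ?_ ?_
  · intro x _; rw [mem_range]; exact ZMod.val_lt x
  · intro n _; exact mem_univ _
  · intro x _; exact ZMod.natCast_zmod_val x
  · intro n hn; rw [mem_range] at hn; exact ZMod.val_cast_of_lt hn
  · intro x _; rfl

lemma sum_zmodR (G : ℕ → ℝ) : ∑ x : ZMod N, G x.val = ∑ n ∈ range N, G n := by
  refine sum_nbij' (fun x => x.val) (fun n => (n : ZMod N)) ?_ ?_ ?_ ?_ ?_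
  · intro x _; rw [mem_range]; exact ZMod.val_lt x
  · intro n _; exact mem_univ _
  · intro x _; exact ZMod.natCast_zmod_val x
  · intro n hn; rw [mem_range] at hn; exact ZMod.val_cast_of_lt hn
  · intro x _; rfl

lemma std_ee (m n : ℤ) : (ZMod.stdAddChar (((m : ZMod N)) * (n : ZMod N)) : ℂ) = ee ((n : ℝ) * ((m : ℝ) / N)) := by
  have h : ((m : ZMod N)) * (n : ZMod N) = ((m * n : ℤ) : ZMod N) := by push_cast; rfl
  rw [h, ZMod.stdAddChar_coe]
  unfold ee
  congr 1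
  push_cast
  ring

lemma hz_ft (F : ℕ → ℂ) (a : ℕ) : ft N F a = (1 / (N : ℂ)) * hz N (fun x => F x.val) (a : ZMod N) := by
  unfold ft hz
  congr 1
  rw [← sum_zmod (N := N) (fun n => F n * ee (-((n : ℝ) * ((a : ℝ) / N))))]
  apply sum_congr rfl; intro x _
  congr 1
  have h := std_ee (N := N) (a : ℤ) (-(x.val : ℤ))
  push_cast at h
  rw [ZMod.natCast_zmod_val] at h
  rw [show -((a : ZMod N) * x) = (a : ZMod N) * (-x) by ring, h]
  congr 1
  ring

lemma An_ft (F : ℕ → ℂ) : An N (fun x => F x.val) = ∑ a ∈ range N, ‖ft N F a‖ := by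
  rw [← sum_zmodR (N := N) (fun a => ‖ft N F a‖)]
  unfold An
  rw [mul_sum]
  apply sum_congr rfl; intro a _
  rw [hz_ft, ZMod.natCast_zmod_val, norm_mul, norm_div, norm_one, Complex.norm_natCast]

/-- Fourier inversion -/
lemma ft_inv (F : ℕ → ℂ) {n : ℕ} (hn : n < N) : F n = ∑ a ∈ range N, ft N F a * ee ((n : ℝ) * ((a : ℝ) / N)) := by
  have h := hz_inv (N := N) (fun x => F x.val) (n : ZMod N)
  simp only [ZMod.val_cast_of_lt hn] at h
  rw [h, ← sum_zmod (N := N) (fun a => ft N F a * ee ((n : ℝ) * ((a : ℝ) / N))), mul_sum]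
  apply sum_congr rfl; intro a _
  rw [hz_ft, ZMod.natCast_zmod_val, mul_assoc]
  congr 2
  have h2 := std_ee (N := N) (a.val : ℤ) (n : ℤ)
  push_cast at h2
  rw [ZMod.natCast_zmod_val] at h2
  rw [h2]

/-- sums against a weight -/
lemma ft_pair (F L : ℕ → ℂ) : ∑ n ∈ range N, L n * F n = ∑ a ∈ range N, ft N F a * ∑ n ∈ range N, L n * ee ((n : ℝ) * ((a : ℝ) / N)) := by
  simp only [mul_sum]
  rw [sum_comm]
  apply sum_congr rfl; intro n hn
  rw [mem_range] at hn
  conv_lhs => rw [ft_inv F hn]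
  rw [mul_sum]
  apply sum_congr rfl; intro a _
  ring

omit [NeZero N]

lemma sum_split' {A : ℕ} (hA : 0 < A) (B : ℕ) (G : ℕ → ℂ) :
    ∑ n ∈ range (A * B), G n = ∑ r ∈ range A, ∑ d ∈ range B, G (r + d * A) := by
  rw [← sum_product']
  symm
  refine sum_nbij' (fun p => p.1 + p.2 * A) (fun n => (n % A, n / A)) ?_ ?_ ?_ ?_ ?_
  · rintro ⟨r, d⟩ h
    rw [mem_product, mem_range, mem_range] at h
    rw [mem_range]
    obtain ⟨h1, h2⟩ := h
    simp only at h1 h2 ⊢
    calc r + d * A < A + d * A := by omega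
      _ = A * (d + 1) := by ring
      _ ≤ A * B := Nat.mul_le_mul_left _ (by omega)
  · intro n h
    rw [mem_range] at h
    rw [mem_product, mem_range, mem_range]
    refine ⟨Nat.mod_lt _ hA, ?_⟩
    rw [Nat.div_lt_iff_lt_mul hA]
    calc n < A * B := h
      _ = B * A := by ring
  · rintro ⟨r, d⟩ h
    rw [mem_product, mem_range, mem_range] at h
    obtain ⟨h1, h2⟩ := h
    simp only at h1 h2 ⊢
    rw [Nat.add_mul_mod_self_right, Nat.mod_eq_of_lt h1, Nat.add_mul_div_right _ _ hA, Nat.div_eq_of_lt h1, zero_add]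
  · intro n _
    simp only
    rw [mul_comm]
    exact Nat.mod_add_div _ _
  · intro p _; rfl

/-- the Wiener norm of one digit function -/
theorem one_digit {b : ℕ} (hb : 2 ≤ b) {j K : ℕ} (hj : j < K) (u : ℕ) :
    ∑ a ∈ range (b ^ K), ‖ft (b ^ K) (fun n => ee ((dg b j n : ℝ) * ((u : ℝ) / b))) a‖ ≤ 45 * b ^ 2 * K := by
  have hb0 : (0 : ℝ) < b := by exact_mod_cast (by omega : 0 < b)
  have hbn : 0 < b := by omega
  obtain ⟨c, rfl⟩ : ∃ c, K = j + 1 + c := ⟨K - (j + 1), by omega⟩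
  have hbj : (0 : ℝ) < (b : ℝ) ^ j := by positivity
  have hbj1 : (0 : ℝ) < (b : ℝ) ^ (j + 1) := by positivity
  have hbc : (0 : ℝ) < (b : ℝ) ^ c := by positivity
  -- evaluate
  have hval : ∀ a : ℕ, ft (b ^ (j + 1 + c)) (fun n => ee ((dg b j n : ℝ) * ((u : ℝ) / b))) a =
      (1 / ((b : ℂ) ^ (j + 1 + c))) * ((∑ d ∈ range b, ee ((d : ℝ) * ((u : ℝ) / b)) * ee (-((d : ℝ) * ((a : ℝ) / b ^ (c + 1))))) *
        (∑ r ∈ range (b ^ j), ee ((r : ℝ) * (-((a : ℝ) / b ^ (j + 1 + c)))))  *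
        (∑ s ∈ range (b ^ c), ee ((s : ℝ) * (-((a : ℝ) / b ^ c))))) := by
    intro a
    unfold ft
    push_cast
    congr 1
    have e1 : b ^ (j + 1 + c) = b ^ (j + 1) * b ^ c := pow_add _ _ _
    rw [e1, sum_split' (by positivity)]
    have h1 : ∀ m ∈ range (b ^ (j + 1)), ∑ s ∈ range (b ^ c), ee ((dg b j (m + s * b ^ (j + 1)) : ℝ) * ((u : ℝ) / b)) *
        ee (-(((m + s * b ^ (j + 1) : ℕ) : ℝ) * ((a : ℝ) / b ^ (j + 1 + c)))) =
        (ee ((dg b j m : ℝ) * ((u : ℝ) / b)) * ee (-((m : ℝ) * ((a : ℝ) / b ^ (j + 1 + c))))) *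
        ∑ s ∈ range (b ^ c), ee ((s : ℝ) * (-((a : ℝ) / b ^ c))) := by
      intro m _
      rw [mul_sum]
      apply sum_congr rfl; intro s _
      rw [dg_add_low (by omega) (Nat.lt_succ_self j), ← ee_add, ← ee_add, ← ee_add]
      congr 1
      push_cast
      rw [pow_add _ (j + 1) c]
      field_simp
      ring
    rw [sum_congr rfl h1, ← sum_mul]
    congr 1
    rw [sum_split (by omega)]
    rw [sum_mul_sum, sum_comm]
    apply sum_congr rfl; intro d hd
    apply sum_congr rfl; intro r hr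
    rw [mem_range] at hd hr
    rw [dg_add_top (by omega) hr hd, ← ee_add, ← ee_add, ← ee_add]
    congr 1
    push_cast
    rw [show j + 1 + c = j + (c + 1) by ring, pow_add _ j (c + 1)]
    field_simp
    ring
  -- bound
  have hbound : ∀ a : ℕ, ‖ft (b ^ (j + 1 + c)) (fun n => ee ((dg b j n : ℝ) * ((u : ℝ) / b))) a‖ ≤
      if b ^ c ∣ a then 1 / (b : ℝ) ^ j * KK ((b : ℝ) ^ j) ((a : ℝ) / b ^ (j + 1 + c)) else 0 := by
    intro a
    rw [hval, norm_mul, norm_mul, norm_mul, norm_div, norm_one, norm_pow, Complex.norm_natCast]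
    have hd : ‖∑ d ∈ range b, ee ((d : ℝ) * ((u : ℝ) / b)) * ee (-((d : ℝ) * ((a : ℝ) / b ^ (c + 1))))‖ ≤ b := by
      refine (norm_sum_le _ _).trans ?_
      simp [norm_ee]
    have hr : ‖∑ r ∈ range (b ^ j), ee ((r : ℝ) * (-((a : ℝ) / b ^ (j + 1 + c))))‖ ≤ KK ((b : ℝ) ^ j) ((a : ℝ) / b ^ (j + 1 + c)) := by
      rw [← KK_neg, range_eq_Ico]
      apply geo_bound _ _ (Nat.zero_le _)
      push_cast; simp
    split_ifs with hdiv
    · have hs : ‖∑ s ∈ range (b ^ c), ee ((s : ℝ) * (-((a : ℝ) / b ^ c)))‖ ≤ (b : ℝ) ^ c := by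
        refine (norm_sum_le _ _).trans ?_
        simp [norm_ee]
      have hK0 : 0 ≤ KK ((b : ℝ) ^ j) ((a : ℝ) / b ^ (j + 1 + c)) := KK_nonneg hbj.le _
      calc _ ≤ 1 / (b : ℝ) ^ (j + 1 + c) * (b * KK ((b : ℝ) ^ j) ((a : ℝ) / b ^ (j + 1 + c)) * (b : ℝ) ^ c) := by
            gcongr
        _ = _ := by rw [pow_add, pow_succ]; field_simp
    · have hs : ∑ s ∈ range (b ^ c), ee ((s : ℝ) * (-((a : ℝ) / b ^ c))) = 0 := by
        have h1 := full_sum (b := b ^ c) (u := a) (Nat.one_le_pow _ _ hbn) hdiv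
        have h2 : ∑ s ∈ range (b ^ c), ee ((s : ℝ) * (-((a : ℝ) / b ^ c))) =
            (starRingEnd ℂ) (∑ s ∈ range (b ^ c), ee ((s : ℝ) * ((a : ℝ) / ((b ^ c : ℕ) : ℝ)))) := by
          rw [map_sum]
          apply sum_congr rfl; intro s _
          rw [ee_eq, ee_eq, ← Complex.exp_conj]
          congr 1
          simp only [map_mul, Complex.conj_ofReal, Complex.conj_I]
          push_cast; ring
        rw [h2, h1, map_zero]
      rw [hs, norm_zero, mul_zero, mul_zero]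
  refine (sum_le_sum fun a _ => hbound a).trans ?_
  rw [← sum_filter]
  have hre : ∑ a ∈ (range (b ^ (j + 1 + c))).filter (fun a => b ^ c ∣ a), 1 / (b : ℝ) ^ j * KK ((b : ℝ) ^ j) ((a : ℝ) / b ^ (j + 1 + c)) =
      ∑ a ∈ range (b ^ (j + 1)), 1 / (b : ℝ) ^ j * KK ((b : ℝ) ^ j) (0 + (a : ℝ) * (1 / b ^ (j + 1))) := by
    symm
    refine sum_nbij' (fun a => b ^ c * a) (fun a => a / b ^ c) ?_ ?_ ?_ ?_ ?_
    · intro a ha
      rw [mem_range] at ha
      rw [mem_filter, mem_range]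
      refine ⟨?_, Dvd.intro _ rfl⟩
      rw [show b ^ (j + 1 + c) = b ^ c * b ^ (j + 1) by rw [pow_add]; ring]
      exact Nat.mul_lt_mul_of_pos_left ha (by positivity)
    · intro a ha
      rw [mem_filter, mem_range] at ha
      rw [mem_range, Nat.div_lt_iff_lt_mul (by positivity), ← pow_add]
      exact ha.1
    · intro a _
      exact Nat.mul_div_cancel_left _ (by positivity)
    · intro a ha
      rw [mem_filter] at ha
      exact Nat.mul_div_cancel' ha.2
    · intro a _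
      congr 2
      push_cast
      rw [zero_add, pow_add _ (j + 1) c]
      field_simp
  rw [hre, ← mul_sum]
  have hq1 : 1 ≤ b ^ (j + 1) := Nat.one_le_pow _ _ hbn
  have hv := vino_block (q := b ^ (j + 1)) hq1 (a := 1) (isCoprime_one_left) (α := 1 / (b : ℝ) ^ (j + 1)) (by
    push_cast; rw [sub_self, abs_zero]; positivity) (M := (b : ℝ) ^ j) hbj.le 0
  have hlog : Real.log ((b ^ (j + 1) : ℕ) : ℝ) ≤ (j + 1) * b := by
    push_cast
    rw [Real.log_pow]
    push_cast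
    have : Real.log b ≤ b := (Real.log_le_sub_one_of_pos hb0).trans (by linarith)
    gcongr
  have hb2 : (2 : ℝ) ≤ b := by exact_mod_cast hb
  have hj0 : (0 : ℝ) ≤ j := Nat.cast_nonneg _
  have hc0 : (0 : ℝ) ≤ c := Nat.cast_nonneg _
  calc 1 / (b : ℝ) ^ j * ∑ a ∈ range (b ^ (j + 1)), KK ((b : ℝ) ^ j) (0 + (a : ℝ) * (1 / b ^ (j + 1)))
      ≤ 1 / (b : ℝ) ^ j * (39 * (b : ℝ) ^ j + 3 * ((b ^ (j + 1) : ℕ) : ℝ) * (1 + Real.log ((b ^ (j + 1) : ℕ) : ℝ))) := by
        gcongr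
    _ ≤ 1 / (b : ℝ) ^ j * (39 * (b : ℝ) ^ j + 3 * ((b ^ (j + 1) : ℕ) : ℝ) * (1 + (j + 1) * b)) := by
        gcongr
    _ = 39 + 3 * b * (1 + (j + 1) * b) := by push_cast; rw [pow_succ]; field_simp
    _ ≤ 45 * b ^ 2 * ((j + 1 + c : ℕ) : ℝ) := by
        push_cast
        have h1 : (0 : ℝ) ≤ b ^ 2 * c := by positivity
        nlinarith [mul_nonneg hj0 (sq_nonneg (b : ℝ))]

/-- the Wiener norm of a digit function -/
theorem wiener {b : ℕ} (hb : 2 ≤ b) (K : ℕ) (w : ℕ → ℕ) (J : Finset ℕ) (hJ : J ⊆ range K) (hw : ∀ j, j ∉ J → w j = 0) :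
    ∑ a ∈ range (b ^ K), ‖ft (b ^ K) (FF b w K) a‖ ≤ (45 * b ^ 2 * K) ^ J.card := by
  have : NeZero (b ^ K) := ⟨by positivity⟩
  rw [← An_ft]
  have h1 : (fun x : ZMod (b ^ K) => FF b w K x.val) = fun x : ZMod (b ^ K) => ∏ j ∈ J, ee ((dg b j x.val : ℝ) * ((w j : ℝ) / b)) := by
    funext x
    unfold FF
    symm
    apply prod_subset hJ
    intro j _ hj
    rw [hw j hj, Nat.cast_zero, zero_div, mul_zero, ee_zero]
  rw [h1]
  refine (An_prod J (fun j (x : ZMod (b ^ K)) => ee ((dg b j x.val : ℝ) * ((w j : ℝ) / b)))).trans ?_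
  rw [← prod_const]
  apply prod_le_prod
  · intro j _; exact An_nonneg _
  · intro j hj
    rw [An_ft (fun n => ee ((dg b j n : ℝ) * ((w j : ℝ) / b)))]
    exact one_digit hb (mem_range.1 (hJ hj)) _

end Pool.Agent.V7H99.SY
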