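import Mathlib
import Pool.Agent.V7H99.SY.A
import Pool.Agent.V7H99.SY.C

/-! Sums over primes of digit functions with few nonzero weights (helper99). -/

set_option autoImplicit false

namespace Pool.Agent.V7H99.SY
open Finset
open Pool.Agent.H807R2.Dav

lemma dd_round (y : ℝ) : 4 * |y - round y| ≤ dd y := by
  rw [abs_sub_round_eq_min]
  have h := dd_ge (Int.fract_nonneg y) (Int.fract_lt_one y).le
  have h2 : dd (Int.fract y) = dd y := by
    have h3 := dd_add_int (Int.fract y) ⌊y⌋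
    rw [Int.fract_add_floor] at h3
    exact h3.symm
  rw [h2] at h
  exact h

lemma window {b q L : ℕ} (hb : 2 ≤ b) (hq : 1 ≤ q) (hqL : q < b ^ L) (p : ℤ) (hnd : ∀ j : ℕ, ¬ (q : ℤ) ∣ p * (b : ℤ) ^ j)
    (j0 : ℕ) : ∃ j, j0 ≤ j ∧ j < j0 + L ∧
      1 / (2 * (b : ℝ)) ≤ |(b : ℝ) ^ j * ((p : ℝ) / q) - round ((b : ℝ) ^ j * ((p : ℝ) / q))| := by
  have hb0 : (0 : ℝ) < b := by exact_mod_cast (by omega : 0 < b)
  have hq0 : (0 : ℝ) < q := by exact_mod_cast hq
  by_contra hcon
  push Not at hcon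
  set y : ℕ → ℝ := fun j => (b : ℝ) ^ j * ((p : ℝ) / q) with hy
  have hstep : ∀ j, y (j + 1) = b * y j := fun j => by simp only [hy]; rw [pow_succ]; ring
  have key : ∀ e, e ≤ L → (b : ℝ) ^ e / q ≤ |y (j0 + e) - round (y (j0 + e))| := by
    intro e
    induction e with
    | zero =>
      intro _
      rw [pow_zero, add_zero]
      set r := round (y j0)
      have h1 : y j0 - r = ((p * (b : ℤ) ^ j0 - r * q : ℤ) : ℝ) / q := by
        simp only [hy]; push_cast; field_simp
      have h2 : p * (b : ℤ) ^ j0 - r * q ≠ 0 := by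
        intro h
        apply hnd j0
        exact ⟨r, by linarith⟩
      have h3 : (1 : ℝ) ≤ |((p * (b : ℤ) ^ j0 - r * q : ℤ) : ℝ)| := by
        rw [← Int.cast_abs]
        exact_mod_cast Int.one_le_abs h2
      rw [h1, abs_div, abs_of_pos hq0]
      gcongr
    | succ e ih =>
      intro he
      have h1 := ih (by omega)
      have h2 := hcon (j0 + e) (by omega) (by omega)
      set z := y (j0 + e) with hz
      have h2' : |z - round z| < 1 / (2 * b) := h2
      have h3 : y (j0 + (e + 1)) = b * z := by rw [← add_assoc, hstep]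
      rw [h3]
      have h4 : |(b : ℝ) * z - b * round z| < 1 / 2 := by
        rw [← mul_sub, abs_mul, abs_of_pos hb0]
        calc (b : ℝ) * |z - round z| < b * (1 / (2 * b)) := by gcongr
          _ = 1 / 2 := by field_simp
      have h5 : round ((b : ℝ) * z) = (b : ℤ) * round z := by
        by_contra h6
        have h7 : (1 : ℝ) ≤ |((round ((b : ℝ) * z) - (b : ℤ) * round z : ℤ) : ℝ)| := by
          rw [← Int.cast_abs]
          exact_mod_cast Int.one_le_abs (sub_ne_zero.2 h6)
        have h8 := abs_sub_round ((b : ℝ) * z)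
        push_cast at h7
        have h9 : |(round ((b : ℝ) * z) : ℝ) - b * round z| ≤ |(b : ℝ) * z - round ((b : ℝ) * z)| + |(b : ℝ) * z - b * round z| := by
          have e1 : (round ((b : ℝ) * z) : ℝ) - b * round z = -((b : ℝ) * z - round ((b : ℝ) * z)) + ((b : ℝ) * z - b * round z) := by ring
          rw [e1]
          refine (abs_add_le _ _).trans ?_
          rw [abs_neg]
        linarith
      rw [h5]
      push_cast
      rw [← mul_sub, abs_mul, abs_of_pos hb0, pow_succ]
      calc (b : ℝ) ^ e * b / q = b * ((b : ℝ) ^ e / q) := by ring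
        _ ≤ _ := by gcongr
  have h1 := key L le_rfl
  have h2 := abs_sub_round (y (j0 + L))
  have h3 : (1 : ℝ) < (b : ℝ) ^ L / q := by
    rw [lt_div_iff₀ hq0, one_mul]
    exact_mod_cast hqL
  linarith

lemma dvd_pow_small {b q m j : ℕ} (hb : 2 ≤ b) (hq : 1 ≤ q) (hq2 : q < 2 ^ (m + 1)) (h : q ∣ b ^ j) : q ∣ b ^ m := by
  rw [← Nat.factorization_le_iff_dvd (by omega) (by positivity)]
  intro p
  rw [Nat.factorization_pow]
  simp only [Finsupp.smul_apply, smul_eq_mul]
  rcases Nat.eq_zero_or_pos (q.factorization p) with h0 | h0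
  · rw [h0]; exact Nat.zero_le _
  have hp : p.Prime := by
    by_contra hp
    rw [Nat.factorization_eq_zero_of_not_prime _ hp] at h0
    omega
  have hpq : p ∣ q := by
    by_contra h1
    rw [Nat.factorization_eq_zero_of_not_dvd h1] at h0
    omega
  have hpb : p ∣ b := hp.dvd_of_dvd_pow (hpq.trans h)
  have h1 : 1 ≤ b.factorization p := (hp.dvd_iff_one_le_factorization (by omega)).1 hpb
  have h2 : p ^ (q.factorization p) ∣ q := Nat.ordProj_dvd q p
  have h3 : p ^ (q.factorization p) < 2 ^ (m + 1) := lt_of_le_of_lt (Nat.le_of_dvd (by omega) h2) hq2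
  have h4 : 2 ^ (q.factorization p) < 2 ^ (m + 1) := lt_of_le_of_lt (Nat.pow_le_pow_left hp.two_le _) h3
  have h5 : q.factorization p < m + 1 := (Nat.pow_lt_pow_iff_right (by norm_num)).1 h4
  calc q.factorization p ≤ m * 1 := by omega
    _ ≤ m * b.factorization p := Nat.mul_le_mul_left _ h1

/-- the decay factor -/
noncomputable def rho (b : ℕ) : ℝ := 1 - (1 / (b : ℝ)) ^ 2 / (4 * b)

lemma rho_pos {b : ℕ} (hb : 2 ≤ b) : 0 < rho b := by
  unfold rho
  have hb0 : (2 : ℝ) ≤ b := by exact_mod_cast hb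
  have h1 : (1 / (b : ℝ)) ^ 2 ≤ 1 := by
    rw [sq_le_one_iff₀ (by positivity)]
    rw [div_le_one (by linarith)]; linarith
  have h2 : (1 / (b : ℝ)) ^ 2 / (4 * b) ≤ 1 / (4 * b) := by gcongr
  have h3 : 1 / (4 * (b : ℝ)) ≤ 1 / 8 := by
    apply one_div_le_one_div_of_le (by norm_num); linarith
  linarith

lemma rho_lt {b : ℕ} (hb : 2 ≤ b) : rho b < 1 := by
  unfold rho
  have hb0 : (2 : ℝ) ≤ b := by exact_mod_cast hb
  have : 0 < (1 / (b : ℝ)) ^ 2 / (4 * b) := by positivity
  linarith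

/-- the coefficient on a major arc -/
theorem coeff_major {b K m : ℕ} (hb : 2 ≤ b) (hH : 8 * b * 2 ^ m * b ^ (K / 2) ≤ b ^ K) (w : ℕ → ℕ) (J : Finset ℕ)
    (hw : ∀ j, j ∉ J → w j = 0) (i : ℕ) (hmi : m ≤ i) (hiK : i ≤ K / 2) (hi : i < K) (hwi : ¬ b ∣ w i)
    (a q : ℕ) (p : ℤ) (hcop : IsCoprime p (q : ℤ)) (hq1 : 1 ≤ q) (hq2 : q ≤ 2 ^ m)
    (hap : |(a : ℝ) / ((b ^ K : ℕ) : ℝ) - p / q| ≤ (2 : ℝ) ^ m / (((b ^ K : ℕ) : ℝ) * q)) :
    ‖ft (b ^ K) (FF b w K) a‖ ≤ max (2 * Real.pi * b * (2 ^ m * (b : ℝ) ^ (K / 2) / (b : ℝ) ^ K)) (rho b ^ (K / (2 * (m + 1)) - J.card)) := by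
  have hb0 : (0 : ℝ) < b := by exact_mod_cast (by omega : 0 < b)
  have hb1 : (1 : ℝ) ≤ b := by exact_mod_cast (by omega : 1 ≤ b)
  have hq0 : (0 : ℝ) < q := by exact_mod_cast hq1
  have hN0 : (0 : ℝ) < ((b ^ K : ℕ) : ℝ) := by positivity
  have hNe : ((b ^ K : ℕ) : ℝ) = (b : ℝ) ^ K := by push_cast; rfl
  set θ : ℝ := (a : ℝ) / ((b ^ K : ℕ) : ℝ) with hθ
  set β : ℝ := θ - p / q with hβ
  have hβ1 : |β| ≤ 2 ^ m / (b : ℝ) ^ K := by
    refine hap.trans ?_
    rw [hNe]
    apply div_le_div_of_nonneg_left (by positivity) (by positivity)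
    have : (1 : ℝ) ≤ q := by exact_mod_cast hq1
    nlinarith [show (0 : ℝ) < (b : ℝ) ^ K by positivity]
  have hβj : ∀ j, j ≤ K / 2 → |(b : ℝ) ^ j * β| ≤ 2 ^ m * (b : ℝ) ^ (K / 2) / (b : ℝ) ^ K := by
    intro j hj
    rw [abs_mul, abs_of_pos (by positivity)]
    calc (b : ℝ) ^ j * |β| ≤ (b : ℝ) ^ (K / 2) * (2 ^ m / (b : ℝ) ^ K) := by
          gcongr
      _ = _ := by ring
  have hHr : 2 ^ m * (b : ℝ) ^ (K / 2) / (b : ℝ) ^ K ≤ 1 / (8 * b) := by
    rw [div_le_div_iff₀ (by positivity) (by positivity), one_mul]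
    have : ((8 * b * 2 ^ m * b ^ (K / 2) : ℕ) : ℝ) ≤ ((b ^ K : ℕ) : ℝ) := by exact_mod_cast hH
    push_cast at this
    linarith
  rw [ft_FF (by omega), norm_prod]
  set f : ℕ → ℝ := fun j => ‖gg b (w j) ((b : ℝ) ^ j * θ)‖ with hf
  have hf0 : ∀ j, 0 ≤ f j := fun j => norm_nonneg _
  have hf1 : ∀ j, f j ≤ 1 := fun j => norm_gg_le (by omega) _ _
  have hsub : ∀ G : Finset ℕ, G ⊆ range K → ∏ j ∈ range K, f j ≤ ∏ j ∈ G, f j := by
    intro G hG
    rw [← prod_sdiff hG]
    have h1 : ∏ j ∈ range K \ G, f j ≤ 1 := prod_le_one (fun j _ => hf0 j) (fun j _ => hf1 j)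
    have h2 : 0 ≤ ∏ j ∈ G, f j := prod_nonneg fun j _ => hf0 j
    calc _ ≤ 1 * ∏ j ∈ G, f j := by gcongr
      _ = _ := one_mul _
  by_cases hdiv : ∃ j : ℕ, (q : ℤ) ∣ p * (b : ℤ) ^ j
  · -- the denominator divides a power of b
    obtain ⟨j, hj⟩ := hdiv
    have h1 : (q : ℤ) ∣ (b : ℤ) ^ j := by
      exact (hcop.symm).dvd_of_dvd_mul_left hj
    have h2 : q ∣ b ^ j := by exact_mod_cast h1
    have h3 : q ∣ b ^ m := dvd_pow_small hb hq1 (lt_of_le_of_lt hq2 (Nat.pow_lt_pow_right (by norm_num) (by omega))) h2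
    have h4 : q ∣ b ^ i := h3.trans (pow_dvd_pow b hmi)
    obtain ⟨c, hc⟩ := h4
    have h5 : (b : ℝ) ^ i * θ = ((p * c : ℤ) : ℝ) + (b : ℝ) ^ i * β := by
      have h6 : (b : ℝ) ^ i = q * c := by exact_mod_cast hc
      have h7 : (b : ℝ) ^ i * (p / q) = ((p * c : ℤ) : ℝ) := by
        rw [h6]; push_cast; field_simp
      rw [← h7, hβ]; ring
    refine le_trans ?_ (le_max_left _ _)
    refine (hsub {i} (by simpa using hi)).trans ?_
    rw [prod_singleton]
    simp only [hf]
    rw [h5]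
    refine (gg_near (by omega) hwi _ _).trans ?_
    have h8 := hβj i hiK
    have := Real.pi_pos
    gcongr
  · push Not at hdiv
    refine le_trans ?_ (le_max_right _ _)
    set L := m + 1 with hL
    have hqL : q < b ^ L := by
      calc q ≤ 2 ^ m := hq2
        _ < 2 ^ L := Nat.pow_lt_pow_right (by norm_num) (by omega)
        _ ≤ b ^ L := Nat.pow_le_pow_left hb _
    choose js hjs1 hjs2 hjs3 using fun s : ℕ => window hb hq1 hqL p hdiv (s * L)
    set R := K / (2 * L) with hR
    have hRK : R * L ≤ K / 2 := by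
      rw [hR, ← Nat.div_div_eq_div_mul]
      exact Nat.div_mul_le_self _ _
    have hjK : ∀ s ∈ range R, js s < K / 2 := by
      intro s hs
      rw [mem_range] at hs
      have h1 := hjs2 s
      have h2 : s * L + L ≤ R * L := by
        calc s * L + L = (s + 1) * L := by ring
          _ ≤ R * L := Nat.mul_le_mul_right _ (by omega)
      omega
    have hinj : Set.InjOn js (range R) := by
      intro s _ t _ hst
      have a1 := hjs1 s
      have a2 := hjs2 s
      have b1 := hjs1 t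
      have b2 := hjs2 t
      have hL0 : 0 < L := by omega
      rcases lt_trichotomy s t with h | h | h
      · exfalso
        have : s * L + L ≤ t * L := by
          calc s * L + L = (s + 1) * L := by ring
            _ ≤ t * L := Nat.mul_le_mul_right _ (by omega)
        omega
      · exact h
      · exfalso
        have : t * L + L ≤ s * L := by
          calc t * L + L = (t + 1) * L := by ring
            _ ≤ s * L := Nat.mul_le_mul_right _ (by omega)
        omega
    set G := (range R).image js \ J with hG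
    have hGK : G ⊆ range K := by
      intro j hj
      rw [hG, mem_sdiff, mem_image] at hj
      obtain ⟨⟨s, hs, rfl⟩, _⟩ := hj
      rw [mem_range]
      have := hjK s hs
      omega
    have hGcard : R - J.card ≤ G.card := by
      have h1 := le_card_sdiff J ((range R).image js)
      rw [card_image_of_injOn hinj, card_range] at h1
      exact h1
    have hGf : ∀ j ∈ G, f j ≤ rho b := by
      intro j hj
      rw [hG, mem_sdiff, mem_image] at hj
      obtain ⟨⟨s, hs, rfl⟩, hjJ⟩ := hj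
      have h1 := hjs3 s
      have h2 := dd_round ((b : ℝ) ^ js s * ((p : ℝ) / q))
      have h3 := dd_add_ge ((b : ℝ) ^ js s * ((p : ℝ) / q)) ((b : ℝ) ^ js s * β)
      have h4 : (b : ℝ) ^ js s * ((p : ℝ) / q) + (b : ℝ) ^ js s * β = (b : ℝ) ^ js s * θ := by rw [hβ]; ring
      rw [h4] at h3
      have h5 := hβj (js s) (hjK s hs).le
      have h6 : 2 * Real.pi * |(b : ℝ) ^ js s * β| ≤ 1 / b := by
        calc 2 * Real.pi * |(b : ℝ) ^ js s * β| ≤ 2 * 4 * (1 / (8 * b)) := by
              have := Real.pi_pos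
              have := Real.pi_le_four
              gcongr
              exact h5.trans hHr
          _ = 1 / b := by field_simp; norm_num
      have h7 : 4 * (1 / (2 * (b : ℝ))) = 2 / b := by field_simp; norm_num
      have h8 : 1 / (b : ℝ) ≤ dd ((b : ℝ) ^ js s * θ) := by
        have : 2 / (b : ℝ) = 1 / b + 1 / b := by ring
        linarith
      simp only [hf]
      exact gg_far hb (hw _ hjJ) _ (by positivity) h8
    refine (hsub G hGK).trans ?_
    refine (prod_le_prod (fun j _ => hf0 j) hGf).trans ?_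
    rw [prod_const]
    exact pow_le_pow_of_le_one (rho_pos hb).le (rho_lt hb).le hGcard

/-- the number of major arcs points -/
theorem major_card {N W : ℕ} (hW : 1 ≤ W) (hWN : W < N) (M : Finset ℕ) (hM : ∀ a ∈ M, a < N ∧ ∃ q : ℕ, ∃ p : ℤ, 1 ≤ q ∧ q ≤ W ∧
    |(a : ℝ) / (N : ℝ) - p / q| ≤ (W : ℝ) / ((N : ℝ) * q)) : M.card ≤ 6 * W ^ 3 := by
  classical
  set f : ℕ × ℕ × ℕ → ℕ := fun x => (((N : ℤ) * x.2.1 + x.2.2 - W) / (x.1 : ℤ)).toNat with hf
  have hsub : M ⊆ ((Icc 1 W) ×ˢ (range (W + 1)) ×ˢ (range (2 * W + 1))).image f := by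
    intro a ha
    obtain ⟨haN, q, p, hq1, hq2, h⟩ := hM a ha
    have hN0 : (0 : ℝ) < N := by exact_mod_cast (by omega : 0 < N)
    have hq0 : (0 : ℝ) < q := by exact_mod_cast hq1
    have h1 : |((a * q - N * p : ℤ) : ℝ)| ≤ W := by
      have e1 : ((a * q - N * p : ℤ) : ℝ) = ((a : ℝ) / N - p / q) * (N * q) := by push_cast; field_simp
      rw [e1, abs_mul, abs_of_pos (show (0 : ℝ) < (N : ℝ) * q by positivity)]
      calc |(a : ℝ) / (N : ℝ) - p / q| * (N * q) ≤ (W : ℝ) / ((N : ℝ) * q) * (N * q) := by gcongr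
        _ = W := by field_simp
    have h2 : |(a * q - N * p : ℤ)| ≤ W := by
      rw [← Int.cast_abs] at h1
      exact_mod_cast h1
    rw [abs_le] at h2
    obtain ⟨h3, h4⟩ := h2
    have hp0 : 0 ≤ p := by
      by_contra hp
      push Not at hp
      have : (N : ℤ) * p ≤ -N := by nlinarith [show (0 : ℤ) ≤ N by positivity]
      have : (0 : ℤ) ≤ a * q := by positivity
      have : (W : ℤ) < N := by exact_mod_cast hWN
      linarith
    have hpq : p ≤ q := by
      by_contra hp
      push Not at hp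
      have h5 : (N : ℤ) * (q + 1) ≤ N * p := by
        apply mul_le_mul_of_nonneg_left (by omega) (by positivity)
      have h6 : (a : ℤ) * q ≤ N * q := by
        apply mul_le_mul_of_nonneg_right (by exact_mod_cast haN.le) (by positivity)
      have : (W : ℤ) < N := by exact_mod_cast hWN
      linarith
    rw [mem_image]
    refine ⟨(q, p.toNat, (a * q - N * p + W).toNat), ?_, ?_⟩
    · rw [mem_product, mem_product, mem_Icc, mem_range, mem_range]
      refine ⟨⟨hq1, hq2⟩, ?_, ?_⟩
      · simp only; omega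
      · simp only; omega
    · simp only [hf]
      rw [Int.toNat_of_nonneg hp0, Int.toNat_of_nonneg (by linarith)]
      have e1 : (N : ℤ) * p + (a * q - N * p + W) - W = a * q := by ring
      rw [e1, Int.mul_ediv_cancel _ (by omega)]
      simp
  refine (card_le_card hsub).trans (card_image_le.trans ?_)
  rw [card_product, card_product, Nat.card_Icc, card_range, card_range, Nat.add_sub_cancel]
  have h1 : W + 1 ≤ 2 * W := by omega
  have h2 : 2 * W + 1 ≤ 3 * W := by omega
  calc W * ((W + 1) * (2 * W + 1)) ≤ W * ((2 * W) * (3 * W)) := by gcongr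
    _ = 6 * W ^ 3 := by ring

end Pool.Agent.V7H99.SY
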