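import Mathlib
import Pool.Agent.V7H99.SY.D

/-! Sums over primes of digit functions with few nonzero weights: the main bound (helper99). -/

set_option autoImplicit false

namespace Pool.Agent.V7H99.SY
open Finset
open Pool.Agent.H807R2.Dav

/-- `Λ` as a complex number -/
noncomputable def Lam (n : ℕ) : ℂ := ((ArithmeticFunction.vonMangoldt n : ℝ) : ℂ)

lemma norm_Lam (n : ℕ) : ‖Lam n‖ = ArithmeticFunction.vonMangoldt n := by
  unfold Lam
  rw [Complex.norm_real, Real.norm_of_nonneg ArithmeticFunction.vonMangoldt_nonneg]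

lemma sum_Lam_le (N : ℕ) : ∑ n ∈ range N, ‖Lam n‖ ≤ 6 * N := by
  simp only [norm_Lam]
  have h1 : ∑ n ∈ range N, (ArithmeticFunction.vonMangoldt n : ℝ) ≤ Chebyshev.psi (N : ℝ) := by
    rw [Chebyshev.psi_eq_sum_Icc, Nat.floor_natCast]
    apply sum_le_sum_of_subset_of_nonneg
    · intro n hn
      rw [mem_range] at hn
      rw [mem_Icc]
      omega
    · intro n _ _
      exact ArithmeticFunction.vonMangoldt_nonneg
  refine h1.trans ((Chebyshev.psi_le_const_mul_self (Nat.cast_nonneg N)).trans ?_)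
  have hlog4 : Real.log 4 ≤ 2 := by
    have h1 : Real.log 4 = 2 * Real.log 2 := by
      rw [show (4 : ℝ) = 2 ^ 2 by norm_num, Real.log_pow]; push_cast; ring
    have := Real.log_two_lt_d9
    linarith
  have : (0 : ℝ) ≤ N := Nat.cast_nonneg N
  nlinarith

lemma sum_range_Lam {N : ℕ} (hN : 3 ≤ N) (α : ℝ) :
    ‖∑ n ∈ range N, Lam n * ee ((n : ℝ) * α)‖ ≤ ‖∑ n ∈ Icc 1 N, Lam n * ee ((n : ℝ) * α)‖ + Real.log N := by
  have h1 : ∑ n ∈ Icc 1 N, Lam n * ee ((n : ℝ) * α) = ∑ n ∈ range N, Lam n * ee ((n : ℝ) * α) + Lam N * ee ((N : ℝ) * α) := by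
    rw [← sum_range_succ, range_eq_Ico, sum_eq_sum_Ico_succ_bot (by omega)]
    have h0 : Lam 0 * ee (((0 : ℕ) : ℝ) * α) = 0 := by unfold Lam; simp
    rw [h0, zero_add]
    apply sum_congr _ fun _ _ => rfl
    ext n; rw [mem_Icc, mem_Ico]; omega
  have h2 : ∑ n ∈ range N, Lam n * ee ((n : ℝ) * α) = ∑ n ∈ Icc 1 N, Lam n * ee ((n : ℝ) * α) - Lam N * ee ((N : ℝ) * α) := by
    rw [h1]; ring
  rw [h2]
  refine (norm_sub_le _ _).trans ?_
  gcongr
  rw [norm_mul, norm_ee, mul_one, norm_Lam]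
  exact ArithmeticFunction.vonMangoldt_le_log

theorem exp_bound : ∃ N0 : ℕ, ∀ b : ℕ, 2 ≤ b → ∀ (K m : ℕ) (w : ℕ → ℕ) (J : Finset ℕ) (i : ℕ), N0 ≤ b ^ K →
    2 ^ m ≤ Nat.sqrt (Nat.sqrt (b ^ K)) → 8 * b * 2 ^ m * b ^ (K / 2) ≤ b ^ K → J ⊆ range K → (∀ j, j ∉ J → w j = 0) →
    m ≤ i → i ≤ K / 2 → i < K → ¬ b ∣ w i →
    ‖∑ n ∈ range (b ^ K), Lam n * FF b w K n‖ ≤
      (45 * b ^ 2 * K) ^ J.card * (130001 * Real.log ((b ^ K : ℕ) : ℝ) ^ 7 * (((b ^ K : ℕ) : ℝ) / √((2 : ℝ) ^ m))) +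
      36 * 8 ^ m * (b : ℝ) ^ K * max (2 * Real.pi * b * (2 ^ m * (b : ℝ) ^ (K / 2) / (b : ℝ) ^ K)) (rho b ^ (K / (2 * (m + 1)) - J.card)) := by
  classical
  obtain ⟨N1, hmin⟩ := minorW
  refine ⟨max N1 16, fun b hb K m w J i hN hWV hH hJ hw hmi hiK hi hwi => ?_⟩
  have hN1 : N1 ≤ b ^ K := le_trans (le_max_left _ _) hN
  have hN16 : 16 ≤ b ^ K := le_trans (le_max_right _ _) hN
  set N := b ^ K with hNdef
  have : NeZero N := ⟨by omega⟩
  have hNr : (16 : ℝ) ≤ N := by exact_mod_cast hN16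
  have hN0 : (0 : ℝ) < N := by linarith
  have hl1 : 1 ≤ Real.log N := by
    have h1 : Real.exp 1 ≤ N := by
      have := Real.exp_one_lt_d9
      linarith
    have h2 := Real.log_le_log (Real.exp_pos 1) h1
    rwa [Real.log_exp] at h2
  set W : ℕ := 2 ^ m with hW
  have hW1 : 1 ≤ W := Nat.one_le_two_pow
  have hWr : (1 : ℝ) ≤ W := by exact_mod_cast hW1
  have hWc : (W : ℝ) = 2 ^ m := by rw [hW]; push_cast; rfl
  have hVN : Nat.sqrt (Nat.sqrt N) ≤ Nat.sqrt N := Nat.sqrt_le_self _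
  have hWN : W < N := by
    have h1 : Nat.sqrt N < N := Nat.sqrt_lt_self (by omega)
    omega
  have hWWN : W * W ≤ N := by
    have h1 : W ≤ Nat.sqrt N := hWV.trans hVN
    calc W * W ≤ Nat.sqrt N * Nat.sqrt N := Nat.mul_le_mul h1 h1
      _ ≤ N := Nat.sqrt_le _
  set D := N / W with hD
  have hD1 : 1 ≤ D := by
    rw [hD, Nat.one_le_div_iff (by omega)]; omega
  have hDr : (D : ℝ) ≤ N / W := Nat.cast_div_le
  have hDr2 : (N : ℝ) / W ≤ D + 1 := by
    rw [div_le_iff₀ (by linarith)]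
    have h1 := Nat.lt_div_mul_add (a := N) (b := W) (by omega)
    have h2 : N ≤ (D + 1) * W := by rw [add_mul, one_mul]; exact h1.le
    exact_mod_cast h2
  set M : Finset ℕ := (range N).filter (fun a => ∃ q : ℕ, ∃ p : ℤ, 1 ≤ q ∧ q ≤ W ∧ IsCoprime p (q : ℤ) ∧
    |(a : ℝ) / (N : ℝ) - p / q| ≤ (W : ℝ) / ((N : ℝ) * q)) with hM
  have hMcard : M.card ≤ 6 * W ^ 3 := by
    apply major_card hW1 hWN
    intro a ha
    rw [hM, mem_filter, mem_range] at ha
    obtain ⟨h1, q, p, h2, h3, -, h5⟩ := ha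
    exact ⟨h1, q, p, h2, h3, h5⟩
  rw [ft_pair (N := N) (FF b w K) Lam]
  set T : ℕ → ℂ := fun a => ∑ n ∈ range N, Lam n * ee ((n : ℝ) * ((a : ℝ) / N)) with hT
  have hTtriv : ∀ a, ‖T a‖ ≤ 6 * N := by
    intro a
    refine (norm_sum_le _ _).trans (le_trans (le_of_eq ?_) (sum_Lam_le N))
    apply sum_congr rfl; intro n _
    rw [norm_mul, norm_ee, mul_one]
  set B : ℝ := 130001 * Real.log N ^ 7 * ((N : ℝ) / √((2 : ℝ) ^ m)) with hB
  have hB0 : 0 ≤ B := by positivity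
  have hTmin : ∀ a ∈ range N, a ∉ M → ‖T a‖ ≤ B := by
    intro a ha haM
    set θ : ℝ := (a : ℝ) / N with hθ
    obtain ⟨r, hr1, hr2⟩ := Real.exists_rat_abs_sub_le_and_den_le θ (n := D) hD1
    have hden0 : (0 : ℝ) < r.den := by exact_mod_cast r.den_pos
    have hrcast : (r : ℝ) = (r.num : ℝ) / (r.den : ℝ) := by exact_mod_cast (Rat.num_div_den r).symm
    rw [hrcast] at hr1
    have hcop : IsCoprime r.num (r.den : ℤ) := by
      rw [Int.isCoprime_iff_gcd_eq_one]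
      exact r.reduced
    have hgt : W < r.den := by
      by_contra hle
      push Not at hle
      apply haM
      rw [hM, mem_filter]
      refine ⟨ha, r.den, r.num, r.den_pos, hle, hcop, hr1.trans ?_⟩
      rw [div_le_div_iff₀ (by positivity) (by positivity), one_mul]
      calc (N : ℝ) * r.den = (N / W) * (W * r.den) := by field_simp
        _ ≤ (D + 1) * (W * r.den) := by gcongr
        _ = W * ((D + 1) * r.den) := by ring
    have hmm := hmin N hN1 W hWr (by exact_mod_cast hWV) r.den (by exact_mod_cast hgt.le) (by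
      calc (r.den : ℝ) ≤ D := by exact_mod_cast hr2
        _ ≤ N / W := hDr) r.num hcop θ (by
      refine hr1.trans ?_
      rw [div_le_div_iff₀ (by positivity) (by positivity), one_mul, one_mul, pow_two]
      have h1 : (r.den : ℝ) ≤ D := by exact_mod_cast hr2
      nlinarith)
    have h2 := sum_range_Lam (N := N) (by omega) θ
    have h3 : ‖T a‖ ≤ 130000 * Real.log N ^ 7 * (N / √(W : ℝ)) + Real.log N := by
      refine h2.trans ?_
      gcongr
      exact hmm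
    refine h3.trans ?_
    rw [hB, ← hWc]
    have h4 : (1 : ℝ) ≤ N / √(W : ℝ) := by
      have hs0 : 0 < √(W : ℝ) := Real.sqrt_pos.2 (by linarith)
      rw [le_div_iff₀ hs0, one_mul]
      calc √(W : ℝ) ≤ √((W : ℝ) ^ 2) := Real.sqrt_le_sqrt (by nlinarith)
        _ = W := Real.sqrt_sq (by linarith)
        _ ≤ N := by exact_mod_cast hWN.le
    have h5 : Real.log N ≤ Real.log N ^ 7 := le_self_pow₀ hl1 (by norm_num)
    nlinarith [mul_nonneg (sub_nonneg.2 h4) (show (0 : ℝ) ≤ Real.log N ^ 7 by positivity)]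
  set c : ℕ → ℝ := fun a => ‖ft N (FF b w K) a‖ with hc
  set tiny : ℝ := max (2 * Real.pi * b * (2 ^ m * (b : ℝ) ^ (K / 2) / (b : ℝ) ^ K)) (rho b ^ (K / (2 * (m + 1)) - J.card)) with htiny
  have hcM : ∀ a ∈ M, c a ≤ tiny := by
    intro a ha
    rw [hM, mem_filter, mem_range] at ha
    obtain ⟨h1, q, p, h2, h3, h4, h5⟩ := ha
    refine coeff_major hb hH w J hw i hmi hiK hi hwi a q p h4 h2 h3 ?_
    rw [← hWc]
    exact h5
  have hwi : ∑ a ∈ range N, c a ≤ (45 * b ^ 2 * K) ^ J.card := wiener hb K w J hJ hw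
  have hbound : ∀ a ∈ range N, ‖ft N (FF b w K) a * T a‖ ≤ c a * B + (if a ∈ M then tiny * (6 * N) else 0) := by
    intro a ha
    rw [norm_mul]
    have hc0 : 0 ≤ c a := norm_nonneg _
    split_ifs with haM
    · have h1 : c a * ‖T a‖ ≤ tiny * (6 * N) :=
        mul_le_mul (hcM a haM) (hTtriv a) (norm_nonneg _) (hc0.trans (hcM a haM))
      have h2 : 0 ≤ c a * B := by positivity
      show c a * ‖T a‖ ≤ _
      linarith
    · rw [add_zero]
      exact mul_le_mul_of_nonneg_left (hTmin a ha haM) hc0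
  have htiny0 : 0 ≤ tiny := le_trans (by positivity) (le_max_left _ _)
  refine (norm_sum_le _ _).trans ((sum_le_sum hbound).trans ?_)
  rw [sum_add_distrib, ← sum_mul, ← sum_filter]
  apply add_le_add
  · exact mul_le_mul_of_nonneg_right hwi hB0
  · rw [sum_const, nsmul_eq_mul]
    have h1 : ((range N).filter (fun a => a ∈ M)).card ≤ 6 * W ^ 3 := by
      refine (card_le_card ?_).trans hMcard
      intro a ha
      exact (mem_filter.1 ha).2
    have h2 : (((range N).filter (fun a => a ∈ M)).card : ℝ) ≤ 6 * (8 : ℝ) ^ m := by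
      have h3 : (((range N).filter (fun a => a ∈ M)).card : ℝ) ≤ ((6 * W ^ 3 : ℕ) : ℝ) := by exact_mod_cast h1
      refine h3.trans (le_of_eq ?_)
      push_cast
      rw [hWc, ← pow_mul, mul_comm m 3, pow_mul]; norm_num
    have hNe : (N : ℝ) = (b : ℝ) ^ K := by rw [hNdef]; push_cast; rfl
    calc _ ≤ 6 * (8 : ℝ) ^ m * (tiny * (6 * N)) := by gcongr
      _ = _ := by rw [hNe]; ring

end Pool.Agent.V7H99.SY
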