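import Mathlib
import Pool.Agent.V7H99.SY.E
import Pool.Agent.V7H99.SY.Ev

/-! Sums over primes of digit functions: choice of the parameters (helper99). -/

set_option autoImplicit false

namespace Pool.Agent.V7H99.SY
open Finset
open Pool.Agent.H807R2.Dav

lemma pow_half {b K e : ℕ} (hb : 2 ≤ b) (he : e + 1 ≤ K - K / 2) : 2 ^ e * b * b ^ (K / 2) ≤ b ^ K := by
  have h1 : b ^ K = b ^ (K - K / 2 - 1) * b * b ^ (K / 2) := by
    rw [← pow_succ, ← pow_add]; congr 1; omega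
  rw [h1]
  apply Nat.mul_le_mul_right
  apply Nat.mul_le_mul_right
  calc 2 ^ e ≤ 2 ^ (K - K / 2 - 1) := Nat.pow_le_pow_right (by norm_num) (by omega)
    _ ≤ b ^ (K - K / 2 - 1) := Nat.pow_le_pow_left hb _

theorem exp_clean {b : ℕ} (hb : 2 ≤ b) (B : ℕ) : ∃ D K0 : ℕ, 1 ≤ D ∧ ∀ K : ℕ, K0 ≤ K → ∀ (m : ℕ) (w : ℕ → ℕ) (J : Finset ℕ) (i : ℕ),
    m ≤ B * (Nat.log 2 K + 1) ^ 2 → J.card ≤ B * (Nat.log 2 K + 1) ^ 2 → J ⊆ range K → (∀ j, j ∉ J → w j = 0) →
    m ≤ i → i ≤ K / 2 → i < K → ¬ b ∣ w i →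
    ‖∑ n ∈ range (b ^ K), Lam n * FF b w K n‖ ≤ ((D : ℝ) * K) ^ (J.card + 8) * ((b : ℝ) ^ K / √((2 : ℝ) ^ m)) := by
  obtain ⟨N0, hN0⟩ := exp_bound
  obtain ⟨c0, hc0⟩ := exists_pow_lt_of_lt_one (show (0 : ℝ) < 1 / 2 by norm_num) (rho_lt hb)
  obtain ⟨K1, hK1⟩ := ev_log (2 * (B + 1) * (B + c0 * (6 + 4 * B)) + 20 * B + 40) 4
  refine ⟨130002 * b ^ 7, max (max K1 N0) 2, by
    have : 1 ≤ b ^ 7 := Nat.one_le_pow _ _ (by omega)
    omega, fun K hK m w J i hm hJ hJK hw hmi hiK hi hwi => ?_⟩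
  have hKa : K1 ≤ K := le_trans (le_trans (le_max_left _ _) (le_max_left _ _)) hK
  have hKb : N0 ≤ K := le_trans (le_trans (le_max_right _ _) (le_max_left _ _)) hK
  have hK2 : 2 ≤ K := le_trans (le_max_right _ _) hK
  have hbig := hK1 K hKa
  set u := Nat.log 2 K with hu
  set s := (u + 1) ^ 2 with hs
  have hs1 : 1 ≤ s := Nat.one_le_pow _ _ (by omega)
  have hss : (u + 1) ^ 4 = s * s := by rw [hs]; ring
  rw [hss] at hbig
  have hsss : s ≤ s * s := Nat.le_mul_of_pos_left _ (by omega)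
  have hlin : (20 * B + 40) * s ≤ K := by
    calc (20 * B + 40) * s ≤ (20 * B + 40) * (s * s) := Nat.mul_le_mul_left _ hsss
      _ ≤ (2 * (B + 1) * (B + c0 * (6 + 4 * B)) + 20 * B + 40) * (s * s) := by
          apply Nat.mul_le_mul_right; omega
      _ ≤ K := hbig
  have hlin2 : 20 * (B * s) + 40 * s ≤ K := by
    calc 20 * (B * s) + 40 * s = (20 * B + 40) * s := by ring
      _ ≤ K := hlin
  have hb0 : (0 : ℝ) < b := by exact_mod_cast (by omega : 0 < b)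
  have hb2 : (2 : ℝ) ≤ b := by exact_mod_cast hb
  have hb1 : (1 : ℝ) ≤ b := by linarith
  have hNK : N0 ≤ b ^ K := by
    calc N0 ≤ K := hKb
      _ ≤ 2 ^ K := Nat.lt_two_pow_self.le
      _ ≤ b ^ K := Nat.pow_le_pow_left hb _
  have hWV : 2 ^ m ≤ Nat.sqrt (Nat.sqrt (b ^ K)) := by
    rw [Nat.le_sqrt, Nat.le_sqrt]
    calc 2 ^ m * 2 ^ m * (2 ^ m * 2 ^ m) = 2 ^ (4 * m) := by rw [← pow_add, ← pow_add]; congr 1; ring
      _ ≤ 2 ^ K := Nat.pow_le_pow_right (by norm_num) (by omega)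
      _ ≤ b ^ K := Nat.pow_le_pow_left hb _
  have hH : 8 * b * 2 ^ m * b ^ (K / 2) ≤ b ^ K := by
    calc 8 * b * 2 ^ m * b ^ (K / 2) = 2 ^ (3 + m) * b * b ^ (K / 2) := by rw [pow_add]; ring
      _ ≤ b ^ K := pow_half hb (by omega)
  have h := hN0 b hb K m w J i hNK hWV hH hJK hw hmi hiK hi hwi
  refine h.trans ?_
  have hlog : Real.log ((b ^ K : ℕ) : ℝ) ≤ b * K := by
    rw [Nat.cast_pow, Real.log_pow]
    have h2 : Real.log b ≤ b := (Real.log_le_sub_one_of_pos hb0).trans (by linarith)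
    calc (K : ℝ) * Real.log b ≤ K * b := by gcongr
      _ = b * K := mul_comm _ _
  have hlog0 : 0 ≤ Real.log ((b ^ K : ℕ) : ℝ) := Real.log_natCast_nonneg _
  have hNe : ((b ^ K : ℕ) : ℝ) = (b : ℝ) ^ K := by push_cast; rfl
  set N : ℝ := (b : ℝ) ^ K with hN
  have hNpos : 0 < N := by positivity
  have hsq0 : 0 < √((2 : ℝ) ^ m) := Real.sqrt_pos.2 (by positivity)
  have hsq1 : √((2 : ℝ) ^ m) ≤ 2 ^ m := by
    rw [Real.sqrt_le_left (by positivity)]
    have : (1 : ℝ) ≤ 2 ^ m := one_le_pow₀ (by norm_num)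
    nlinarith
  -- the small term
  have hmax : 36 * 8 ^ m * N * max (2 * Real.pi * b * (2 ^ m * (b : ℝ) ^ (K / 2) / N)) (rho b ^ (K / (2 * (m + 1)) - J.card)) ≤
      N / √((2 : ℝ) ^ m) := by
    rw [le_div_iff₀ hsq0]
    have h1 : 36 * 8 ^ m * max (2 * Real.pi * b * (2 ^ m * (b : ℝ) ^ (K / 2) / N)) (rho b ^ (K / (2 * (m + 1)) - J.card)) * 2 ^ m ≤ 1 := by
      have h2 : (36 : ℝ) * 8 ^ m * 2 ^ m ≤ 2 ^ (6 + 4 * m) := by
        have : (2 : ℝ) ^ (6 + 4 * m) = 64 * (8 ^ m * 2 ^ m) := by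
          rw [pow_add, pow_mul, ← mul_pow]; norm_num
        rw [this]
        have : (0 : ℝ) < 8 ^ m * 2 ^ m := by positivity
        nlinarith
      have h3 : max (2 * Real.pi * b * (2 ^ m * (b : ℝ) ^ (K / 2) / N)) (rho b ^ (K / (2 * (m + 1)) - J.card)) ≤ 1 / 2 ^ (6 + 4 * m) := by
        apply max_le
        · rw [le_div_iff₀ (by positivity)]
          have h4 : ((2 ^ (9 + 5 * m) * b * b ^ (K / 2) : ℕ) : ℝ) ≤ N := by
            rw [← hNe]
            exact_mod_cast pow_half hb (by omega)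
          push_cast at h4
          have hpi := Real.pi_le_four
          have hpi0 := Real.pi_pos
          calc 2 * Real.pi * b * (2 ^ m * (b : ℝ) ^ (K / 2) / N) * 2 ^ (6 + 4 * m)
              ≤ 2 * 4 * b * (2 ^ m * (b : ℝ) ^ (K / 2) / N) * 2 ^ (6 + 4 * m) := by gcongr
            _ = (2 ^ (9 + 5 * m) * b * (b : ℝ) ^ (K / 2)) / N := by
                rw [show 9 + 5 * m = 3 + m + (6 + 4 * m) by ring, pow_add, pow_add]; ring
            _ ≤ 1 := by rw [div_le_one hNpos]; exact h4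
        · have h4 : c0 * (6 + 4 * m) ≤ K / (2 * (m + 1)) - J.card := by
            have h5 : J.card + c0 * (6 + 4 * m) ≤ K / (2 * (m + 1)) := by
              rw [Nat.le_div_iff_mul_le (by omega)]
              have h6 : J.card + c0 * (6 + 4 * m) ≤ (B + c0 * (6 + 4 * B)) * s := by
                have h7 : 6 + 4 * m ≤ (6 + 4 * B) * s := by
                  calc 6 + 4 * m ≤ 6 * s + 4 * (B * s) := by omega
                    _ = (6 + 4 * B) * s := by ring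
                calc J.card + c0 * (6 + 4 * m) ≤ B * s + c0 * ((6 + 4 * B) * s) := by gcongr
                  _ = _ := by ring
              have h8 : 2 * (m + 1) ≤ 2 * (B + 1) * s := by
                calc 2 * (m + 1) ≤ 2 * (B * s + s) := by omega
                  _ = _ := by ring
              calc (J.card + c0 * (6 + 4 * m)) * (2 * (m + 1)) ≤ ((B + c0 * (6 + 4 * B)) * s) * (2 * (B + 1) * s) := by gcongr
                _ = 2 * (B + 1) * (B + c0 * (6 + 4 * B)) * (s * s) := by ring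
                _ ≤ (2 * (B + 1) * (B + c0 * (6 + 4 * B)) + 20 * B + 40) * (s * s) := by
                    apply Nat.mul_le_mul_right; omega
                _ ≤ K := hbig
            omega
          calc rho b ^ (K / (2 * (m + 1)) - J.card) ≤ rho b ^ (c0 * (6 + 4 * m)) :=
                pow_le_pow_of_le_one (rho_pos hb).le (rho_lt hb).le h4
            _ = (rho b ^ c0) ^ (6 + 4 * m) := pow_mul _ _ _
            _ ≤ (1 / 2) ^ (6 + 4 * m) := pow_le_pow_left₀ (by have := rho_pos hb; positivity) hc0.le _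
            _ = 1 / 2 ^ (6 + 4 * m) := by rw [div_pow, one_pow]
      have hpos : (0 : ℝ) < 2 ^ (6 + 4 * m) := by positivity
      calc 36 * 8 ^ m * max (2 * Real.pi * b * (2 ^ m * (b : ℝ) ^ (K / 2) / N)) (rho b ^ (K / (2 * (m + 1)) - J.card)) * 2 ^ m
          = (36 * 8 ^ m * 2 ^ m) * max (2 * Real.pi * b * (2 ^ m * (b : ℝ) ^ (K / 2) / N)) (rho b ^ (K / (2 * (m + 1)) - J.card)) := by ring
        _ ≤ 2 ^ (6 + 4 * m) * (1 / 2 ^ (6 + 4 * m)) := by
            apply mul_le_mul h2 h3 _ hpos.le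
            exact le_trans (pow_nonneg (rho_pos hb).le _) (le_max_right _ _)
        _ = 1 := by field_simp
    have hmax0 : 0 ≤ max (2 * Real.pi * b * (2 ^ m * (b : ℝ) ^ (K / 2) / N)) (rho b ^ (K / (2 * (m + 1)) - J.card)) :=
      le_trans (pow_nonneg (rho_pos hb).le _) (le_max_right _ _)
    calc 36 * 8 ^ m * N * max (2 * Real.pi * b * (2 ^ m * (b : ℝ) ^ (K / 2) / N)) (rho b ^ (K / (2 * (m + 1)) - J.card)) * √((2 : ℝ) ^ m)
        ≤ 36 * 8 ^ m * N * max (2 * Real.pi * b * (2 ^ m * (b : ℝ) ^ (K / 2) / N)) (rho b ^ (K / (2 * (m + 1)) - J.card)) * 2 ^ m := by gcongr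
      _ = N * (36 * 8 ^ m * max (2 * Real.pi * b * (2 ^ m * (b : ℝ) ^ (K / 2) / N)) (rho b ^ (K / (2 * (m + 1)) - J.card)) * 2 ^ m) := by ring
      _ ≤ N * 1 := by gcongr
      _ = N := mul_one _
  rw [hNe] at hlog hlog0 ⊢
  set Q : ℝ := N / √((2 : ℝ) ^ m) with hQ
  have hQ0 : 0 < Q := by positivity
  have hK1r : (1 : ℝ) ≤ K := by exact_mod_cast (by omega : 1 ≤ K)
  set E : ℝ := ((130002 * b ^ 7 : ℕ) : ℝ) * K with hE
  have hE1 : 45 * (b : ℝ) ^ 2 * K ≤ E := by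
    rw [hE]; push_cast
    have : (b : ℝ) ^ 2 ≤ b ^ 7 := pow_le_pow_right₀ hb1 (by norm_num)
    have h0 : (0 : ℝ) < b ^ 7 := by positivity
    apply mul_le_mul_of_nonneg_right _ (by linarith)
    linarith
  have hE2 : 1 ≤ E := by
    refine le_trans ?_ hE1
    have : (1 : ℝ) ≤ b ^ 2 := one_le_pow₀ hb1
    calc (1 : ℝ) = 1 * 1 * 1 := by norm_num
      _ ≤ 45 * (b : ℝ) ^ 2 * K := by gcongr; norm_num
  have hE3 : 130001 * (b * K : ℝ) ^ 7 + 1 ≤ E ^ 8 := by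
    have h1 : (1 : ℝ) ≤ (b * K : ℝ) ^ 7 := by
      apply one_le_pow₀
      calc (1 : ℝ) = 1 * 1 := by norm_num
        _ ≤ b * K := by gcongr
    have h2 : 130001 * (b * K : ℝ) ^ 7 + 1 ≤ 130002 * (b * K : ℝ) ^ 7 := by linarith
    have h3 : 130002 * (b * K : ℝ) ^ 7 ≤ E * K ^ 6 := by
      rw [hE]; push_cast; rw [mul_pow]
      apply le_of_eq; ring
    have h4 : (K : ℝ) ≤ E := by
      rw [hE]; push_cast
      have : (1 : ℝ) ≤ 130002 * b ^ 7 := by
        have : (1 : ℝ) ≤ b ^ 7 := one_le_pow₀ hb1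
        linarith
      exact le_mul_of_one_le_left (by linarith) this
    calc 130001 * (b * K : ℝ) ^ 7 + 1 ≤ E * K ^ 6 := h2.trans h3
      _ ≤ E * E ^ 6 := by gcongr
      _ = E ^ 7 := by ring
      _ ≤ E ^ 8 := pow_le_pow_right₀ hE2 (by norm_num)
  have hEJ : 1 ≤ E ^ J.card := one_le_pow₀ hE2
  calc (45 * (b : ℝ) ^ 2 * K) ^ J.card * (130001 * Real.log N ^ 7 * Q) + 36 * 8 ^ m * N * max (2 * Real.pi * b * (2 ^ m * (b : ℝ) ^ (K / 2) / N)) (rho b ^ (K / (2 * (m + 1)) - J.card))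
      ≤ E ^ J.card * (130001 * (b * K : ℝ) ^ 7 * Q) + 1 * Q := by
        apply add_le_add
        · gcongr
        · rw [one_mul]; exact hmax
    _ ≤ E ^ J.card * (130001 * (b * K : ℝ) ^ 7 * Q) + E ^ J.card * Q := by gcongr
    _ = E ^ J.card * (130001 * (b * K : ℝ) ^ 7 + 1) * Q := by ring
    _ ≤ E ^ J.card * E ^ 8 * Q := by gcongr
    _ = E ^ (J.card + 8) * Q := by rw [pow_add]

end Pool.Agent.V7H99.SY
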