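import Mathlib
import Pool.Agent.V7H99.SY.R2
import Pool.Agent.V7H99.SY.R3

/-! Exponential sums of the difference (helper99). -/

set_option autoImplicit false

namespace Pool.Agent.V7H99.SY
open Finset
open Pool.Agent.H807R2.Dav

lemma FF_shift {b k i r d s : ℕ} (hb : 1 ≤ b) (hi : i < k) (hr : r < b ^ i) (hd : d < b) (w : ℕ → ℕ) :
    FF b w k (r + d * b ^ i + s * b ^ (i + 1)) = FF b w k (r + s * b ^ (i + 1)) * ee ((d : ℝ) * ((w i : ℝ) / b)) := by
  unfold FF
  have e1 : r + d * b ^ i + s * b ^ (i + 1) = r + (d + s * b) * b ^ i := by rw [pow_succ]; ring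
  have e2 : r + s * b ^ (i + 1) = r + (s * b) * b ^ i := by rw [pow_succ]; ring
  have hrd : r + d * b ^ i < b ^ (i + 1) := by
    calc r + d * b ^ i < b ^ i + d * b ^ i := by omega
      _ = (d + 1) * b ^ i := by ring
      _ ≤ b * b ^ i := Nat.mul_le_mul_right _ (by omega)
      _ = b ^ (i + 1) := by rw [pow_succ]; ring
  have hr2 : r < b ^ (i + 1) := by
    have : b ^ i ≤ b ^ (i + 1) := Nat.pow_le_pow_right hb (by omega)
    omega
  rw [← mul_prod_erase (range k) _ (mem_range.2 hi)]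
  conv_rhs => rw [← mul_prod_erase (range k) _ (mem_range.2 hi)]
  have h1 : dg b i (r + d * b ^ i + s * b ^ (i + 1)) = d := by
    rw [dg_add_low hb (by omega), dg_add_top hb hr hd]
  have h2 : dg b i (r + s * b ^ (i + 1)) = 0 := by
    rw [dg_add_low hb (by omega)]
    unfold dg
    rw [Nat.div_eq_of_lt hr, Nat.zero_mod]
  rw [h1, h2, Nat.cast_zero, zero_mul, ee_zero, one_mul, mul_comm]
  congr 1
  apply prod_congr rfl
  intro j hj
  rw [mem_erase] at hj
  have h3 : dg b j (r + d * b ^ i + s * b ^ (i + 1)) = dg b j (r + s * b ^ (i + 1)) := by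
    rcases Nat.lt_or_ge j i with h | h
    · rw [e1, e2, dg_add_low hb h, dg_add_low hb h]
    · obtain ⟨c, rfl⟩ : ∃ c, j = (i + 1) + c := ⟨j - (i + 1), by omega⟩
      unfold dg
      have hq : ∀ n, n / b ^ (i + 1 + c) = n / b ^ (i + 1) / b ^ c := by
        intro n
        rw [Nat.div_div_eq_div_mul, ← pow_add]
      rw [hq, hq (r + s * b ^ (i + 1)), Nat.add_mul_div_right _ _ (by positivity),
        Nat.add_mul_div_right _ _ (by positivity), Nat.div_eq_of_lt hrd, Nat.div_eq_of_lt hr2]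
  rw [h3]

/-- functions which do not depend on the `i`-th digit are orthogonal to the nontrivial characters at `i` -/
lemma dorth {b k i : ℕ} (hb : 1 ≤ b) (hi : i < k) (w : ℕ → ℕ) (hw : ¬ b ∣ w i) (G : ℕ → ℂ)
    (hG : ∀ r d s : ℕ, r < b ^ i → d < b → G (r + d * b ^ i + s * b ^ (i + 1)) = G (r + s * b ^ (i + 1))) :
    ∑ n ∈ range (b ^ k), G n * FF b w k n = 0 := by
  have e : b ^ k = b ^ (i + 1) * b ^ (k - (i + 1)) := by rw [← pow_add]; congr 1; omega
  rw [e, sum_split' (by positivity), sum_split hb i]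
  apply sum_eq_zero; intro r hr
  rw [mem_range] at hr
  rw [sum_comm]
  apply sum_eq_zero; intro s _
  have h1 : ∀ d ∈ range b, G (r + d * b ^ i + s * b ^ (i + 1)) * FF b w k (r + d * b ^ i + s * b ^ (i + 1)) =
      G (r + s * b ^ (i + 1)) * FF b w k (r + s * b ^ (i + 1)) * ee ((d : ℝ) * ((w i : ℝ) / b)) := by
    intro d hd
    rw [mem_range] at hd
    rw [hG r d s hr hd, FF_shift hb hi hr hd, mul_assoc]
  rw [sum_congr rfl h1, ← mul_sum, full_sum hb hw, mul_zero]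

lemma g1_shift {b k m i : ℕ} (hb : 1 ≤ b) (hi1 : 1 ≤ i) (him : i < k - m) (hik : i + 1 < k) {r d s : ℕ} (hr : r < b ^ i) (hd : d < b) :
    g1 b k m (r + d * b ^ i + s * b ^ (i + 1)) = g1 b k m (r + s * b ^ (i + 1)) := by
  have hrd : r + d * b ^ i < b ^ (i + 1) := by
    calc r + d * b ^ i < b ^ i + d * b ^ i := by omega
      _ = (d + 1) * b ^ i := by ring
      _ ≤ b * b ^ i := Nat.mul_le_mul_right _ (by omega)
      _ = b ^ (i + 1) := by rw [pow_succ]; ring
  have hr2 : r < b ^ (i + 1) := by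
    have : b ^ i ≤ b ^ (i + 1) := Nat.pow_le_pow_right hb (by omega)
    omega
  have hbi : 0 < b ^ (i + 1) := by positivity
  have hdiv : (r + d * b ^ i + s * b ^ (i + 1)) / b ^ (i + 1) = s := by
    rw [Nat.add_mul_div_right _ _ hbi, Nat.div_eq_of_lt hrd, zero_add]
  have hdiv2 : (r + s * b ^ (i + 1)) / b ^ (i + 1) = s := by
    rw [Nat.add_mul_div_right _ _ hbi, Nat.div_eq_of_lt hr2, zero_add]
  have hq : ∀ e, i + 1 ≤ e → ∀ n, n / b ^ e = n / b ^ (i + 1) / b ^ (e - (i + 1)) := by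
    intro e he n
    rw [Nat.div_div_eq_div_mul, ← pow_add]; congr 2; omega
  have h1 : (r + d * b ^ i + s * b ^ (i + 1)) / b ^ (k - m) = (r + s * b ^ (i + 1)) / b ^ (k - m) := by
    rw [hq (k - m) (by omega), hq (k - m) (by omega) (r + s * b ^ (i + 1)), hdiv, hdiv2]
  have h2 : (b ^ (k - 1) ≤ r + d * b ^ i + s * b ^ (i + 1)) ↔ (b ^ (k - 1) ≤ r + s * b ^ (i + 1)) := by
    have h3 : ∀ n, b ^ (k - 1) ≤ n ↔ 1 ≤ n / b ^ (k - 1) := by
      intro n
      rw [Nat.le_div_iff_mul_le (by positivity), one_mul]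
    rw [h3, h3, hq (k - 1) (by omega), hq (k - 1) (by omega) (r + s * b ^ (i + 1)), hdiv, hdiv2]
  have h4 : (r + d * b ^ i + s * b ^ (i + 1)).Coprime b ↔ (r + s * b ^ (i + 1)).Coprime b := by
    obtain ⟨c, rfl⟩ : ∃ c, i = c + 1 := ⟨i - 1, by omega⟩
    have e1 : r + d * b ^ (c + 1) + s * b ^ (c + 1 + 1) = r + (d * b ^ c + s * b ^ (c + 1)) * b := by
      rw [pow_succ, pow_succ]; ring
    have e2 : r + s * b ^ (c + 1 + 1) = r + (s * b ^ (c + 1)) * b := by
      rw [pow_succ]; ring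
    rw [e1, e2]
    unfold Nat.Coprime
    rw [Nat.gcd_add_mul_right_left, Nat.gcd_add_mul_right_left]
  unfold g1
  rw [h1]
  simp only [h2, h4]

/-- exponential sums of the difference -/
theorem g0_exp {b : ℕ} (hb : 2 ≤ b) (B : ℕ) : ∃ D K0 : ℕ, 1 ≤ D ∧ ∀ k : ℕ, K0 ≤ k → ∀ (m : ℕ) (w : ℕ → ℕ) (J : Finset ℕ) (i : ℕ),
    1 ≤ m → m ≤ B * (Nat.log 2 k) ^ 2 → J.card ≤ B * (Nat.log 2 k) ^ 2 → J ⊆ range k → i ∈ J → m ≤ i → i < k / 2 → i < k - m →
    1 ≤ w i → w i < b →
    ‖∑ n ∈ range (b ^ k), (g0 b k m n : ℂ) * ∏ j ∈ J, ee ((dg b j n : ℝ) * ((w j : ℝ) / b))‖ ≤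
      3 * ((D : ℝ) * k) ^ (J.card + 8) * ((b : ℝ) ^ k / √((2 : ℝ) ^ m)) := by
  obtain ⟨D, K1, hD, h1⟩ := exp_clean hb B
  obtain ⟨K2, h2⟩ := ev_log (100 + 8 * B) 2
  obtain ⟨K3, h3⟩ := ev_ge (b + 3)
  refine ⟨D, max (max (K1 + 1) K2) (max K3 3), hD, fun k hk m w J i hm hmB hJB hJ hiJ hmi hi2 him hw1 hwb => ?_⟩
  have hka : K1 + 1 ≤ k := le_trans (le_trans (le_max_left _ _) (le_max_left _ _)) hk
  have hkb : K2 ≤ k := le_trans (le_trans (le_max_right _ _) (le_max_left _ _)) hk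
  have hkc : K3 ≤ k := le_trans (le_trans (le_max_left _ _) (le_max_right _ _)) hk
  have hk3 : 3 ≤ k := le_trans (le_trans (le_max_right _ _) (le_max_right _ _)) hk
  have hKu := h2 k hkb
  have hub := h3 k hkc
  set u := Nat.log 2 k with hu
  have hk2 : k < 2 ^ (u + 1) := Nat.lt_pow_succ_log_self (by norm_num) _
  have hbu : b ≤ 2 ^ u := by
    calc b ≤ 2 ^ b := Nat.lt_two_pow_self.le
      _ ≤ 2 ^ u := Nat.pow_le_pow_right (by norm_num) (by omega)
  have hb0 : (0 : ℝ) < b := by exact_mod_cast (by omega : 0 < b)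
  have hb1 : (1 : ℝ) ≤ b := by exact_mod_cast (by omega : 1 ≤ b)
  have hu1 : u ≤ Nat.log 2 (k - 1) + 1 := by
    rw [← Nat.log_mul_base (by norm_num) (by omega), hu]
    exact Nat.log_mono_right (by omega)
  have hwi : ¬ b ∣ w i := fun h => by
    have := Nat.le_of_dvd (by omega) h
    omega
  -- the digit function
  set v : ℕ → ℕ := fun j => if j ∈ J then w j else 0 with hv
  have hv0 : ∀ j, j ∉ J → v j = 0 := fun j hj => by rw [hv]; simp only; rw [if_neg hj]
  have hvJ : ∀ j, j ∈ J → v j = w j := fun j hj => by rw [hv]; simp only; rw [if_pos hj]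
  have hvi : ¬ b ∣ v i := by rw [hvJ i hiJ]; exact hwi
  have hF : ∀ n, ∏ j ∈ J, ee ((dg b j n : ℝ) * ((w j : ℝ) / b)) = FF b v k n := by
    intro n
    unfold FF
    rw [← prod_subset hJ]
    · exact prod_congr rfl fun j hj => by rw [hvJ j hj]
    · intro j _ hj
      rw [hv0 j hj, Nat.cast_zero, zero_div, mul_zero, ee_zero]
  simp only [hF]
  -- the model
  have hg1 : ∑ n ∈ range (b ^ k), (g1 b k m n : ℂ) * FF b v k n = 0 :=
    dorth (by omega) (by omega) v hvi _ (fun r d s hr hd => by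
      rw [g1_shift (by omega) (by omega) him (by omega) hr hd])
  -- the shorter sum
  set v' : ℕ → ℕ := fun j => if j = k - 1 then 0 else v j with hv'
  have hs : ∀ n ∈ range (b ^ (k - 1)), FF b v k n = FF b v' (k - 1) n := by
    intro n hn
    rw [mem_range] at hn
    unfold FF
    obtain ⟨c, rfl⟩ : ∃ c, k = c + 1 := ⟨k - 1, by omega⟩
    rw [Nat.add_sub_cancel] at hn ⊢
    rw [prod_range_succ]
    have : dg b c n = 0 := by unfold dg; rw [Nat.div_eq_of_lt hn, Nat.zero_mod]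
    rw [this, Nat.cast_zero, zero_mul, ee_zero, mul_one]
    apply prod_congr rfl
    intro j hj
    rw [mem_range] at hj
    rw [hv']; simp only [Nat.add_sub_cancel]; rw [if_neg (by omega)]
  have e1 := h1 k (by omega) m v J i (hmB.trans (Nat.mul_le_mul_left _ (Nat.pow_le_pow_left (by omega) 2)))
    (hJB.trans (Nat.mul_le_mul_left _ (Nat.pow_le_pow_left (by omega) 2))) hJ hv0 hmi (by omega) (by omega) hvi
  have hJ'card : (J.erase (k - 1)).card ≤ J.card := card_le_card (erase_subset _ _)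
  have e2 := h1 (k - 1) (by omega) m v' (J.erase (k - 1)) i
    (hmB.trans (Nat.mul_le_mul_left _ (Nat.pow_le_pow_left hu1 2)))
    (hJ'card.trans (hJB.trans (Nat.mul_le_mul_left _ (Nat.pow_le_pow_left hu1 2))))
    (by
      intro j hj
      rw [mem_erase] at hj
      have := mem_range.1 (hJ hj.2)
      rw [mem_range]; omega)
    (by
      intro j hj
      rw [mem_erase, not_and_or, not_not] at hj
      rw [hv']; simp only
      split_ifs with hjk
      · rfl
      · rcases hj with hj | hj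
        · exact absurd hj hjk
        · exact hv0 j hj)
    hmi (by omega) (by omega) (by
      rw [hv']; simp only; rw [if_neg (by omega)]; exact hvi)
  set E : ℝ := (D : ℝ) * k with hE
  have hE1 : 1 ≤ E := by
    have h4 : (1 : ℝ) ≤ D := by exact_mod_cast hD
    have h5 : (1 : ℝ) ≤ k := by exact_mod_cast (by omega : 1 ≤ k)
    calc (1 : ℝ) = 1 * 1 := by norm_num
      _ ≤ _ := by rw [hE]; gcongr
  have hsq0 : 0 < √((2 : ℝ) ^ m) := Real.sqrt_pos.2 (by positivity)
  set Q : ℝ := (b : ℝ) ^ k / √((2 : ℝ) ^ m) with hQ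
  have hQ0 : 0 < Q := by positivity
  have e2' : ‖∑ n ∈ range (b ^ (k - 1)), Lam n * FF b v k n‖ ≤ E ^ (J.card + 8) * Q := by
    rw [sum_congr rfl fun n hn => by rw [hs n hn]]
    refine e2.trans ?_
    have h4 : (D : ℝ) * ((k - 1 : ℕ) : ℝ) ≤ E := by
      rw [hE]; gcongr; omega
    have h5 : (b : ℝ) ^ (k - 1) / √((2 : ℝ) ^ m) ≤ Q := by
      rw [hQ]; gcongr
      omega
    calc ((D : ℝ) * ((k - 1 : ℕ) : ℝ)) ^ ((J.erase (k - 1)).card + 8) * ((b : ℝ) ^ (k - 1) / √((2 : ℝ) ^ m))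
        ≤ E ^ ((J.erase (k - 1)).card + 8) * Q := by gcongr
      _ ≤ E ^ (J.card + 8) * Q := by
          apply mul_le_mul_of_nonneg_right _ hQ0.le
          exact pow_le_pow_right₀ hE1 (by omega)
  -- prime powers
  have e3 : ‖∑ n ∈ (range (b ^ k)).filter (fun n => b ^ (k - 1) ≤ n), ((ArithmeticFunction.vonMangoldt n - th n : ℝ) : ℂ) * FF b v k n‖ ≤ Q := by
    refine (norm_sum_le _ _).trans ?_
    have h4 : ∀ n ∈ (range (b ^ k)).filter (fun n => b ^ (k - 1) ≤ n), ‖((ArithmeticFunction.vonMangoldt n - th n : ℝ) : ℂ) * FF b v k n‖ =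
        ArithmeticFunction.vonMangoldt n - th n := by
      intro n _
      rw [norm_mul, norm_FF, mul_one, Complex.norm_real, Real.norm_eq_abs, abs_of_nonneg (sub_nonneg.2 (th_le n))]
    rw [sum_congr rfl h4]
    have h5 : ∑ n ∈ (range (b ^ k)).filter (fun n => b ^ (k - 1) ≤ n), (ArithmeticFunction.vonMangoldt n - th n) ≤
        ∑ n ∈ range (b ^ k), (ArithmeticFunction.vonMangoldt n - th n) :=
      sum_le_sum_of_subset_of_nonneg (filter_subset _ _) fun n _ _ => sub_nonneg.2 (th_le n)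
    have h6 := lam_th (N := b ^ k) (Nat.one_le_pow _ _ (by omega))
    have h7 := pp_small (A := B) hb hbu hk2 hKu
    have h8 : (b : ℝ) ^ k / 2 ^ (B * u ^ 2) ≤ Q := by
      rw [hQ]
      apply div_le_div_of_nonneg_left (by positivity) hsq0
      rw [Real.sqrt_le_left (by positivity)]
      calc (2 : ℝ) ^ m ≤ 2 ^ (B * u ^ 2) := pow_le_pow_right₀ (by norm_num) hmB
        _ ≤ (2 ^ (B * u ^ 2)) ^ 2 := le_self_pow₀ (one_le_pow₀ (by norm_num)) (by norm_num)
    have h9 : 0 ≤ (b : ℝ) ^ k / 2 ^ (B * u ^ 2) := by positivity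
    linarith
  -- assembly
  have e4 : ∑ n ∈ range (b ^ k), (g0 b k m n : ℂ) * FF b v k n =
      ∑ n ∈ range (b ^ k), Lam n * FF b v k n - ∑ n ∈ range (b ^ (k - 1)), Lam n * FF b v k n -
      ∑ n ∈ (range (b ^ k)).filter (fun n => b ^ (k - 1) ≤ n), ((ArithmeticFunction.vonMangoldt n - th n : ℝ) : ℂ) * FF b v k n := by
    have h4 : ∑ n ∈ range (b ^ (k - 1)), Lam n * FF b v k n =
        ∑ n ∈ range (b ^ k), if b ^ (k - 1) ≤ n then 0 else Lam n * FF b v k n := by
      have h5 : range (b ^ (k - 1)) = (range (b ^ k)).filter (fun n => ¬ b ^ (k - 1) ≤ n) := by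
        ext n
        rw [mem_filter, mem_range, mem_range]
        have : b ^ (k - 1) ≤ b ^ k := Nat.pow_le_pow_right (by omega) (by omega)
        omega
      rw [h5, sum_filter]
      apply sum_congr rfl; intro n _
      rw [ite_not]
    rw [h4, sum_filter, ← sum_sub_distrib, ← sum_sub_distrib, ← sub_eq_zero, ← sum_sub_distrib]
    rw [← neg_eq_zero, ← sum_neg_distrib]
    refine Eq.trans (sum_congr rfl fun n _ => ?_) hg1
    unfold g0 Lam
    by_cases hn : b ^ (k - 1) ≤ n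
    · rw [if_pos hn, if_pos hn, if_pos hn]
      push_cast; ring
    · rw [if_neg hn, if_neg hn, if_neg hn]
      push_cast; ring
  rw [e4]
  have hEp : 1 ≤ E ^ (J.card + 8) := one_le_pow₀ hE1
  calc ‖∑ n ∈ range (b ^ k), Lam n * FF b v k n - ∑ n ∈ range (b ^ (k - 1)), Lam n * FF b v k n -
      ∑ n ∈ (range (b ^ k)).filter (fun n => b ^ (k - 1) ≤ n), ((ArithmeticFunction.vonMangoldt n - th n : ℝ) : ℂ) * FF b v k n‖
      ≤ ‖∑ n ∈ range (b ^ k), Lam n * FF b v k n‖ + ‖∑ n ∈ range (b ^ (k - 1)), Lam n * FF b v k n‖ +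
      ‖∑ n ∈ (range (b ^ k)).filter (fun n => b ^ (k - 1) ≤ n), ((ArithmeticFunction.vonMangoldt n - th n : ℝ) : ℂ) * FF b v k n‖ := by
        refine (norm_sub_le _ _).trans ?_
        gcongr
        exact norm_sub_le _ _
    _ ≤ E ^ (J.card + 8) * Q + E ^ (J.card + 8) * Q + Q := by gcongr
    _ ≤ E ^ (J.card + 8) * Q + E ^ (J.card + 8) * Q + E ^ (J.card + 8) * Q := by
        gcongr
        exact le_mul_of_one_le_left hQ0.le hEp
    _ = 3 * E ^ (J.card + 8) * Q := by ring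

end Pool.Agent.V7H99.SY
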