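import Mathlib
import Pool.Agent.V7H99.SY.R4
import Pool.Agent.V7H99.SY.Q2

/-! The total of the quadratic forms (helper99). -/

set_option autoImplicit false

namespace Pool.Agent.V7H99.SY
open Finset

/-- the number of small subsets -/
lemma small_card (h : ℕ) : ∀ t : ℕ, ((range h).powerset.filter (fun T => T.card ≤ t)).card ≤ (h + 1) ^ t := by
  classical
  intro t
  induction t with
  | zero =>
    rw [pow_zero, card_le_one]
    intro S hS T hT
    rw [mem_filter] at hS hT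
    rw [card_eq_zero.1 (Nat.le_zero.1 hS.2), card_eq_zero.1 (Nat.le_zero.1 hT.2)]
  | succ t ih =>
    have hsub : (range h).powerset.filter (fun T => T.card ≤ t + 1) ⊆
        ((range (h + 1)) ×ˢ ((range h).powerset.filter (fun T => T.card ≤ t))).image
          (fun p => if p.1 < h then insert p.1 p.2 else p.2) := by
      intro T hT
      rw [mem_filter, mem_powerset] at hT
      rw [mem_image]
      rcases Nat.lt_or_ge T.card (t + 1) with hc | hc
      · refine ⟨(h, T), ?_, ?_⟩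
        · rw [mem_product, mem_range, mem_filter, mem_powerset]
          exact ⟨Nat.lt_succ_self _, hT.1, by simp only; omega⟩
        · simp
      · obtain ⟨a, ha⟩ : T.Nonempty := card_pos.1 (by omega)
        have hah := mem_range.1 (hT.1 ha)
        refine ⟨(a, T.erase a), ?_, ?_⟩
        · rw [mem_product, mem_range, mem_filter, mem_powerset]
          refine ⟨by simp only; omega, (erase_subset _ _).trans hT.1, ?_⟩
          simp only
          rw [card_erase_of_mem ha]; omega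
        · simp only
          rw [if_pos hah, insert_erase ha]
    calc _ ≤ _ := card_le_card hsub
      _ ≤ _ := card_image_le
      _ = (h + 1) * ((range h).powerset.filter (fun T => T.card ≤ t)).card := by rw [card_product, card_range]
      _ ≤ (h + 1) * (h + 1) ^ t := Nat.mul_le_mul_left _ ih
      _ = _ := by rw [pow_succ]; ring

lemma digits_eq {b k n n' : ℕ} (hn : n < b ^ k) (hn' : n' < b ^ k) (h : ∀ j ∈ range k, dg b j n = dg b j n') : n = n' := by
  have h1 := dgsum b n k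
  have h2 := dgsum b n' k
  rw [Nat.mod_eq_of_lt hn] at h1
  rw [Nat.mod_eq_of_lt hn'] at h2
  rw [← h1, ← h2]
  exact sum_congr rfl fun j hj => by rw [h j hj]

theorem DD_full (b k : ℕ) (g : ℕ → ℝ) : ∑ J ∈ (range k).powerset, DD b (b ^ k) g J = (b : ℝ) ^ k * ∑ n ∈ range (b ^ k), g n ^ 2 := by
  rw [DD_sum, card_range]
  congr 1
  apply sum_congr rfl; intro n hn
  rw [mem_range] at hn
  rw [sum_eq_single n]
  · rw [if_pos (fun _ _ => rfl), sq]
  · intro n' hn' hne
    rw [mem_range] at hn'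
    rw [if_neg]
    intro h
    exact hne (digits_eq hn hn' h).symm
  · intro h
    exact absurd (mem_range.2 hn) h

lemma dg_mod {b m j n : ℕ} (hb : 1 ≤ b) (hj : j < m) : dg b j n = dg b j (n % b ^ m) := by
  conv_lhs => rw [← Nat.mod_add_div n (b ^ m), mul_comm (b ^ m)]
  exact dg_add_low hb hj _ _

lemma dg_div {b e i n : ℕ} : dg b (e + i) n = dg b i (n / b ^ e) := by
  unfold dg
  rw [Nat.div_div_eq_div_mul, ← pow_add]

lemma agree_iff {b k m n n' : ℕ} (hb : 1 ≤ b) (hmk : 2 * m ≤ k) (hn : n < b ^ k) (hn' : n' < b ^ k) :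
    (∀ j ∈ JJ k (range m), dg b j n = dg b j n') ↔ (n % b ^ m, n / b ^ (k - m)) = (n' % b ^ m, n' / b ^ (k - m)) := by
  have hL0 : 0 < b ^ (k - m) := by positivity
  have hb0 : 0 < b ^ m := by positivity
  have hq : ∀ n, n < b ^ k → n / b ^ (k - m) < b ^ m := by
    intro n hn
    rw [Nat.div_lt_iff_lt_mul hL0, ← pow_add]
    rwa [Nat.add_sub_cancel' (by omega)]
  rw [Prod.mk.injEq]
  constructor
  · intro h
    constructor
    · rw [← dgsum b n m, ← dgsum b n' m]
      apply sum_congr rfl; intro j hj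
      rw [h j (by unfold JJ; rw [mem_union]; exact Or.inl hj)]
    · apply digits_eq (hq n hn) (hq n' hn')
      intro i hi
      rw [mem_range] at hi
      rw [← dg_div, ← dg_div]
      apply h
      unfold JJ
      rw [mem_union, mem_image]
      exact Or.inr ⟨m - 1 - i, by rw [mem_range]; omega, by omega⟩
  · rintro ⟨h1, h2⟩ j hj
    unfold JJ at hj
    rw [mem_union, mem_image] at hj
    rcases hj with hj | ⟨i, hi, rfl⟩
    · rw [mem_range] at hj
      rw [dg_mod hb hj, dg_mod (n := n') hb hj, h1]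
    · rw [mem_range] at hi
      have e : k - 1 - i = (k - m) + (m - 1 - i) := by omega
      rw [e, dg_div, dg_div, h2]

theorem DD_U {b k m : ℕ} (hb : 1 ≤ b) (hmk : 2 * m ≤ k) (g : ℕ → ℝ) {M0 : ℝ}
    (hc : ∀ r c : ℕ, r < b ^ m → c < b ^ m →
      |∑ n ∈ (range (b ^ k)).filter (fun n => n % b ^ m = r ∧ n / b ^ (k - m) = c), g n| ≤ M0) :
    ∑ J ∈ (JJ k (range m)).powerset, DD b (b ^ k) g J ≤ (b : ℝ) ^ (4 * m) * M0 ^ 2 := by
  have hL0 : 0 < b ^ (k - m) := by positivity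
  have hb0 : 0 < b ^ m := by positivity
  have hmaps : ∀ n ∈ range (b ^ k), (n % b ^ m, n / b ^ (k - m)) ∈ range (b ^ m) ×ˢ range (b ^ m) := by
    intro n hn
    rw [mem_range] at hn
    rw [mem_product, mem_range, mem_range]
    refine ⟨Nat.mod_lt _ hb0, ?_⟩
    rw [Nat.div_lt_iff_lt_mul hL0, ← pow_add]
    rwa [Nat.add_sub_cancel' (by omega)]
  rw [DD_sum, card_JJ (range_subset_range.2 (by omega)), card_range]
  have h1 : ∑ n ∈ range (b ^ k), ∑ n' ∈ range (b ^ k), (if ∀ j ∈ JJ k (range m), dg b j n = dg b j n' then g n * g n' else 0) =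
      ∑ p ∈ range (b ^ m) ×ˢ range (b ^ m), (∑ n ∈ (range (b ^ k)).filter (fun n => (n % b ^ m, n / b ^ (k - m)) = p), g n) ^ 2 := by
    rw [← sum_fiberwise_of_maps_to hmaps]
    apply sum_congr rfl; intro p _
    rw [sq, sum_mul_sum]
    apply sum_congr rfl; intro n hn
    rw [mem_filter, mem_range] at hn
    rw [sum_filter]
    apply sum_congr rfl; intro n' hn'
    rw [mem_range] at hn'
    have h2 := agree_iff hb hmk hn.1 hn'
    rw [hn.2] at h2
    simp only [h2]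
    by_cases hp : p = (n' % b ^ m, n' / b ^ (k - m))
    · rw [if_pos hp, if_pos hp.symm]
    · rw [if_neg hp, if_neg (Ne.symm hp)]
  rw [h1]
  have h2 : ∀ p ∈ range (b ^ m) ×ˢ range (b ^ m),
      (∑ n ∈ (range (b ^ k)).filter (fun n => (n % b ^ m, n / b ^ (k - m)) = p), g n) ^ 2 ≤ M0 ^ 2 := by
    rintro ⟨r, c⟩ hp
    rw [mem_product, mem_range, mem_range] at hp
    simp only [Prod.mk.injEq]
    have h3 := hc r c hp.1 hp.2
    rw [← sq_abs]
    exact pow_le_pow_left₀ (abs_nonneg _) h3 2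
  refine (mul_le_mul_of_nonneg_left (sum_le_sum h2) (by positivity)).trans ?_
  rw [sum_const, card_product, card_range, nsmul_eq_mul]
  push_cast
  apply le_of_eq
  rw [show 4 * m = 2 * m + (m + m) by ring, pow_add, pow_add (b : ℝ) m m]
  ring

lemma wt_le {b : ℕ} (hb3 : 3 ≤ b) {t c : ℕ} (h : t ≤ c) : (1 / ((b : ℝ) - 1)) ^ c ≤ (1 / 2) ^ t := by
  have h3 : (3 : ℝ) ≤ b := by exact_mod_cast hb3
  have h1 : 1 / ((b : ℝ) - 1) ≤ 1 / 2 := by
    apply div_le_div_of_nonneg_left (by norm_num) (by norm_num) (by linarith)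
  have h0 : 0 ≤ 1 / ((b : ℝ) - 1) := by
    apply div_nonneg (by norm_num); linarith
  calc (1 / ((b : ℝ) - 1)) ^ c ≤ (1 / 2) ^ c := pow_le_pow_left₀ h0 h1 _
    _ ≤ (1 / 2) ^ t := pow_le_pow_of_le_one (by norm_num) (by norm_num) h

lemma part1 {b k t0 : ℕ} (hb3 : 3 ≤ b) {g : ℕ → ℝ} {X : ℝ} (hg : ∀ n, n < b ^ k → |g n| ≤ X) :
    ∑ T ∈ (range (k / 2)).powerset.filter (fun T => t0 < T.card), (1 / ((b : ℝ) - 1)) ^ T.card * DD b (b ^ k) g (JJ k T) ≤
      (1 / 2) ^ t0 * (((b : ℝ) ^ k) ^ 2 * X ^ 2) := by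
  have h1 : ∀ T ∈ (range (k / 2)).powerset.filter (fun T => t0 < T.card),
      (1 / ((b : ℝ) - 1)) ^ T.card * DD b (b ^ k) g (JJ k T) ≤ (1 / 2) ^ t0 * DD b (b ^ k) g (JJ k T) := by
    intro T hT
    rw [mem_filter] at hT
    exact mul_le_mul_of_nonneg_right (wt_le hb3 hT.2.le) (DD_nonneg (by omega) _ _ _)
  refine (sum_le_sum h1).trans ?_
  rw [← mul_sum]
  apply mul_le_mul_of_nonneg_left _ (by positivity)
  have h2 : ∑ T ∈ (range (k / 2)).powerset.filter (fun T => t0 < T.card), DD b (b ^ k) g (JJ k T) ≤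
      ∑ J ∈ (range k).powerset, DD b (b ^ k) g J := by
    rw [← sum_image (f := fun J => DD b (b ^ k) g J) (g := JJ k)]
    · apply sum_le_sum_of_subset_of_nonneg
      · intro J hJ
        rw [mem_image] at hJ
        obtain ⟨T, hT, rfl⟩ := hJ
        rw [mem_filter, mem_powerset] at hT
        rw [mem_powerset]
        exact JJ_sub hT.1
      · intro J _ _
        exact DD_nonneg (by omega) _ _ _
    · intro T hT T' hT' h
      rw [mem_coe, mem_filter, mem_powerset] at hT hT'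
      exact JJ_inj k hT.1 hT'.1 h
  refine h2.trans ?_
  rw [DD_full]
  have h3 : ∑ n ∈ range (b ^ k), g n ^ 2 ≤ (b : ℝ) ^ k * X ^ 2 := by
    have h4 : ∀ n ∈ range (b ^ k), g n ^ 2 ≤ X ^ 2 := by
      intro n hn
      rw [mem_range] at hn
      rw [← sq_abs]
      exact pow_le_pow_left₀ (abs_nonneg _) (hg n hn) 2
    refine (sum_le_sum h4).trans ?_
    rw [sum_const, card_range, nsmul_eq_mul]
    push_cast; exact le_rfl
  calc (b : ℝ) ^ k * ∑ n ∈ range (b ^ k), g n ^ 2 ≤ (b : ℝ) ^ k * ((b : ℝ) ^ k * X ^ 2) := by gcongr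
    _ = _ := by ring

lemma part3 {b k m : ℕ} (hb3 : 3 ≤ b) (hmk : 2 * m ≤ k) (g : ℕ → ℝ) {M0 : ℝ}
    (hc : ∀ r c : ℕ, r < b ^ m → c < b ^ m →
      |∑ n ∈ (range (b ^ k)).filter (fun n => n % b ^ m = r ∧ n / b ^ (k - m) = c), g n| ≤ M0) :
    ∑ T ∈ (range (k / 2)).powerset.filter (fun T => T ⊆ range m), (1 / ((b : ℝ) - 1)) ^ T.card * DD b (b ^ k) g (JJ k T) ≤
      (b : ℝ) ^ (4 * m) * M0 ^ 2 := by
  refine le_trans ?_ (DD_U (by omega) hmk g hc)
  have h1 : ∀ T ∈ (range (k / 2)).powerset.filter (fun T => T ⊆ range m),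
      (1 / ((b : ℝ) - 1)) ^ T.card * DD b (b ^ k) g (JJ k T) ≤ DD b (b ^ k) g (JJ k T) := by
    intro T _
    apply mul_le_of_le_one_left (DD_nonneg (by omega) _ _ _)
    have := wt_le hb3 (Nat.zero_le T.card)
    rwa [pow_zero] at this
  refine (sum_le_sum h1).trans ?_
  rw [← sum_image (f := fun J => DD b (b ^ k) g J) (g := JJ k)]
  · apply sum_le_sum_of_subset_of_nonneg
    · intro J hJ
      rw [mem_image] at hJ
      obtain ⟨T, hT, rfl⟩ := hJ
      rw [mem_filter, mem_powerset] at hT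
      rw [mem_powerset]
      unfold JJ
      exact union_subset_union hT.2 (image_subset_image hT.2)
    · intro J _ _
      exact DD_nonneg (by omega) _ _ _
  · intro T hT T' hT' h
    rw [mem_coe, mem_filter, mem_powerset] at hT hT'
    exact JJ_inj k hT.1 hT'.1 h

lemma part5 {b k m t0 : ℕ} (hb3 : 3 ≤ b) (g : ℕ → ℝ) {M : ℝ}
    (h : ∀ T : Finset ℕ, T ⊆ range (k / 2) → T.card ≤ t0 → ¬ T ⊆ range m →
      DD b (b ^ k) g (JJ k T) ≤ ((b : ℝ) - 1) ^ (2 * T.card) * M ^ 2) :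
    ∑ T ∈ (range (k / 2)).powerset.filter (fun T => T.card ≤ t0 ∧ ¬ T ⊆ range m),
      (1 / ((b : ℝ) - 1)) ^ T.card * DD b (b ^ k) g (JJ k T) ≤ ((k / 2 + 1 : ℕ) : ℝ) ^ t0 * ((b : ℝ) ^ t0 * M ^ 2) := by
  have h3 : (3 : ℝ) ≤ b := by exact_mod_cast hb3
  have h1 : ∀ T ∈ (range (k / 2)).powerset.filter (fun T => T.card ≤ t0 ∧ ¬ T ⊆ range m),
      (1 / ((b : ℝ) - 1)) ^ T.card * DD b (b ^ k) g (JJ k T) ≤ (b : ℝ) ^ t0 * M ^ 2 := by
    intro T hT
    rw [mem_filter, mem_powerset] at hT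
    have h4 := h T hT.1 hT.2.1 hT.2.2
    have h5 : (0 : ℝ) < (b : ℝ) - 1 := by linarith
    calc (1 / ((b : ℝ) - 1)) ^ T.card * DD b (b ^ k) g (JJ k T)
        ≤ (1 / ((b : ℝ) - 1)) ^ T.card * (((b : ℝ) - 1) ^ (2 * T.card) * M ^ 2) := by gcongr
      _ = ((b : ℝ) - 1) ^ T.card * M ^ 2 := by
          rw [two_mul, pow_add, one_div, inv_pow]
          field_simp
      _ ≤ (b : ℝ) ^ T.card * M ^ 2 := by gcongr; linarith
      _ ≤ (b : ℝ) ^ t0 * M ^ 2 := by
          apply mul_le_mul_of_nonneg_right _ (sq_nonneg _)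
          exact pow_le_pow_right₀ (by linarith) hT.2.1
  refine (sum_le_sum h1).trans ?_
  rw [sum_const, nsmul_eq_mul]
  apply mul_le_mul_of_nonneg_right _ (by positivity)
  have h6 : ((range (k / 2)).powerset.filter (fun T => T.card ≤ t0 ∧ ¬ T ⊆ range m)).card ≤ (k / 2 + 1) ^ t0 := by
    refine le_trans (card_le_card ?_) (small_card (k / 2) t0)
    intro T hT
    rw [mem_filter] at hT ⊢
    exact ⟨hT.1, hT.2.1⟩
  exact_mod_cast h6

lemma parts {b k m t0 : ℕ} (hb : 2 ≤ b) (g : ℕ → ℝ) :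
    ∑ T ∈ (range (k / 2)).powerset, (1 / ((b : ℝ) - 1)) ^ T.card * DD b (b ^ k) g (JJ k T) ≤
    ∑ T ∈ (range (k / 2)).powerset.filter (fun T => t0 < T.card), (1 / ((b : ℝ) - 1)) ^ T.card * DD b (b ^ k) g (JJ k T) +
    ∑ T ∈ (range (k / 2)).powerset.filter (fun T => T ⊆ range m), (1 / ((b : ℝ) - 1)) ^ T.card * DD b (b ^ k) g (JJ k T) +
    ∑ T ∈ (range (k / 2)).powerset.filter (fun T => T.card ≤ t0 ∧ ¬ T ⊆ range m),
      (1 / ((b : ℝ) - 1)) ^ T.card * DD b (b ^ k) g (JJ k T) := by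
  classical
  have h2 : (2 : ℝ) ≤ b := by exact_mod_cast hb
  have h0 : ∀ T : Finset ℕ, 0 ≤ (1 / ((b : ℝ) - 1)) ^ T.card * DD b (b ^ k) g (JJ k T) := by
    intro T
    apply mul_nonneg _ (DD_nonneg hb _ _ _)
    apply pow_nonneg
    apply div_nonneg (by norm_num); linarith
  rw [sum_filter, sum_filter, sum_filter, ← sum_add_distrib, ← sum_add_distrib]
  apply sum_le_sum; intro T _
  have := h0 T
  by_cases h1 : t0 < T.card
  · rw [if_pos h1]
    have e1 : 0 ≤ if T ⊆ range m then (1 / ((b : ℝ) - 1)) ^ T.card * DD b (b ^ k) g (JJ k T) else 0 := by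
      split_ifs; exacts [this, le_rfl]
    have e2 : 0 ≤ if T.card ≤ t0 ∧ ¬ T ⊆ range m then (1 / ((b : ℝ) - 1)) ^ T.card * DD b (b ^ k) g (JJ k T) else 0 := by
      split_ifs; exacts [this, le_rfl]
    linarith
  · rw [if_neg h1, zero_add]
    by_cases h3 : T ⊆ range m
    · rw [if_pos h3, if_neg (fun h => h.2 h3), add_zero]
    · rw [if_neg h3, if_pos ⟨by omega, h3⟩, zero_add]

end Pool.Agent.V7H99.SY
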