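import Mathlib
import Pool.Agent.V7H99.SY.R5

/-! The total of the quadratic forms is small (helper99). -/

set_option autoImplicit false

namespace Pool.Agent.V7H99.SY
open Finset

theorem total_small {b : ℕ} (hb3 : 3 ≤ b) (A : ℕ) : ∃ A2 K0 : ℕ, 1 ≤ A2 ∧ ∀ k : ℕ, K0 ≤ k →
    2 * (A2 * (Nat.log 2 k) ^ 2) ≤ k ∧
    ∑ T ∈ (range (k / 2)).powerset, (1 / ((b : ℝ) - 1)) ^ T.card * DD b (b ^ k) (g0 b k (A2 * (Nat.log 2 k) ^ 2)) (JJ k T) ≤
      ((b : ℝ) ^ k) ^ 2 / 2 ^ (A * Nat.log 2 k) := by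
  set A1 := A + 12 with hA1
  set A2 := 15 * A1 + 54 + A with hA2
  set A3 := 4 * b * A2 + A + 2 with hA3
  set B := A2 + 2 * A1 with hB
  obtain ⟨D, K1, hD, hexp⟩ := g0_exp (b := b) (by omega) B
  obtain ⟨K2, hcell⟩ := cell_bound (b := b) (by omega) A3 A2
  obtain ⟨K3, h3⟩ := ev_log (4 * A2 + 4) 2
  obtain ⟨K4, h4⟩ := ev_ge (b + D + 3)
  refine ⟨A2, max (max K1 K2) (max K3 (max K4 3)), by omega, fun k hk => ?_⟩
  have hka : K1 ≤ k := le_trans (le_trans (le_max_left _ _) (le_max_left _ _)) hk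
  have hkb : K2 ≤ k := le_trans (le_trans (le_max_right _ _) (le_max_left _ _)) hk
  have hkc : K3 ≤ k := le_trans (le_trans (le_max_left _ _) (le_max_right _ _)) hk
  have hkd : K4 ≤ k := le_trans (le_trans (le_max_left _ _) (le_trans (le_max_right _ _) (le_max_right _ _))) hk
  have hk3 : 3 ≤ k := le_trans (le_trans (le_max_right _ _) (le_trans (le_max_right _ _) (le_max_right _ _))) hk
  have hKu := h3 k hkc
  have hub := h4 k hkd
  have hexp' := hexp k hka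
  have hcell' := hcell k hkb
  set u := Nat.log 2 k with hu
  have hk2 : k < 2 ^ (u + 1) := Nat.lt_pow_succ_log_self (by norm_num) _
  have hbu : b ≤ 2 ^ u := by
    calc b ≤ 2 ^ b := Nat.lt_two_pow_self.le
      _ ≤ 2 ^ u := Nat.pow_le_pow_right (by norm_num) (by omega)
  have hDu : D ≤ 2 ^ u := by
    calc D ≤ 2 ^ D := Nat.lt_two_pow_self.le
      _ ≤ 2 ^ u := Nat.pow_le_pow_right (by norm_num) (by omega)
  have hu1 : 3 ≤ u := by omega
  set s := u ^ 2 with hs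
  have hus : u ≤ s := Nat.le_self_pow (by norm_num) _
  have hs1 : s ≤ (u + 1) ^ 2 := Nat.pow_le_pow_left (by omega) 2
  set m := A2 * s with hm
  have hm1 : 1 ≤ m := Nat.mul_pos (by omega) (by omega)
  have h2m : 4 * m ≤ k := by
    calc 4 * m = (4 * A2) * s := by rw [hm]; ring
      _ ≤ (4 * A2 + 4) * (u + 1) ^ 2 := Nat.mul_le_mul (by omega) hs1
      _ ≤ k := hKu
  refine ⟨by omega, ?_⟩
  set t0 := A1 * u with ht0
  have hb0 : (0 : ℝ) < b := by exact_mod_cast (by omega : 0 < b)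
  have hb1 : (1 : ℝ) ≤ b := by exact_mod_cast (by omega : 1 ≤ b)
  have hbr : (b : ℝ) ≤ 2 ^ u := by exact_mod_cast hbu
  have hDr : (D : ℝ) ≤ 2 ^ u := by exact_mod_cast hDu
  have hkr : (k : ℝ) ≤ 2 ^ (u + 1) := by exact_mod_cast hk2.le
  have hkr2 : (k : ℝ) ≤ 2 ^ (2 * u) := hkr.trans (pow_le_pow_right₀ (by norm_num) (by omega))
  set N : ℝ := (b : ℝ) ^ k with hN
  have hN0 : 0 < N := by positivity
  -- part 1
  have p1 := part1 (k := k) (t0 := t0) hb3 (g := g0 b k m) (X := 2 * b ^ 2 * k)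
    (fun n hn => g0_abs (by omega) (by omega) hn)
  have q1 : (1 / 2 : ℝ) ^ t0 * (((b : ℝ) ^ k) ^ 2 * (2 * b ^ 2 * k) ^ 2) ≤ N ^ 2 / 2 ^ (A * u + 2) := by
    rw [le_div_iff₀ (by positivity)]
    have e1 : (2 * (b : ℝ) ^ 2 * k) ^ 2 ≤ 2 ^ (6 * u + 4) := by
      calc (2 * (b : ℝ) ^ 2 * k) ^ 2 ≤ (2 * (2 ^ u) ^ 2 * 2 ^ (u + 1)) ^ 2 := by gcongr
        _ = 2 ^ (6 * u + 4) := by
            have e0 : (2 : ℝ) * (2 ^ u) ^ 2 * 2 ^ (u + 1) = 2 ^ (3 * u + 2) := by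
              rw [pow_add 2 (3 * u) 2, pow_add 2 u 1, mul_comm 3 u, pow_mul]; ring
            rw [e0, ← pow_mul]
            congr 1; ring
    have e2 : (2 : ℝ) ^ (6 * u + 4) * 2 ^ (A * u + 2) ≤ 2 ^ t0 := by
      rw [← pow_add]
      apply pow_le_pow_right₀ (by norm_num)
      have : t0 = A * u + 12 * u := by rw [ht0, hA1]; ring
      omega
    rw [← hN]
    calc (1 / 2 : ℝ) ^ t0 * (N ^ 2 * (2 * b ^ 2 * k) ^ 2) * 2 ^ (A * u + 2)
        ≤ (1 / 2 : ℝ) ^ t0 * (N ^ 2 * 2 ^ (6 * u + 4)) * 2 ^ (A * u + 2) := by gcongr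
      _ = (1 / 2 : ℝ) ^ t0 * N ^ 2 * (2 ^ (6 * u + 4) * 2 ^ (A * u + 2)) := by ring
      _ ≤ (1 / 2 : ℝ) ^ t0 * N ^ 2 * 2 ^ t0 := by gcongr
      _ = N ^ 2 := by
          rw [one_div, inv_pow]; field_simp
  -- part 3
  have p3 := part3 (k := k) (m := m) hb3 (by omega) (g0 b k m) (M0 := (b : ℝ) ^ k / 2 ^ (A3 * s))
    (fun r c hr hc => hcell' m hm1 le_rfl (by omega) r c hr hc)
  have q3 : (b : ℝ) ^ (4 * m) * ((b : ℝ) ^ k / 2 ^ (A3 * s)) ^ 2 ≤ N ^ 2 / 2 ^ (A * u + 2) := by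
    rw [← hN, div_pow, mul_div_assoc', div_le_div_iff₀ (by positivity) (by positivity)]
    have e1 : (b : ℝ) ^ (4 * m) ≤ 2 ^ (b * (4 * m)) := by
      rw [pow_mul 2 b]
      apply pow_le_pow_left₀ hb0.le
      exact_mod_cast (Nat.lt_two_pow_self (n := b)).le
    have e2 : (2 : ℝ) ^ (b * (4 * m)) * 2 ^ (A * u + 2) ≤ (2 ^ (A3 * s)) ^ 2 := by
      rw [← pow_add, ← pow_mul]
      apply pow_le_pow_right₀ (by norm_num)
      have e3 : b * (4 * m) = 4 * b * A2 * s := by rw [hm]; ring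
      have e4 : A3 * s * 2 = 4 * b * A2 * s + (4 * b * A2 * s + 2 * (A * s) + 4 * s) := by rw [hA3]; ring
      have e5 : A * u ≤ A * s := Nat.mul_le_mul_left _ hus
      rw [e3, e4]
      omega
    calc (b : ℝ) ^ (4 * m) * N ^ 2 * 2 ^ (A * u + 2) ≤ 2 ^ (b * (4 * m)) * N ^ 2 * 2 ^ (A * u + 2) := by gcongr
      _ = N ^ 2 * (2 ^ (b * (4 * m)) * 2 ^ (A * u + 2)) := by ring
      _ ≤ N ^ 2 * (2 ^ (A3 * s)) ^ 2 := by gcongr
  -- part 5
  set E : ℝ := (D : ℝ) * k with hE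
  have hE1 : 1 ≤ E := by
    have h4 : (1 : ℝ) ≤ D := by exact_mod_cast hD
    have h5 : (1 : ℝ) ≤ k := by exact_mod_cast (by omega : 1 ≤ k)
    calc (1 : ℝ) = 1 * 1 := by norm_num
      _ ≤ _ := by rw [hE]; gcongr
  have hE3 : E ≤ 2 ^ (3 * u) := by
    rw [hE, show 3 * u = u + 2 * u by ring, pow_add]
    gcongr
  have hsq0 : 0 < √((2 : ℝ) ^ m) := Real.sqrt_pos.2 (by positivity)
  have hsq : √((2 : ℝ) ^ m) ^ 2 = 2 ^ m := Real.sq_sqrt (by positivity)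
  have p5 := part5 (k := k) (m := m) (t0 := t0) hb3 (g0 b k m) (M := 3 * E ^ (2 * t0 + 8) * (N / √((2 : ℝ) ^ m)))
    (fun T hT hTc hTm => by
      obtain ⟨i, hiT, him⟩ := not_subset.1 hTm
      rw [mem_range, not_lt] at him
      have hik := mem_range.1 (hT hiT)
      have hc2 := card_JJ hT
      have hiJ : i ∈ JJ k T := by unfold JJ; rw [mem_union]; exact Or.inl hiT
      have hb' := DD_bound (b := b) (by omega) (b ^ k) (g0 b k m) (JJ k T) (3 * E ^ (2 * t0 + 8) * (N / √((2 : ℝ) ^ m)))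
        (fun w hw1 _ => by
          have hcard : (JJ k T).card ≤ B * s := by
            rw [hc2]
            calc 2 * T.card ≤ 2 * (A1 * u) := by omega
              _ ≤ 2 * (A1 * s) := by
                  have := Nat.mul_le_mul_left A1 hus
                  omega
              _ = (2 * A1) * s := by ring
              _ ≤ B * s := Nat.mul_le_mul_right _ (by omega)
          refine (hexp' m w (JJ k T) i hm1 (Nat.mul_le_mul_right _ (by omega)) hcard (JJ_sub hT) hiJ him hik (by omega)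
            (hw1 i hiJ).1 (hw1 i hiJ).2).trans ?_
          apply mul_le_mul_of_nonneg_right _ (by positivity)
          apply mul_le_mul_of_nonneg_left _ (by norm_num)
          exact pow_le_pow_right₀ hE1 (by omega))
      rw [hc2] at hb'
      exact hb'.2)
  have q5 : ((k / 2 + 1 : ℕ) : ℝ) ^ t0 * ((b : ℝ) ^ t0 * (3 * E ^ (2 * t0 + 8) * (N / √((2 : ℝ) ^ m))) ^ 2) ≤ N ^ 2 / 2 ^ (A * u + 2) := by
    have e0 : (3 * E ^ (2 * t0 + 8) * (N / √((2 : ℝ) ^ m))) ^ 2 = 9 * (E ^ (2 * t0 + 8)) ^ 2 * (N ^ 2 / 2 ^ m) := by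
      rw [mul_pow, mul_pow, div_pow, hsq]; norm_num
    rw [e0]
    have e1 : ((k / 2 + 1 : ℕ) : ℝ) ≤ 2 ^ (2 * u) := by
      refine le_trans ?_ hkr2
      exact_mod_cast (by omega : k / 2 + 1 ≤ k)
    have e2 : (E ^ (2 * t0 + 8)) ^ 2 ≤ 2 ^ (3 * u * (4 * t0 + 16)) := by
      calc (E ^ (2 * t0 + 8)) ^ 2 ≤ ((2 ^ (3 * u)) ^ (2 * t0 + 8)) ^ 2 := by gcongr
        _ = 2 ^ (3 * u * (4 * t0 + 16)) := by rw [← pow_mul, ← pow_mul]; congr 1; ring
    rw [le_div_iff₀ (by positivity)]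
    have e3 : (2 : ℝ) ^ (2 * u * t0) * (2 ^ (u * t0) * (2 ^ 4 * 2 ^ (3 * u * (4 * t0 + 16)))) * 2 ^ (A * u + 2) ≤ 2 ^ m := by
      rw [← pow_add, ← pow_add, ← pow_add, ← pow_add]
      apply pow_le_pow_right₀ (by norm_num)
      have e4 : 2 * u * t0 + (u * t0 + (4 + 3 * u * (4 * t0 + 16))) + (A * u + 2) = 15 * A1 * s + 48 * u + A * u + 6 := by
        rw [ht0, hs]; ring
      have e5 : m = 15 * A1 * s + 54 * s + A * s := by rw [hm, hA2]; ring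
      have e6 : A * u ≤ A * s := Nat.mul_le_mul_left _ hus
      rw [e4, e5]
      omega
    calc ((k / 2 + 1 : ℕ) : ℝ) ^ t0 * ((b : ℝ) ^ t0 * (9 * (E ^ (2 * t0 + 8)) ^ 2 * (N ^ 2 / 2 ^ m))) * 2 ^ (A * u + 2)
        ≤ (2 ^ (2 * u)) ^ t0 * ((2 ^ u) ^ t0 * (2 ^ 4 * 2 ^ (3 * u * (4 * t0 + 16)) * (N ^ 2 / 2 ^ m))) * 2 ^ (A * u + 2) := by
          gcongr
          norm_num
      _ = (2 : ℝ) ^ (2 * u * t0) * (2 ^ (u * t0) * (2 ^ 4 * 2 ^ (3 * u * (4 * t0 + 16)))) * 2 ^ (A * u + 2) * (N ^ 2 / 2 ^ m) := by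
          rw [← pow_mul, ← pow_mul]; ring
      _ ≤ 2 ^ m * (N ^ 2 / 2 ^ m) := by gcongr
      _ = N ^ 2 := by field_simp
  have hfin : 3 * (N ^ 2 / 2 ^ (A * u + 2)) ≤ N ^ 2 / 2 ^ (A * u) := by
    rw [pow_add, ← div_div]
    have : 0 < N ^ 2 / 2 ^ (A * u) := by positivity
    linarith
  have hp := parts (b := b) (k := k) (m := m) (t0 := t0) (by omega) (g0 b k m)
  linarith

end Pool.Agent.V7H99.SY
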