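import Mathlib
import Pool.Agent.V7H99.SY.R6

/-! Almost all digit symmetries (helper99). -/

set_option autoImplicit false

namespace Pool.Agent.V7H99.SY
open Finset

section sym
variable {b : ℕ} [NeZero b] {G : Type*} [Group G] [Fintype G] [MulAction G (Fin b)]

open Classical in
/-- for almost all digit symmetries the sum of the difference is small -/
theorem dev_small (hb3 : 3 ≤ b) (h2 : TwoTrans G b) (A : ℕ) : ∃ A2 K0 : ℕ, 1 ≤ A2 ∧ ∀ k : ℕ, K0 ≤ k →
    2 * (A2 * (Nat.log 2 k) ^ 2) ≤ k ∧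
    (((univ : Finset (Fin (k / 2) → G)).filter (fun σ => (b : ℝ) ^ (k - k / 2) / 2 ^ (A * Nat.log 2 k) <
      |∑ n ∈ (range (b ^ k)).filter (fun n => SymC (b := b) k σ n), g0 b k (A2 * (Nat.log 2 k) ^ 2) n|)).card : ℝ) ≤
      (Fintype.card G : ℝ) ^ (k / 2) / 2 ^ (A * Nat.log 2 k) := by
  obtain ⟨A2, K0, hA2, h⟩ := total_small hb3 (3 * A)
  refine ⟨A2, K0, hA2, fun k hk => ⟨(h k hk).1, ?_⟩⟩
  have h3 := (h k hk).2
  set u := Nat.log 2 k with hu
  set g := g0 b k (A2 * u ^ 2) with hg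
  have hb0 : (0 : ℝ) < b := by exact_mod_cast (by omega : 0 < b)
  have h4 := second_moment (G := G) (by omega) h2 k (b ^ k) g
  set X : (Fin (k / 2) → G) → ℝ := fun σ => ∑ n ∈ (range (b ^ k)).filter (fun n => SymC (b := b) k σ n), g n with hX
  set V : ℝ := (b : ℝ) ^ (k - k / 2) with hV
  have hV0 : 0 < V := by positivity
  set P : ℝ := 2 ^ (A * u) with hP
  have hP0 : 0 < P := by positivity
  have h5 : ∑ σ : Fin (k / 2) → G, X σ ^ 2 ≤ (Fintype.card G : ℝ) ^ (k / 2) * (V ^ 2 / P ^ 3) := by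
    rw [h4]
    have e1 : (b : ℝ) ^ k = (b : ℝ) ^ (k / 2) * V := by rw [hV, ← pow_add]; congr 1; omega
    have e2 : (2 : ℝ) ^ (3 * A * u) = P ^ 3 := by rw [hP, ← pow_mul]; congr 1; ring
    rw [e1, e2] at h3
    calc (Fintype.card G : ℝ) ^ (k / 2) * (1 / (b : ℝ) ^ 2) ^ (k / 2) *
          ∑ T ∈ (range (k / 2)).powerset, (1 / ((b : ℝ) - 1)) ^ T.card * DD b (b ^ k) g (JJ k T)
        ≤ (Fintype.card G : ℝ) ^ (k / 2) * (1 / (b : ℝ) ^ 2) ^ (k / 2) * (((b : ℝ) ^ (k / 2) * V) ^ 2 / P ^ 3) := by gcongr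
      _ = (Fintype.card G : ℝ) ^ (k / 2) * (V ^ 2 / P ^ 3) * ((1 / (b : ℝ) ^ 2) ^ (k / 2) * ((b : ℝ) ^ (k / 2)) ^ 2) := by ring
      _ = (Fintype.card G : ℝ) ^ (k / 2) * (V ^ 2 / P ^ 3) := by
          have : (1 / (b : ℝ) ^ 2) ^ (k / 2) * ((b : ℝ) ^ (k / 2)) ^ 2 = 1 := by
            rw [← pow_mul, mul_comm (k / 2) 2, pow_mul, ← mul_pow, one_div, inv_mul_cancel₀ (by positivity), one_pow]
          rw [this, mul_one]
  set S := (univ : Finset (Fin (k / 2) → G)).filter (fun σ => V / P < |X σ|) with hS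
  have h6 : (S.card : ℝ) * (V / P) ^ 2 ≤ ∑ σ : Fin (k / 2) → G, X σ ^ 2 := by
    calc (S.card : ℝ) * (V / P) ^ 2 = ∑ _σ ∈ S, (V / P) ^ 2 := by rw [sum_const, nsmul_eq_mul]
      _ ≤ ∑ σ ∈ S, X σ ^ 2 := by
          apply sum_le_sum; intro σ hσ
          rw [hS, mem_filter] at hσ
          rw [← sq_abs (X σ)]
          exact pow_le_pow_left₀ (by positivity) hσ.2.le 2
      _ ≤ ∑ σ : Fin (k / 2) → G, X σ ^ 2 :=
          sum_le_sum_of_subset_of_nonneg (subset_univ _) fun σ _ _ => sq_nonneg _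
  have h7 := h6.trans h5
  have h8 : (Fintype.card G : ℝ) ^ (k / 2) * (V ^ 2 / P ^ 3) = ((Fintype.card G : ℝ) ^ (k / 2) / P) * (V / P) ^ 2 := by
    field_simp
  rw [h8] at h7
  exact le_of_mul_le_mul_right h7 (by positivity)

/-! ## the main term -/

lemma dg_expand {b : ℕ} (hb : 1 ≤ b) (f : ℕ → ℕ) (hf : ∀ i, f i < b) (h : ℕ) :
    (∑ j ∈ range h, b ^ j * f j < b ^ h) ∧ ∀ i, i < h → dg b i (∑ j ∈ range h, b ^ j * f j) = f i := by
  induction h with
  | zero => simp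
  | succ h ih =>
    obtain ⟨h1, h2⟩ := ih
    rw [sum_range_succ, mul_comm (b ^ h) (f h)]
    refine ⟨?_, ?_⟩
    · calc ∑ j ∈ range h, b ^ j * f j + f h * b ^ h < b ^ h + f h * b ^ h := by omega
        _ = (f h + 1) * b ^ h := by ring
        _ ≤ b * b ^ h := Nat.mul_le_mul_right _ (hf h)
        _ = b ^ (h + 1) := by rw [pow_succ]; ring
    · intro i hi
      rcases Nat.lt_or_ge i h with hih | hih
      · rw [dg_add_low hb hih, h2 i hih]
      · have : i = h := by omega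
        rw [this, dg_add_top hb h1 (hf h)]

/-- the low digits determined by the high digits -/
noncomputable def lowf (k : ℕ) (σ : Fin (k / 2) → G) (q j : ℕ) : ℕ :=
  if hj : j < k / 2 then ((σ ⟨j, hj⟩)⁻¹ • fd b (k - 1 - j - k / 2) q : Fin b).val else 0

lemma lowf_lt (k : ℕ) (σ : Fin (k / 2) → G) (q j : ℕ) : lowf (b := b) k σ q j < b := by
  unfold lowf
  split_ifs
  · exact Fin.is_lt _
  · exact Nat.pos_of_ne_zero (NeZero.ne b)

/-- the low part -/
noncomputable def lowq (b : ℕ) [NeZero b] {G : Type*} [Group G] [MulAction G (Fin b)] (k : ℕ) (σ : Fin (k / 2) → G) (q : ℕ) : ℕ :=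
  ∑ j ∈ range (k / 2), b ^ j * lowf (b := b) k σ q j

lemma fd_div {e i n : ℕ} : fd b (e + i) n = fd b i (n / b ^ e) := by
  unfold fd
  rw [Nat.div_div_eq_div_mul, ← pow_add]

lemma fd_val (j n : ℕ) : (fd b j n).val = dg b j n := rfl

open Classical in
theorem sum_sym (k : ℕ) (σ : Fin (k / 2) → G) (g : ℕ → ℝ) :
    ∑ n ∈ (range (b ^ k)).filter (fun n => SymC (b := b) k σ n), g n =
      ∑ q ∈ range (b ^ (k - k / 2)), g (lowq b k σ q + q * b ^ (k / 2)) := by
  have hb : 1 ≤ b := Nat.pos_of_ne_zero (NeZero.ne b)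
  have hbh : 0 < b ^ (k / 2) := by positivity
  have hlow : ∀ q, lowq b k σ q < b ^ (k / 2) := fun q => (dg_expand hb _ (fun i => lowf_lt k σ q i) (k / 2)).1
  have hdig : ∀ q i, i < k / 2 → dg b i (lowq b k σ q) = lowf (b := b) k σ q i := fun q i hi =>
    (dg_expand hb _ (fun i => lowf_lt k σ q i) (k / 2)).2 i hi
  have hdiv : ∀ q, (lowq b k σ q + q * b ^ (k / 2)) / b ^ (k / 2) = q := by
    intro q
    rw [Nat.add_mul_div_right _ _ hbh, Nat.div_eq_of_lt (hlow q), zero_add]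
  have hleft : ∀ n, SymC (b := b) k σ n → lowq b k σ (n / b ^ (k / 2)) + n / b ^ (k / 2) * b ^ (k / 2) = n := by
    intro n hn
    have h1 : lowq b k σ (n / b ^ (k / 2)) = n % b ^ (k / 2) := by
      rw [← dgsum]
      unfold lowq
      apply sum_congr rfl; intro j hj
      rw [mem_range] at hj
      congr 1
      unfold lowf
      rw [dif_pos hj, ← fd_div]
      have e1 : k / 2 + (k - 1 - j - k / 2) = k - 1 - j := by omega
      rw [e1, ← hn ⟨j, hj⟩, inv_smul_smul, fd_val]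
    rw [h1, mul_comm]
    exact Nat.mod_add_div _ _
  refine sum_nbij' (fun n => n / b ^ (k / 2)) (fun q => lowq b k σ q + q * b ^ (k / 2)) ?_ ?_ ?_ ?_ ?_
  · intro n hn
    rw [mem_filter, mem_range] at hn
    rw [mem_range, Nat.div_lt_iff_lt_mul hbh, ← pow_add]
    rw [Nat.sub_add_cancel (by omega)]
    exact hn.1
  · intro q hq
    rw [mem_range] at hq
    rw [mem_filter, mem_range]
    constructor
    · calc lowq b k σ q + q * b ^ (k / 2) < b ^ (k / 2) + q * b ^ (k / 2) := by have := hlow q; omega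
        _ = (q + 1) * b ^ (k / 2) := by ring
        _ ≤ b ^ (k - k / 2) * b ^ (k / 2) := Nat.mul_le_mul_right _ hq
        _ = b ^ k := by rw [← pow_add]; congr 1; omega
    · intro i
      have hi := i.2
      have h1 : fd b (k - 1 - i) (lowq b k σ q + q * b ^ (k / 2)) = fd b (k - 1 - i - k / 2) q := by
        have e1 : k - 1 - i = k / 2 + (k - 1 - i - k / 2) := by omega
        conv_lhs => rw [e1]
        rw [fd_div, hdiv]
      have h2 : fd b i (lowq b k σ q + q * b ^ (k / 2)) = (σ i)⁻¹ • fd b (k - 1 - i - k / 2) q := by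
        apply Fin.ext
        rw [fd_val, dg_add_low hb hi, hdig q i hi]
        unfold lowf
        rw [dif_pos hi]
      rw [h1, h2, smul_inv_smul]
  · intro n hn
    rw [mem_filter] at hn
    exact hleft n hn.2
  · intro q _
    exact hdiv q
  · intro n hn
    rw [mem_filter] at hn
    rw [hleft n hn.2]

end sym

end Pool.Agent.V7H99.SY
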