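import Mathlib
import Pool.Agent.V7H99.SY.R7
import Pool.Agent.H442R2.EHI.PntErr

/-! The main term (helper99). -/

set_option autoImplicit false

namespace Pool.Agent.V7H99.SY
open Finset

lemma rsplit {A : ℕ} (hA : 0 < A) (B : ℕ) (G : ℕ → ℝ) :
    ∑ n ∈ range (A * B), G n = ∑ r ∈ range A, ∑ d ∈ range B, G (r + d * A) := by
  have h := sum_split' hA B (fun n => (G n : ℂ))
  exact_mod_cast h

lemma Ps_add (L a : ℕ) : ∀ R : ℕ, ∑ c ∈ range R, Ps L (c + a) = ∑ n ∈ Ico (a * L) ((R + a) * L), ArithmeticFunction.vonMangoldt n := by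
  intro R
  induction R with
  | zero => simp
  | succ R ih =>
    rw [sum_range_succ, ih]
    unfold Ps
    rw [sum_Ico_consecutive]
    · congr 2; ring
    · exact Nat.mul_le_mul_right _ (by omega)
    · exact Nat.mul_le_mul_right _ (by omega)

lemma Ps_block (L R d : ℕ) : ∑ c ∈ range R, Ps L (c + d * R) = Ps (L * R) d := by
  rw [Ps_add]
  unfold Ps
  congr 2
  · ring
  · ring

lemma coprime_dg {b : ℕ} (n : ℕ) : n.Coprime b ↔ (dg b 0 n).Coprime b := by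
  unfold dg
  rw [pow_zero, Nat.div_one]
  conv_lhs => rw [← Nat.mod_add_div n b, mul_comm b]
  unfold Nat.Coprime
  rw [Nat.gcd_add_mul_right_left]

section sym
variable {b : ℕ} [NeZero b] {G : Type*} [Group G] [Fintype G] [MulAction G (Fin b)]

open Classical in
/-- the main term -/
theorem main_sum (hb : 2 ≤ b) {k m : ℕ} (hm : 1 ≤ m) (hmk : 2 * m ≤ k) (σ : Fin (k / 2) → G) (hk : 0 < k / 2) :
    ∑ q ∈ range (b ^ (k - k / 2)), g1 b k m (lowq b k σ q + q * b ^ (k / 2)) =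
      ((b : ℝ) / (Nat.totient b : ℝ)) / (b : ℝ) ^ (k / 2) *
        ∑ d ∈ (Ico 1 b).filter (fun d => ((σ ⟨0, hk⟩)⁻¹ • (Fin.ofNat b d : Fin b) : Fin b).val.Coprime b), Ps (b ^ (k - 1)) d := by
  have hb1 : 1 ≤ b := by omega
  have hbh : 0 < b ^ (k / 2) := by positivity
  set L := b ^ (k - m - k / 2) with hL
  have hL0 : 0 < L := by positivity
  have hlow : ∀ q, lowq b k σ q < b ^ (k / 2) := fun q => (dg_expand hb1 _ (fun i => lowf_lt k σ q i) (k / 2)).1
  have hdiv : ∀ q, (lowq b k σ q + q * b ^ (k / 2)) / b ^ (k / 2) = q := by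
    intro q
    rw [Nat.add_mul_div_right _ _ hbh, Nat.div_eq_of_lt (hlow q), zero_add]
  have hdiv2 : ∀ q e, k / 2 ≤ e → (lowq b k σ q + q * b ^ (k / 2)) / b ^ e = q / b ^ (e - k / 2) := by
    intro q e he
    have e1 : b ^ e = b ^ (k / 2) * b ^ (e - k / 2) := by rw [← pow_add]; congr 1; omega
    rw [e1, ← Nat.div_div_eq_div_mul, hdiv]
  -- the model at the symmetric numbers
  have hval : ∀ r c d, r < L → c < b ^ (m - 1) → d < b →
      g1 b k m (lowq b k σ (r + c * L + d * (L * b ^ (m - 1))) + (r + c * L + d * (L * b ^ (m - 1))) * b ^ (k / 2)) =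
        if 1 ≤ d ∧ ((σ ⟨0, hk⟩)⁻¹ • (Fin.ofNat b d : Fin b) : Fin b).val.Coprime b then
          ((b : ℝ) / (Nat.totient b : ℝ)) * (Ps (b ^ (k - m)) (c + d * b ^ (m - 1)) / (b : ℝ) ^ (k - m)) else 0 := by
    intro r c d hr hc hd
    set q := r + c * L + d * (L * b ^ (m - 1)) with hq
    have eLm : b ^ (k - 1 - k / 2) = L * b ^ (m - 1) := by rw [hL, ← pow_add]; congr 1; omega
    have hrc : r + c * L < L * b ^ (m - 1) := by
      calc r + c * L < L + c * L := by omega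
        _ = (c + 1) * L := by ring
        _ ≤ b ^ (m - 1) * L := Nat.mul_le_mul_right _ hc
        _ = _ := by ring
    have hqd : q / b ^ (k - 1 - k / 2) = d := by
      rw [eLm, hq, Nat.add_mul_div_right _ _ (by positivity), Nat.div_eq_of_lt hrc, zero_add]
    have hqc : q / L = c + d * b ^ (m - 1) := by
      have : q = r + (c + d * b ^ (m - 1)) * L := by rw [hq]; ring
      rw [this, Nat.add_mul_div_right _ _ hL0, Nat.div_eq_of_lt hr, zero_add]
    unfold g1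
    have c1 : (lowq b k σ q + q * b ^ (k / 2)).Coprime b ↔ ((σ ⟨0, hk⟩)⁻¹ • (Fin.ofNat b d : Fin b) : Fin b).val.Coprime b := by
      rw [coprime_dg, dg_add_low hb1 hk]
      unfold lowq
      rw [(dg_expand hb1 _ (fun i => lowf_lt k σ q i) (k / 2)).2 0 hk]
      unfold lowf
      rw [dif_pos hk]
      have : fd b (k - 1 - 0 - k / 2) q = Fin.ofNat b d := by
        unfold fd
        rw [Nat.sub_zero, hqd]
      rw [this]
    have c2 : b ^ (k - 1) ≤ lowq b k σ q + q * b ^ (k / 2) ↔ 1 ≤ d := by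
      have e1 : b ^ (k - 1) ≤ lowq b k σ q + q * b ^ (k / 2) ↔ 1 ≤ (lowq b k σ q + q * b ^ (k / 2)) / b ^ (k - 1) := by
        rw [Nat.le_div_iff_mul_le (by positivity), one_mul]
      rw [e1, hdiv2 q (k - 1) (by omega), hqd]
    have c3 : (lowq b k σ q + q * b ^ (k / 2)) / b ^ (k - m) = c + d * b ^ (m - 1) := by
      rw [hdiv2 q (k - m) (by omega), ← hL, hqc]
    rw [c3]
    simp only [c1, c2, and_comm]
  have e0 : b ^ (k - k / 2) = (L * b ^ (m - 1)) * b := by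
    rw [hL, ← pow_add, ← pow_succ]; congr 1; omega
  rw [e0, rsplit (by positivity), rsplit hL0]
  have e1 : ∀ r ∈ range L, ∑ c ∈ range (b ^ (m - 1)), ∑ d ∈ range b,
      g1 b k m (lowq b k σ (r + c * L + d * (L * b ^ (m - 1))) + (r + c * L + d * (L * b ^ (m - 1))) * b ^ (k / 2)) =
      ∑ d ∈ range b, if 1 ≤ d ∧ ((σ ⟨0, hk⟩)⁻¹ • (Fin.ofNat b d : Fin b) : Fin b).val.Coprime b then
          ((b : ℝ) / (Nat.totient b : ℝ)) * (Ps (b ^ (k - 1)) d / (b : ℝ) ^ (k - m)) else 0 := by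
    intro r hr
    rw [mem_range] at hr
    rw [sum_comm]
    apply sum_congr rfl; intro d hd
    rw [mem_range] at hd
    have e2 : ∀ c ∈ range (b ^ (m - 1)), g1 b k m (lowq b k σ (r + c * L + d * (L * b ^ (m - 1))) + (r + c * L + d * (L * b ^ (m - 1))) * b ^ (k / 2)) =
        if 1 ≤ d ∧ ((σ ⟨0, hk⟩)⁻¹ • (Fin.ofNat b d : Fin b) : Fin b).val.Coprime b then
          ((b : ℝ) / (Nat.totient b : ℝ)) * (Ps (b ^ (k - m)) (c + d * b ^ (m - 1)) / (b : ℝ) ^ (k - m)) else 0 := by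
      intro c hc
      rw [mem_range] at hc
      exact hval r c d hr hc hd
    rw [sum_congr rfl e2]
    split_ifs with hcond
    · rw [← mul_sum, ← sum_div, Ps_block]
      congr 3
      rw [← pow_add]; congr 1; omega
    · exact sum_const_zero
  rw [sum_congr rfl e1, sum_const, card_range, nsmul_eq_mul, mul_sum]
  have e3 : ∑ d ∈ (Ico 1 b).filter (fun d => ((σ ⟨0, hk⟩)⁻¹ • (Fin.ofNat b d : Fin b) : Fin b).val.Coprime b), Ps (b ^ (k - 1)) d =
      ∑ d ∈ range b, if 1 ≤ d ∧ ((σ ⟨0, hk⟩)⁻¹ • (Fin.ofNat b d : Fin b) : Fin b).val.Coprime b then Ps (b ^ (k - 1)) d else 0 := by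
    rw [← sum_filter]
    apply sum_congr _ fun _ _ => rfl
    ext d
    rw [mem_filter, mem_filter, mem_Ico, mem_range]
    tauto
  rw [e3, mul_sum]
  apply sum_congr rfl; intro d _
  split_ifs with hcond
  · have hb0 : (b : ℝ) ≠ 0 := by positivity
    have e4 : (b : ℝ) ^ (k - m) = (L : ℝ) * (b : ℝ) ^ (k / 2) := by
      rw [hL]; push_cast; rw [← pow_add]; congr 1; omega
    rw [e4]
    have hLr : (L : ℝ) ≠ 0 := by positivity
    field_simp
  · ring

end sym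

lemma Ps_psi {L d : ℕ} (hL : 1 ≤ L) (hd : 1 ≤ d) :
    Ps L d = Chebyshev.psi (((d + 1) * L - 1 : ℕ) : ℝ) - Chebyshev.psi ((d * L - 1 : ℕ) : ℝ) := by
  rw [Chebyshev.psi_eq_sum_Icc, Chebyshev.psi_eq_sum_Icc, Nat.floor_natCast, Nat.floor_natCast]
  have h1 : 1 ≤ d * L := Nat.mul_pos hd hL
  have h2 : d * L ≤ (d + 1) * L := Nat.mul_le_mul_right _ (by omega)
  have e1 : ∀ a, 1 ≤ a → Icc 0 (a - 1) = range a := by
    intro a ha
    ext n
    rw [mem_Icc, mem_range]; omega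
  rw [e1 _ h1, e1 _ (h1.trans h2)]
  unfold Ps
  rw [sum_Ico_eq_sub _ h2]

/-- the prime number theorem for the leading digit -/
theorem Ps_pnt {b : ℕ} (hb : 2 ≤ b) (A : ℕ) : ∃ K0 : ℕ, ∀ k : ℕ, K0 ≤ k → ∀ d : ℕ, 1 ≤ d → d < b →
    |Ps (b ^ (k - 1)) d - (b : ℝ) ^ (k - 1)| ≤ (b : ℝ) ^ (k - 1) / (k : ℝ) ^ A := by
  obtain ⟨C, hC, N₁, hlarge⟩ := Pool.Agent.H442R2.EHI.PntErrAux.largeU (A + 1)
  obtain ⟨U0, hU0⟩ := ev_pow 24 A
  obtain ⟨K1, hK1⟩ := exists_nat_ge (4 * C * b * 4 ^ (A + 1))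
  refine ⟨max (max K1 (U0 + 1)) (max (N₁ + 3) 4), fun k hk d hd1 hdb => ?_⟩
  have hka : K1 ≤ k := le_trans (le_trans (le_max_left _ _) (le_max_left _ _)) hk
  have hkb : U0 + 1 ≤ k := le_trans (le_trans (le_max_right _ _) (le_max_left _ _)) hk
  have hkc : N₁ + 3 ≤ k := le_trans (le_trans (le_max_left _ _) (le_max_right _ _)) hk
  have hk4 : 4 ≤ k := le_trans (le_trans (le_max_right _ _) (le_max_right _ _)) hk
  have hb0 : (0 : ℝ) < b := by exact_mod_cast (by omega : 0 < b)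
  have hb2 : (2 : ℝ) ≤ b := by exact_mod_cast hb
  have hb1 : (1 : ℝ) ≤ b := by linarith
  set L := b ^ (k - 1) with hL
  have hL1 : 1 ≤ L := Nat.one_le_pow _ _ (by omega)
  have hLr : (L : ℝ) = (b : ℝ) ^ (k - 1) := by rw [hL]; push_cast; rfl
  have hk0 : (0 : ℝ) < k := by exact_mod_cast (by omega : 0 < k)
  have hkA : (0 : ℝ) < (k : ℝ) ^ A := by positivity
  rw [Ps_psi hL1 hd1, ← hLr]
  have hbk : b ^ (k - 2) * 2 ≤ L := by
    rw [hL, show k - 1 = (k - 2) + 1 by omega, pow_succ]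
    exact Nat.mul_le_mul_left _ hb
  have hk2 : k - 2 < b ^ (k - 2) := by
    calc k - 2 < 2 ^ (k - 2) := Nat.lt_two_pow_self
      _ ≤ b ^ (k - 2) := Nat.pow_le_pow_left hb _
  -- the error at one place
  have herr : ∀ a : ℕ, 1 ≤ a → a ≤ b → |Chebyshev.psi ((a * L - 1 : ℕ) : ℝ) - ((a * L - 1 : ℕ) : ℝ)| ≤
      C * (b * L / (k / 4 : ℝ) ^ (A + 1)) + 2 := by
    intro a ha hab
    have hN : b ^ (k - 2) ≤ a * L - 1 := by
      have : L ≤ a * L := Nat.le_mul_of_pos_left _ ha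
      omega
    have h1 := hlarge (a * L - 1) (by omega)
    refine h1.trans ?_
    gcongr
    · have : a * L - 1 ≤ b * L := (Nat.sub_le _ _).trans (Nat.mul_le_mul_right _ hab)
      exact_mod_cast this
    · have h2 : Real.log ((b ^ (k - 2) : ℕ) : ℝ) ≤ Real.log ((a * L - 1 : ℕ) : ℝ) :=
        Real.log_le_log (by positivity) (by exact_mod_cast hN)
      refine le_trans ?_ h2
      rw [Nat.cast_pow, Real.log_pow]
      have h3 : (1 : ℝ) / 2 ≤ Real.log b := by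
        have h4 : Real.log 2 ≤ Real.log b := Real.log_le_log (by norm_num) hb2
        have := Real.log_two_gt_d9
        linarith
      have h5 : (k : ℝ) / 2 ≤ ((k - 2 : ℕ) : ℝ) := by
        rw [Nat.cast_sub (by omega)]
        have : (4 : ℝ) ≤ k := by exact_mod_cast hk4
        push_cast; linarith
      calc (k : ℝ) / 4 = (k / 2) * (1 / 2) := by ring
        _ ≤ ((k - 2 : ℕ) : ℝ) * Real.log b := by gcongr
  have e1 := herr (d + 1) (by omega) (by omega)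
  have e2 := herr d hd1 (by omega)
  have h1 : 1 ≤ d * L := Nat.mul_pos hd1 hL1
  have h2 : d * L ≤ (d + 1) * L := Nat.mul_le_mul_right _ (by omega)
  have e3 : (((d + 1) * L - 1 : ℕ) : ℝ) - ((d * L - 1 : ℕ) : ℝ) = L := by
    rw [Nat.cast_sub (by omega), Nat.cast_sub (by omega)]
    push_cast; ring
  have e4 : |Chebyshev.psi (((d + 1) * L - 1 : ℕ) : ℝ) - Chebyshev.psi ((d * L - 1 : ℕ) : ℝ) - L| ≤
      2 * (C * (b * L / (k / 4 : ℝ) ^ (A + 1)) + 2) := by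
    have e5 := abs_sub (Chebyshev.psi (((d + 1) * L - 1 : ℕ) : ℝ) - (((d + 1) * L - 1 : ℕ) : ℝ))
      (Chebyshev.psi ((d * L - 1 : ℕ) : ℝ) - ((d * L - 1 : ℕ) : ℝ))
    have e6 : Chebyshev.psi (((d + 1) * L - 1 : ℕ) : ℝ) - Chebyshev.psi ((d * L - 1 : ℕ) : ℝ) - L =
      (Chebyshev.psi (((d + 1) * L - 1 : ℕ) : ℝ) - (((d + 1) * L - 1 : ℕ) : ℝ)) - (Chebyshev.psi ((d * L - 1 : ℕ) : ℝ) - ((d * L - 1 : ℕ) : ℝ)) := by
      rw [← e3]; ring
    rw [e6]
    linarith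
  refine e4.trans ?_
  rw [le_div_iff₀ hkA]
  have f1 : 2 * (C * (b * L / (k / 4 : ℝ) ^ (A + 1))) * (k : ℝ) ^ A ≤ L / 2 := by
    have f2 : 4 * C * b * 4 ^ (A + 1) ≤ (k : ℝ) := hK1.trans (by exact_mod_cast hka)
    have f3 : 2 * (C * (b * L / (k / 4 : ℝ) ^ (A + 1))) * (k : ℝ) ^ A = (4 * C * b * 4 ^ (A + 1)) * (L / (2 * k)) := by
      rw [div_pow, pow_succ (k : ℝ) A]
      field_simp
      ring
    rw [f3]
    calc (4 * C * b * 4 ^ (A + 1)) * (L / (2 * k)) ≤ k * (L / (2 * k)) := by gcongr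
      _ = L / 2 := by field_simp
  have f4 : 4 * (k : ℝ) ^ A ≤ L / 2 := by
    have f5 := hU0 (k - 1) (by omega)
    rw [Nat.cast_sub (by omega)] at f5
    push_cast at f5
    rw [sub_add_cancel] at f5
    have f6 : (2 : ℝ) ^ (k - 1) ≤ L := by
      rw [hLr]; exact pow_le_pow_left₀ (by norm_num) hb2 _
    linarith
  calc 2 * (C * (b * L / (k / 4 : ℝ) ^ (A + 1)) + 2) * (k : ℝ) ^ A =
        2 * (C * (b * L / (k / 4 : ℝ) ^ (A + 1))) * (k : ℝ) ^ A + 4 * (k : ℝ) ^ A := by ring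
    _ ≤ L / 2 + L / 2 := by gcongr
    _ = L := by ring

end Pool.Agent.V7H99.SY
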