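import Mathlib
import Pool.Agent.V7H99.SY.R8

/-! The prime number theorem for almost all digit symmetries: finite version (helper99). -/

set_option autoImplicit false

namespace Pool.Agent.V7H99.SY
open Finset

/-- the number of digits `x` which are coprime to the base and are not moved to `0` -/
noncomputable def cc (b : ℕ) [NeZero b] {G : Type*} [Group G] [MulAction G (Fin b)] (g : G) : ℕ :=
  ((univ : Finset (Fin b)).filter (fun x => x.val.Coprime b ∧ g • x ≠ 0)).card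

/-- the first entry -/
def hd1 {G : Type*} [One G] {h : ℕ} (σ : Fin h → G) : G := if hh : 0 < h then σ ⟨0, hh⟩ else 1

section sym
variable {b : ℕ} [NeZero b] {G : Type*} [Group G] [Fintype G] [MulAction G (Fin b)]

omit [Fintype G] in
open Classical in
lemma cc_eq (g : G) :
    ((Ico 1 b).filter (fun d => (g⁻¹ • (Fin.ofNat b d : Fin b) : Fin b).val.Coprime b)).card = cc b g := by
  unfold cc
  have hval : ∀ d, d < b → (Fin.ofNat b d : Fin b).val = d := fun d hd => by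
    show d % b = d
    exact Nat.mod_eq_of_lt hd
  have hval2 : ∀ x : Fin b, Fin.ofNat b x.val = x := fun x => Fin.ext (hval _ x.2)
  refine card_nbij' (fun d => g⁻¹ • (Fin.ofNat b d : Fin b)) (fun x => (g • x).val) ?_ ?_ ?_ ?_
  · intro d hd
    rw [mem_coe, mem_filter, mem_Ico] at hd
    rw [mem_coe, mem_filter]
    refine ⟨mem_univ _, hd.2, ?_⟩
    rw [smul_inv_smul]
    intro h
    have := congrArg Fin.val h
    rw [hval d hd.1.2, Fin.val_zero] at this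
    omega
  · intro x hx
    rw [mem_coe, mem_filter] at hx
    rw [mem_coe, mem_filter, mem_Ico]
    refine ⟨⟨?_, Fin.is_lt _⟩, ?_⟩
    · rw [Nat.one_le_iff_ne_zero]
      intro h
      exact hx.2.2 (Fin.ext h)
    · rw [hval2, inv_smul_smul]
      exact hx.2.1
  · intro d hd
    rw [mem_coe, mem_filter, mem_Ico] at hd
    simp only
    rw [smul_inv_smul, hval d hd.1.2]
  · intro x _
    simp only
    rw [hval2, inv_smul_smul]

/-- the sum over the primes with the symmetry -/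
noncomputable def TT (b : ℕ) [NeZero b] {G : Type*} [Group G] [MulAction G (Fin b)] (k : ℕ) (σ : Fin (k / 2) → G) : ℝ :=
  open Classical in ∑ n ∈ (range (b ^ k)).filter (fun n => SymC (b := b) k σ n), if b ^ (k - 1) ≤ n then th n else 0

lemma main_close (hb : 2 ≤ b) (A : ℕ) : ∃ K0 : ℕ, ∀ k : ℕ, K0 ≤ k → ∀ m, 1 ≤ m → 2 * m ≤ k → ∀ σ : Fin (k / 2) → G,
    |∑ q ∈ range (b ^ (k - k / 2)), g1 b k m (lowq b k σ q + q * b ^ (k / 2)) -
      (b : ℝ) ^ (k - k / 2) / (Nat.totient b : ℝ) * cc b (hd1 σ)| ≤ (b : ℝ) ^ (k - k / 2) / (2 * (k : ℝ) ^ A) := by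
  classical
  obtain ⟨K1, h1⟩ := Ps_pnt hb (A + 1)
  refine ⟨max K1 (2 * b + 2), fun k hk m hm hmk σ => ?_⟩
  have hka : K1 ≤ k := le_trans (le_max_left _ _) hk
  have hkb : 2 * b + 2 ≤ k := le_trans (le_max_right _ _) hk
  have hk2 : 0 < k / 2 := by omega
  have hb0 : (0 : ℝ) < b := by exact_mod_cast (by omega : 0 < b)
  have hφ : (1 : ℝ) ≤ (Nat.totient b : ℝ) := by exact_mod_cast Nat.totient_pos.2 (by omega)
  have hk0 : (0 : ℝ) < k := by exact_mod_cast (by omega : 0 < k)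
  have hd : hd1 σ = σ ⟨0, hk2⟩ := by unfold hd1; rw [dif_pos hk2]
  rw [main_sum hb hm hmk σ hk2, hd, ← cc_eq]
  set S := (Ico 1 b).filter (fun d => ((σ ⟨0, hk2⟩)⁻¹ • (Fin.ofNat b d : Fin b) : Fin b).val.Coprime b) with hS
  have e1 : (b : ℝ) ^ (k - k / 2) / (Nat.totient b : ℝ) * (S.card : ℝ) =
      ((b : ℝ) / (Nat.totient b : ℝ)) / (b : ℝ) ^ (k / 2) * ∑ _d ∈ S, (b : ℝ) ^ (k - 1) := by
    rw [sum_const, nsmul_eq_mul]
    have : (b : ℝ) ^ (k - k / 2) * (b : ℝ) ^ (k / 2) = b * (b : ℝ) ^ (k - 1) := by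
      rw [← pow_add, ← pow_succ']; congr 1; omega
    field_simp
    calc (b : ℝ) ^ (k - k / 2) * (S.card : ℝ) * (b : ℝ) ^ (k / 2) = (S.card : ℝ) * ((b : ℝ) ^ (k - k / 2) * (b : ℝ) ^ (k / 2)) := by ring
      _ = _ := by rw [this]; ring
  rw [e1, ← mul_sub, ← sum_sub_distrib, abs_mul, abs_of_pos (by positivity)]
  have e2 : |∑ d ∈ S, (Ps (b ^ (k - 1)) d - (b : ℝ) ^ (k - 1))| ≤ b * ((b : ℝ) ^ (k - 1) / (k : ℝ) ^ (A + 1)) := by
    refine (abs_sum_le_sum_abs _ _).trans ?_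
    have e3 : ∀ d ∈ S, |Ps (b ^ (k - 1)) d - (b : ℝ) ^ (k - 1)| ≤ (b : ℝ) ^ (k - 1) / (k : ℝ) ^ (A + 1) := by
      intro d hd
      rw [hS, mem_filter, mem_Ico] at hd
      exact h1 k hka d hd.1.1 hd.1.2
    refine (sum_le_sum e3).trans ?_
    rw [sum_const, nsmul_eq_mul]
    have e4 : S.card ≤ b := by
      refine (card_filter_le _ _).trans ?_
      rw [Nat.card_Ico]; omega
    gcongr
  have e5 : (b : ℝ) / (Nat.totient b : ℝ) ≤ b := div_le_self hb0.le hφ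
  have e6 : (b : ℝ) ^ (k - k / 2) * (b : ℝ) ^ (k / 2) = b * (b : ℝ) ^ (k - 1) := by
    rw [← pow_add, ← pow_succ']; congr 1; omega
  calc (b : ℝ) / (Nat.totient b : ℝ) / (b : ℝ) ^ (k / 2) * |∑ d ∈ S, (Ps (b ^ (k - 1)) d - (b : ℝ) ^ (k - 1))|
      ≤ (b : ℝ) / (b : ℝ) ^ (k / 2) * (b * ((b : ℝ) ^ (k - 1) / (k : ℝ) ^ (A + 1))) := by gcongr
    _ = b * (b * (b : ℝ) ^ (k - 1) / (b : ℝ) ^ (k / 2)) / (k : ℝ) ^ (A + 1) := by ring
    _ = b * (b : ℝ) ^ (k - k / 2) / (k : ℝ) ^ (A + 1) := by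
        rw [← e6, mul_div_cancel_right₀ _ (by positivity)]
    _ ≤ (b : ℝ) ^ (k - k / 2) / (2 * (k : ℝ) ^ A) := by
        rw [div_le_div_iff₀ (by positivity) (by positivity), pow_succ]
        have e7 : 2 * (b : ℝ) ≤ k := by exact_mod_cast (by omega : 2 * b ≤ k)
        calc (b : ℝ) * (b : ℝ) ^ (k - k / 2) * (2 * (k : ℝ) ^ A) = (b : ℝ) ^ (k - k / 2) * ((k : ℝ) ^ A * (2 * b)) := by ring
          _ ≤ (b : ℝ) ^ (k - k / 2) * ((k : ℝ) ^ A * k) := by gcongr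

open Classical in
/-- the finite version -/
theorem finite_log (hb3 : 3 ≤ b) (h2 : TwoTrans G b) (A : ℕ) : ∃ K0 : ℕ, 2 ≤ K0 ∧ ∀ k : ℕ, K0 ≤ k →
    (((univ : Finset (Fin (k / 2) → G)).filter (fun σ => (b : ℝ) ^ (k - k / 2) / (k : ℝ) ^ A <
      |TT b k σ - (b : ℝ) ^ (k - k / 2) / (Nat.totient b : ℝ) * cc b (hd1 σ)|)).card : ℝ) ≤
      (Fintype.card G : ℝ) ^ (k / 2) / (k : ℝ) ^ A := by
  obtain ⟨A2, K1, hA2, h1⟩ := dev_small hb3 h2 (A + 1)
  obtain ⟨K2, h3⟩ := main_close (G := G) (b := b) (by omega) A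
  obtain ⟨K3, h4⟩ := ev_ge 1
  refine ⟨max (max K1 K2) (max K3 (2 ^ (A + 2) + 2)), ?_, fun k hk => ?_⟩
  · refine le_trans ?_ (le_max_right _ _)
    refine le_trans ?_ (le_max_right _ _)
    exact Nat.le_add_left _ _
  have hka : K1 ≤ k := le_trans (le_trans (le_max_left _ _) (le_max_left _ _)) hk
  have hkb : K2 ≤ k := le_trans (le_trans (le_max_right _ _) (le_max_left _ _)) hk
  have hkc : K3 ≤ k := le_trans (le_trans (le_max_left _ _) (le_max_right _ _)) hk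
  have hkd : 2 ^ (A + 2) + 2 ≤ k := le_trans (le_trans (le_max_right _ _) (le_max_right _ _)) hk
  obtain ⟨h5, h6⟩ := h1 k hka
  have h7 := h3 k hkb (A2 * (Nat.log 2 k) ^ 2) (Nat.mul_pos hA2 (Nat.pow_pos (h4 k hkc))) h5
  set u := Nat.log 2 k with hu
  have hk2 : k < 2 ^ (u + 1) := Nat.lt_pow_succ_log_self (by norm_num) _
  have hk1 : 2 ≤ k := le_trans (Nat.le_add_left _ _) hkd
  have hk0 : (0 : ℝ) < k := by exact_mod_cast (by omega : 0 < k)
  have hP : 2 * (k : ℝ) ^ A ≤ 2 ^ ((A + 1) * u) := by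
    have e1 : (k : ℝ) ≤ 2 * 2 ^ u := by
      have : (k : ℝ) ≤ 2 ^ (u + 1) := by exact_mod_cast hk2.le
      rw [pow_succ] at this; linarith
    have e2 : (k : ℝ) ^ (A + 1) ≤ 2 ^ (A + 1) * 2 ^ ((A + 1) * u) := by
      calc (k : ℝ) ^ (A + 1) ≤ (2 * 2 ^ u) ^ (A + 1) := by gcongr
        _ = _ := by rw [mul_pow, ← pow_mul, mul_comm u]
    have e3 : (2 : ℝ) ^ (A + 2) ≤ k := by exact_mod_cast (le_trans (Nat.le_add_right _ _) hkd : 2 ^ (A + 2) ≤ k)
    have e4 : (2 : ℝ) ^ (A + 1) * (2 * (k : ℝ) ^ A) ≤ 2 ^ (A + 1) * 2 ^ ((A + 1) * u) := by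
      calc (2 : ℝ) ^ (A + 1) * (2 * (k : ℝ) ^ A) = 2 ^ (A + 2) * (k : ℝ) ^ A := by rw [pow_succ 2 (A + 1)]; ring
        _ ≤ k * (k : ℝ) ^ A := by gcongr
        _ = (k : ℝ) ^ (A + 1) := by rw [pow_succ]; ring
        _ ≤ _ := e2
    exact le_of_mul_le_mul_left e4 (by positivity)
  have hkA : (0 : ℝ) < (k : ℝ) ^ A := by positivity
  have hV : (0 : ℝ) < (b : ℝ) ^ (k - k / 2) := by
    have : (0 : ℝ) < b := by exact_mod_cast (by omega : 0 < b)
    positivity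
  refine le_trans ?_ (h6.trans ?_)
  · rw [Nat.cast_le]
    apply card_le_card
    intro σ hσ
    rw [mem_filter] at hσ ⊢
    refine ⟨mem_univ _, ?_⟩
    by_contra hcon
    rw [not_lt] at hcon
    have e1 : ∑ n ∈ (range (b ^ k)).filter (fun n => SymC (b := b) k σ n), g0 b k (A2 * u ^ 2) n =
        TT b k σ - ∑ q ∈ range (b ^ (k - k / 2)), g1 b k (A2 * u ^ 2) (lowq b k σ q + q * b ^ (k / 2)) := by
      rw [← sum_sym]
      unfold TT g0
      rw [sum_sub_distrib]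
    rw [e1] at hcon
    have e2 := h7 σ
    have e3 : (b : ℝ) ^ (k - k / 2) / 2 ^ ((A + 1) * u) ≤ (b : ℝ) ^ (k - k / 2) / (2 * (k : ℝ) ^ A) := by
      gcongr
    have e4 : (b : ℝ) ^ (k - k / 2) / (2 * (k : ℝ) ^ A) + (b : ℝ) ^ (k - k / 2) / (2 * (k : ℝ) ^ A) =
        (b : ℝ) ^ (k - k / 2) / (k : ℝ) ^ A := by
      field_simp; norm_num
    have e5 := abs_sub_le (TT b k σ) (∑ q ∈ range (b ^ (k - k / 2)), g1 b k (A2 * u ^ 2) (lowq b k σ q + q * b ^ (k / 2)))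
      ((b : ℝ) ^ (k - k / 2) / (Nat.totient b : ℝ) * cc b (hd1 σ))
    linarith [hσ.2]
  · apply div_le_div_of_nonneg_left (by positivity) hkA
    linarith

end sym

end Pool.Agent.V7H99.SY
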