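import Mathlib
import Pool.Agent.V7H99.SY.Q2

/-! Families of digit permutations: the comparison of quadratic forms (helper99). -/

set_option autoImplicit false

namespace Pool.Agent.V7H99.SY
open Finset

section fam
variable {b : ℕ} {Ω : Type*} [Fintype Ω]

/-- every pair of digits is equally likely -/
def Trans (π : Ω → Equiv.Perm (Fin b)) : Prop :=
  ∀ x y : Fin b, b * (univ.filter (fun ω => π ω x = y)).card = Fintype.card Ω

/-- the spreading condition with constant `lam` -/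
def Spread (π : Ω → Equiv.Perm (Fin b)) (lam : ℝ) : Prop :=
  ∀ f : Fin b → Fin b → ℝ, (∀ x, ∑ y, f x y = 0) → (∀ y, ∑ x, f x y = 0) →
    ∑ ω, (∑ x, f x (π ω x)) ^ 2 ≤ lam * Fintype.card Ω * ∑ x, ∑ y, f x y ^ 2

/-- `b` or `0`, minus `1` -/
noncomputable def dl2 (x x' : Fin b) : ℝ := (if x = x' then (b : ℝ) else 0) - 1

lemma sum_dl2 (x : Fin b) (h : Fin b → ℝ) : ∑ x', h x' * dl2 x x' = b * h x - ∑ x', h x' := by
  unfold dl2
  simp only [mul_sub, mul_one, sum_sub_distrib, mul_ite, mul_zero, sum_ite_eq, mem_univ, if_true]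
  ring

lemma sum_trans {π : Ω → Equiv.Perm (Fin b)} (hb : 0 < b) (hT : Trans π) (f : Fin b → Fin b → ℝ) :
    ∑ ω, ∑ x, f x (π ω x) = (Fintype.card Ω : ℝ) / b * ∑ x, ∑ y, f x y := by
  have hb0 : (b : ℝ) ≠ 0 := by positivity
  rw [sum_comm, mul_sum]
  apply sum_congr rfl; intro x _
  have h1 : ∀ ω, f x (π ω x) = ∑ y, if π ω x = y then f x y else 0 := by
    intro ω
    rw [sum_ite_eq]; simp
  rw [sum_congr rfl fun ω _ => h1 ω, sum_comm, mul_sum]
  apply sum_congr rfl; intro y _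
  rw [← sum_filter, sum_const, nsmul_eq_mul]
  have h2 : (b : ℝ) * ((univ.filter (fun ω => π ω x = y)).card : ℝ) = Fintype.card Ω := by exact_mod_cast hT x y
  rw [← h2]
  field_simp

theorem quad_le {π : Ω → Equiv.Perm (Fin b)} (hb : 0 < b) (hT : Trans π) {lam : ℝ} (hS : Spread π lam) (f : Fin b → Fin b → ℝ) :
    (b : ℝ) ^ 2 * ∑ ω, (∑ x, f x (π ω x)) ^ 2 ≤
      Fintype.card Ω * ((∑ x, ∑ y, f x y) ^ 2 + lam * ∑ x, ∑ y, ∑ x', ∑ y', f x y * f x' y' * (dl2 x x' * dl2 y y')) := by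
  have hb0 : (b : ℝ) ≠ 0 := by positivity
  set r : Fin b → ℝ := fun x => (1 / (b : ℝ)) * ∑ y, f x y with hr
  set s : Fin b → ℝ := fun y => (1 / (b : ℝ)) * ∑ x, f x y with hs
  set c : ℝ := (1 / (b : ℝ) ^ 2) * ∑ x, ∑ y, f x y with hc
  set f0 : Fin b → Fin b → ℝ := fun x y => f x y - r x - s y + c with hf0
  have hrs : ∀ x, ∑ y, f x y = b * r x := fun x => by rw [hr]; field_simp
  have hss : ∀ y, ∑ x, f x y = b * s y := fun y => by rw [hs]; field_simp
  have hcs : ∑ x, ∑ y, f x y = b ^ 2 * c := by rw [hc]; field_simp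
  have hsr : ∑ x, r x = b * c := by
    have : (b : ℝ) * ∑ x, r x = b * (b * c) := by
      rw [mul_sum, ← sum_congr rfl fun x _ => hrs x, hcs]; ring
    exact mul_left_cancel₀ hb0 this
  have hsS : ∑ y, s y = b * c := by
    have : (b : ℝ) * ∑ y, s y = b * (b * c) := by
      rw [mul_sum, ← sum_congr rfl fun y _ => hss y, sum_comm, hcs]; ring
    exact mul_left_cancel₀ hb0 this
  have h1 : ∀ x, ∑ y, f0 x y = 0 := by
    intro x
    rw [hf0]
    simp only [sum_add_distrib, sum_sub_distrib, sum_const, card_univ, Fintype.card_fin, nsmul_eq_mul]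
    rw [hrs, hsS]; ring
  have h2 : ∀ y, ∑ x, f0 x y = 0 := by
    intro y
    rw [hf0]
    simp only [sum_add_distrib, sum_sub_distrib, sum_const, card_univ, Fintype.card_fin, nsmul_eq_mul]
    rw [hss, hsr]; ring
  have h3 : ∀ ω, ∑ x, f x (π ω x) = ∑ x, f0 x (π ω x) + b * c := by
    intro ω
    rw [hf0]
    simp only [sum_add_distrib, sum_sub_distrib, sum_const, card_univ, Fintype.card_fin, nsmul_eq_mul]
    rw [hsr, Equiv.sum_comp (π ω) s, hsS]; ring
  have h4 : ∑ ω, ∑ x, f0 x (π ω x) = 0 := by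
    rw [sum_trans hb hT]
    simp only [h1, sum_const_zero, mul_zero]
  have h5 : ∑ ω, (∑ x, f x (π ω x)) ^ 2 = ∑ ω, (∑ x, f0 x (π ω x)) ^ 2 + Fintype.card Ω * (b * c) ^ 2 := by
    simp only [h3, add_sq, sum_add_distrib, sum_const, card_univ, nsmul_eq_mul]
    rw [← sum_mul, ← mul_sum, h4]; ring
  have h6 : ∑ x, ∑ y, ∑ x', ∑ y', f x y * f x' y' * (dl2 x x' * dl2 y y') = (b : ℝ) ^ 2 * ∑ x, ∑ y, f0 x y ^ 2 := by
    have e1 : ∀ x y, ∑ x', ∑ y', f x y * f x' y' * (dl2 x x' * dl2 y y') = (b : ℝ) ^ 2 * (f x y * f0 x y) := by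
      intro x y
      have e2 : ∀ x', ∑ y', f x y * f x' y' * (dl2 x x' * dl2 y y') = f x y * ((b * (f x' y - r x')) * dl2 x x') := by
        intro x'
        have e3 : ∀ y', f x y * f x' y' * (dl2 x x' * dl2 y y') = f x y * dl2 x x' * (f x' y' * dl2 y y') := fun y' => by ring
        rw [sum_congr rfl fun y' _ => e3 y', ← mul_sum, sum_dl2, hrs]; ring
      rw [sum_congr rfl fun x' _ => e2 x', ← mul_sum, sum_dl2, ← mul_sum, sum_sub_distrib, hss, hsr, hf0]
      ring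
    simp only [e1]
    simp only [← mul_sum]
    congr 1
    have e2 : ∀ x y, f x y * f0 x y = f0 x y ^ 2 + (r x * f0 x y + s y * f0 x y - c * f0 x y) := by
      intro x y
      rw [hf0]; ring
    have e3 : ∑ x, ∑ y, r x * f0 x y = 0 := by
      simp only [← mul_sum, h1, mul_zero, sum_const_zero]
    have e4 : ∑ x, ∑ y, s y * f0 x y = 0 := by
      rw [sum_comm]
      simp only [← mul_sum, h2, mul_zero, sum_const_zero]
    have e5 : ∑ x, ∑ y, c * f0 x y = 0 := by
      simp only [← mul_sum, h1, mul_zero, sum_const_zero]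
    simp only [e2, sum_add_distrib, sum_sub_distrib]
    rw [e3, e4, e5]; ring
  rw [h5, h6, hcs]
  have h7 := hS f0 h1 h2
  have hb2 : (0 : ℝ) ≤ (b : ℝ) ^ 2 := by positivity
  nlinarith [mul_le_mul_of_nonneg_left h7 hb2]

/-! ## kernels -/

/-- the kernel of the family -/
noncomputable def kA (π : Ω → Equiv.Perm (Fin b)) : Matrix (Fin b × Fin b) (Fin b × Fin b) ℝ :=
  fun p p' => (b : ℝ) ^ 2 / Fintype.card Ω * ((univ.filter (fun ω => π ω p.1 = p.2 ∧ π ω p'.1 = p'.2)).card : ℝ)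

/-- the comparison kernel -/
noncomputable def kB (b : ℕ) (lam : ℝ) : Matrix (Fin b × Fin b) (Fin b × Fin b) ℝ :=
  fun p p' => 1 + lam * (dl2 p.1 p'.1 * dl2 p.2 p'.2)

lemma kA_quad [Nonempty Ω] (π : Ω → Equiv.Perm (Fin b)) (v : Fin b × Fin b → ℝ) :
    ∑ p, ∑ p', v p * v p' * kA π p p' = (b : ℝ) ^ 2 / Fintype.card Ω * ∑ ω, (∑ x, v (x, π ω x)) ^ 2 := by
  have h1 : ∀ ω, (∑ x, v (x, π ω x)) ^ 2 = ∑ p, ∑ p', v p * v p' * (if π ω p.1 = p.2 ∧ π ω p'.1 = p'.2 then (1 : ℝ) else 0) := by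
    intro ω
    have h2 : ∑ x, v (x, π ω x) = ∑ p : Fin b × Fin b, v p * (if π ω p.1 = p.2 then (1 : ℝ) else 0) := by
      rw [Fintype.sum_prod_type]
      apply sum_congr rfl; intro x _
      simp
    rw [h2, sq, sum_mul_sum]
    apply sum_congr rfl; intro p _
    apply sum_congr rfl; intro p' _
    by_cases h3 : π ω p.1 = p.2
    · by_cases h4 : π ω p'.1 = p'.2
      · rw [if_pos h3, if_pos h4, if_pos (And.intro h3 h4)]; ring
      · rw [if_neg h4, if_neg (fun (hh : π ω p.1 = p.2 ∧ π ω p'.1 = p'.2) => h4 hh.2)]; ring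
    · rw [if_neg h3, if_neg (fun (hh : π ω p.1 = p.2 ∧ π ω p'.1 = p'.2) => h3 hh.1)]; ring
  simp only [h1]
  have h3 : ∑ ω, ∑ p, ∑ p', v p * v p' * (if π ω p.1 = p.2 ∧ π ω p'.1 = p'.2 then (1 : ℝ) else 0) =
      ∑ p, ∑ p', ∑ ω, v p * v p' * (if π ω p.1 = p.2 ∧ π ω p'.1 = p'.2 then (1 : ℝ) else 0) := by
    rw [sum_comm]
    apply sum_congr rfl; intro p _
    rw [sum_comm]
  rw [h3, mul_sum]
  apply sum_congr rfl; intro p _
  rw [mul_sum]
  apply sum_congr rfl; intro p' _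
  unfold kA
  rw [← mul_sum, ← sum_filter, sum_const, nsmul_eq_mul]
  ring

lemma kA_symm (π : Ω → Equiv.Perm (Fin b)) (p p' : Fin b × Fin b) : kA π p' p = kA π p p' := by
  unfold kA
  congr 3
  ext ω
  rw [mem_filter, mem_filter, and_comm (a := π ω p'.1 = p'.2)]

lemma dl2_symm (x x' : Fin b) : dl2 x' x = dl2 x x' := by
  unfold dl2
  simp only [eq_comm]

lemma psd_of_quad {ι : Type*} [Fintype ι] {M : Matrix ι ι ℝ} (hs : ∀ p p', M p' p = M p p')
    (hq : ∀ v : ι → ℝ, 0 ≤ ∑ p, ∑ p', v p * v p' * M p p') : M.PosSemidef := by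
  rw [Matrix.posSemidef_iff_dotProduct_mulVec]
  refine ⟨?_, fun v => ?_⟩
  · ext p p'
    rw [Matrix.conjTranspose_apply]
    exact hs p p'
  · refine le_of_le_of_eq (hq v) ?_
    unfold dotProduct Matrix.mulVec dotProduct
    apply sum_congr rfl; intro p _
    rw [mul_sum]
    apply sum_congr rfl; intro p' _
    simp only [Pi.star_apply, star_trivial]
    ring

lemma kA_psd [Nonempty Ω] (π : Ω → Equiv.Perm (Fin b)) : (kA π).PosSemidef := by
  apply psd_of_quad (kA_symm π)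
  intro v
  rw [kA_quad]
  apply mul_nonneg (by positivity)
  exact sum_nonneg fun ω _ => sq_nonneg _

lemma kBA_psd [Nonempty Ω] {π : Ω → Equiv.Perm (Fin b)} (hb : 0 < b) (hT : Trans π) {lam : ℝ} (hS : Spread π lam) :
    (kB b lam - kA π).PosSemidef := by
  apply psd_of_quad
  · intro p p'
    rw [Matrix.sub_apply, Matrix.sub_apply, kA_symm]
    unfold kB
    rw [dl2_symm, dl2_symm p.2]
  intro v
  simp only [Matrix.sub_apply, mul_sub, sum_sub_distrib]
  rw [kA_quad]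
  have hΩ : (0 : ℝ) < Fintype.card Ω := by exact_mod_cast Fintype.card_pos
  have h1 := quad_le hb hT hS (fun x y => v (x, y))
  have h2 : ∑ p, ∑ p', v p * v p' * kB b lam p p' = (∑ x, ∑ y, v (x, y)) ^ 2 +
      lam * ∑ x, ∑ y, ∑ x', ∑ y', v (x, y) * v (x', y') * (dl2 x x' * dl2 y y') := by
    unfold kB
    simp only [mul_add, mul_one, sum_add_distrib]
    congr 1
    · rw [← sum_mul_sum, sq, Fintype.sum_prod_type]
    · rw [Fintype.sum_prod_type]
      simp only [mul_sum]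
      apply sum_congr rfl; intro x _
      apply sum_congr rfl; intro y _
      rw [Fintype.sum_prod_type]
      apply sum_congr rfl; intro x' _
      apply sum_congr rfl; intro y' _
      ring
  rw [h2, sub_nonneg, div_mul_eq_mul_div, div_le_iff₀ hΩ]
  linarith

end fam

end Pool.Agent.V7H99.SY
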