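import Mathlib
import Pool.Agent.V7H99.SY.S1

/-! The second moment over random digit symmetries from a family (helper99). -/

set_option autoImplicit false

namespace Pool.Agent.V7H99.SY
open Finset

lemma ones_psd : (Matrix.of (fun (_ _ : ℕ) => (1 : ℝ))).PosSemidef := by
  have h := (Matrix.PosSemidef.one (n := Unit) (R := ℝ)).submatrix (fun _ : ℕ => ())
  have e : (Matrix.of (fun (_ _ : ℕ) => (1 : ℝ))) = (1 : Matrix Unit Unit ℝ).submatrix (fun _ : ℕ => ()) (fun _ : ℕ => ()) := by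
    ext i j
    simp
  rw [e]; exact h

lemma had {A B : Matrix ℕ ℕ ℝ} (hA : A.PosSemidef) (hB : B.PosSemidef) : (Matrix.of (fun n n' => A n n' * B n n')).PosSemidef :=
  Matrix.PosSemidef.hadamard hA hB

lemma prod_psd {ι : Type*} (A B : ι → Matrix ℕ ℕ ℝ) (hA : ∀ i, (A i).PosSemidef) (hBA : ∀ i, (B i - A i).PosSemidef) (s : Finset ι) :
    (Matrix.of (fun n n' : ℕ => ∏ i ∈ s, A i n n')).PosSemidef ∧
    (Matrix.of (fun n n' : ℕ => ∏ i ∈ s, B i n n' - ∏ i ∈ s, A i n n')).PosSemidef := by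
  classical
  induction s using Finset.induction_on with
  | empty =>
    refine ⟨?_, ?_⟩
    · simp only [prod_empty]; exact ones_psd
    · simp only [prod_empty, sub_self]
      exact Matrix.PosSemidef.zero
  | insert j s hj ih =>
    obtain ⟨h1, h2⟩ := ih
    have h3 : (Matrix.of (fun n n' : ℕ => ∏ i ∈ s, B i n n')).PosSemidef := by
      have h4 := h2.add h1
      have e : (Matrix.of (fun n n' : ℕ => ∏ i ∈ s, B i n n')) =
          Matrix.of (fun n n' : ℕ => ∏ i ∈ s, B i n n' - ∏ i ∈ s, A i n n') + Matrix.of (fun n n' : ℕ => ∏ i ∈ s, A i n n') := by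
        ext n n'
        rw [Matrix.add_apply, Matrix.of_apply, Matrix.of_apply, Matrix.of_apply]; ring
      rw [e]; exact h4
    refine ⟨?_, ?_⟩
    · have h4 := had (hA j) h1
      have e : (Matrix.of (fun n n' : ℕ => ∏ i ∈ insert j s, A i n n')) =
          Matrix.of (fun n n' => A j n n' * (Matrix.of (fun n n' : ℕ => ∏ i ∈ s, A i n n')) n n') := by
        ext n n'
        rw [Matrix.of_apply, Matrix.of_apply, Matrix.of_apply, prod_insert hj]
      rw [e]; exact h4
    · have h4 := (had (hBA j) h3).add (had (hA j) h2)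
      have e : (Matrix.of (fun n n' : ℕ => ∏ i ∈ insert j s, B i n n' - ∏ i ∈ insert j s, A i n n')) =
          Matrix.of (fun n n' => (B j - A j) n n' * (Matrix.of (fun n n' : ℕ => ∏ i ∈ s, B i n n')) n n') +
          Matrix.of (fun n n' => A j n n' * (Matrix.of (fun n n' : ℕ => ∏ i ∈ s, B i n n' - ∏ i ∈ s, A i n n')) n n') := by
        ext n n'
        simp only [Matrix.of_apply, Matrix.add_apply, Matrix.sub_apply, prod_insert hj]
        ring
      rw [e]; exact h4

lemma quad_nonneg {M : Matrix ℕ ℕ ℝ} (h : M.PosSemidef) (N : ℕ) (g : ℕ → ℝ) :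
    0 ≤ ∑ n ∈ range N, ∑ n' ∈ range N, g n * g n' * M n n' := by
  have h1 := (Matrix.posSemidef_iff_dotProduct_mulVec.1 (h.submatrix (fun i : Fin N => (i : ℕ)))).2 (fun i => g i)
  refine h1.trans (le_of_eq ?_)
  unfold dotProduct Matrix.mulVec dotProduct
  rw [← Fin.sum_univ_eq_sum_range (fun n => ∑ n' ∈ range N, g n * g n' * M n n') N]
  apply sum_congr rfl; intro i _
  rw [mul_sum, ← Fin.sum_univ_eq_sum_range (fun n' => g i * g n' * M i n') N]
  apply sum_congr rfl; intro j _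
  simp only [Pi.star_apply, star_trivial, Matrix.submatrix_apply]
  ring

section fam
variable {b : ℕ} [NeZero b] {Ω : Type*} [Fintype Ω] [Nonempty Ω]

/-- the digit pair -/
def pq (b : ℕ) [NeZero b] (k i n : ℕ) : Fin b × Fin b := (fd b i n, fd b (k - 1 - i) n)

lemma kB_pq {lam : ℝ} (k i n n' : ℕ) : kB b lam (pq b k i n) (pq b k i n') = 1 + lam * (dl b i n n' * dl b (k - 1 - i) n n') := by
  unfold kB pq dl2 dl
  simp only [fd_eq_iff]
  congr 2
  congr 1 <;> split_ifs <;> ring

open Classical in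
theorem second_moment_fam {π : Ω → Equiv.Perm (Fin b)} (hT : Trans π) {lam : ℝ} (hS : Spread π lam) (k N : ℕ) (g : ℕ → ℝ) :
    ∑ ω : Fin (k / 2) → Ω, (∑ n ∈ (range N).filter (fun n => SymC (b := b) k (fun i => π (ω i)) n), g n) ^ 2 ≤
      (Fintype.card Ω : ℝ) ^ (k / 2) * (1 / (b : ℝ) ^ 2) ^ (k / 2) *
        ∑ T ∈ (range (k / 2)).powerset, lam ^ T.card * DD b N g (JJ k T) := by
  have hb : 0 < b := Nat.pos_of_ne_zero (NeZero.ne b)
  have hb0 : (b : ℝ) ≠ 0 := by positivity
  have hΩ : (Fintype.card Ω : ℝ) ≠ 0 := by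
    have : 0 < Fintype.card Ω := Fintype.card_pos
    positivity
  have h1 : ∀ ω : Fin (k / 2) → Ω, (∑ n ∈ (range N).filter (fun n => SymC (b := b) k (fun i => π (ω i)) n), g n) ^ 2 =
      ∑ n ∈ range N, ∑ n' ∈ range N, g n * g n' * ∏ i : Fin (k / 2),
        (if π (ω i) (pq b k i n).1 = (pq b k i n).2 ∧ π (ω i) (pq b k i n').1 = (pq b k i n').2 then (1 : ℝ) else 0) := by
    intro ω
    rw [sum_filter, sq, sum_mul_sum]
    apply sum_congr rfl; intro n _
    apply sum_congr rfl; intro n' _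
    rw [prod_ite_zero (s := univ) (p := fun i : Fin (k / 2) =>
      π (ω i) (pq b k i n).1 = (pq b k i n).2 ∧ π (ω i) (pq b k i n').1 = (pq b k i n').2) (f := fun _ => (1 : ℝ))]
    simp only [prod_const_one, mem_univ, true_implies]
    by_cases ha : SymC (b := b) k (fun i => π (ω i)) n
    · by_cases hb' : SymC (b := b) k (fun i => π (ω i)) n'
      · rw [if_pos ha, if_pos hb', if_pos (fun i => ⟨ha i, hb' i⟩), mul_one]
      · rw [if_neg hb', mul_zero, if_neg (fun h => hb' fun i => (h i).2), mul_zero]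
    · rw [if_neg ha, zero_mul, if_neg (fun h => ha fun i => (h i).1), mul_zero]
  simp only [h1]
  rw [sum_comm]
  have h3 : ∀ n n' : ℕ, ∑ ω : Fin (k / 2) → Ω, ∏ i : Fin (k / 2),
        (if π (ω i) (pq b k i n).1 = (pq b k i n).2 ∧ π (ω i) (pq b k i n').1 = (pq b k i n').2 then (1 : ℝ) else 0) =
      (Fintype.card Ω : ℝ) ^ (k / 2) * (1 / (b : ℝ) ^ 2) ^ (k / 2) * ∏ i : Fin (k / 2), kA π (pq b k i n) (pq b k i n') := by
    intro n n'
    have e1 := (prod_univ_sum (fun _ : Fin (k / 2) => (univ : Finset Ω)) (fun i ω =>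
      (if π ω (pq b k i n).1 = (pq b k i n).2 ∧ π ω (pq b k i n').1 = (pq b k i n').2 then (1 : ℝ) else 0))).symm
    rw [Fintype.piFinset_univ] at e1
    rw [e1]
    have e2 : ∀ i : Fin (k / 2), ∑ ω : Ω, (if π ω (pq b k i n).1 = (pq b k i n).2 ∧ π ω (pq b k i n').1 = (pq b k i n').2 then (1 : ℝ) else 0) =
        (Fintype.card Ω * (1 / (b : ℝ) ^ 2)) * kA π (pq b k i n) (pq b k i n') := by
      intro i
      rw [← sum_filter, sum_const, nsmul_eq_mul, mul_one]
      unfold kA
      field_simp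
    rw [prod_congr rfl fun i _ => e2 i]
    rw [prod_mul_distrib, prod_const, card_univ, Fintype.card_fin, mul_pow]
  have h4 : ∀ n ∈ range N, ∑ ω : Fin (k / 2) → Ω, ∑ n' ∈ range N, g n * g n' * ∏ i : Fin (k / 2),
        (if π (ω i) (pq b k i n).1 = (pq b k i n).2 ∧ π (ω i) (pq b k i n').1 = (pq b k i n').2 then (1 : ℝ) else 0) =
      ∑ n' ∈ range N, g n * g n' * ((Fintype.card Ω : ℝ) ^ (k / 2) * (1 / (b : ℝ) ^ 2) ^ (k / 2) *
        ∏ i : Fin (k / 2), kA π (pq b k i n) (pq b k i n')) := by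
    intro n _
    rw [sum_comm]
    apply sum_congr rfl; intro n' _
    rw [← mul_sum, h3]
  rw [sum_congr rfl h4]
  set C : ℝ := (Fintype.card Ω : ℝ) ^ (k / 2) * (1 / (b : ℝ) ^ 2) ^ (k / 2) with hC
  have hC0 : 0 ≤ C := by positivity
  -- comparison
  have h5 := (prod_psd (fun i : Fin (k / 2) => (kA π).submatrix (pq b k i) (pq b k i))
    (fun i : Fin (k / 2) => (kB b lam).submatrix (pq b k i) (pq b k i))
    (fun i => (kA_psd π).submatrix _) (fun i => (kBA_psd hb hT hS).submatrix (pq b k i)) univ).2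
  have h6 := quad_nonneg h5 N g
  simp only [Matrix.of_apply, Matrix.submatrix_apply, mul_sub, sum_sub_distrib, sub_nonneg] at h6
  have h7 : ∑ n ∈ range N, ∑ n' ∈ range N, g n * g n' * ∏ i : Fin (k / 2), kB b lam (pq b k i n) (pq b k i n') =
      ∑ T ∈ (range (k / 2)).powerset, lam ^ T.card * DD b N g (JJ k T) := by
    have e1 : ∀ n n' : ℕ, g n * g n' * ∏ i : Fin (k / 2), kB b lam (pq b k i n) (pq b k i n') =
        ∑ T ∈ (range (k / 2)).powerset, lam ^ T.card * (g n * g n' * ∏ j ∈ JJ k T, dl b j n n') := by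
      intro n n'
      rw [prod_congr rfl fun (i : Fin (k / 2)) _ => kB_pq (lam := lam) k i n n']
      rw [← prod_range (fun i => 1 + lam * (dl b i n n' * dl b (k - 1 - i) n n')), prod_one_add, mul_sum]
      apply sum_congr rfl
      intro T hT
      rw [mem_powerset] at hT
      rw [prod_JJ hT, prod_mul_distrib, prod_const]
      ring
    rw [sum_congr rfl fun n _ => sum_congr rfl fun n' _ => e1 n n']
    rw [sum_congr rfl fun n _ => sum_comm, sum_comm]
    apply sum_congr rfl; intro T _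
    unfold DD
    rw [mul_sum]
    apply sum_congr rfl; intro n _
    rw [mul_sum]
  rw [← h7]
  have h8 : ∑ n ∈ range N, ∑ n' ∈ range N, g n * g n' * (C * ∏ i : Fin (k / 2), kA π (pq b k i n) (pq b k i n')) =
      C * ∑ n ∈ range N, ∑ n' ∈ range N, g n * g n' * ∏ i : Fin (k / 2), kA π (pq b k i n) (pq b k i n') := by
    rw [mul_sum]
    apply sum_congr rfl; intro n _
    rw [mul_sum]
    apply sum_congr rfl; intro n' _
    ring
  rw [h8]
  exact mul_le_mul_of_nonneg_left h6 hC0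

end fam

end Pool.Agent.V7H99.SY
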