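import Mathlib
import Pool.Agent.V7H99.SY.R9
import Pool.Agent.V7H99.SY.S2
import Pool.Agent.V7H99.SY.S3

/-! The prime number theorem for almost all digit symmetries from a family: finite version (helper99). -/

set_option autoImplicit false

namespace Pool.Agent.V7H99.SY
open Finset

section fam
variable {b : ℕ} [NeZero b] {Ω : Type*} [Fintype Ω] [Nonempty Ω]

open Classical in
/-- for almost all digit symmetries the sum of the difference is small -/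
theorem dev_small' {π : Ω → Equiv.Perm (Fin b)} (hb3 : 3 ≤ b) (hT : Trans π) {lam : ℝ} (hl0 : 0 ≤ lam) (hl1 : lam < 1) (hS : Spread π lam) (A : ℕ) : ∃ A2 K0 : ℕ, 1 ≤ A2 ∧ ∀ k : ℕ, K0 ≤ k →
    2 * (A2 * (Nat.log 2 k) ^ 2) ≤ k ∧
    (((univ : Finset (Fin (k / 2) → Ω)).filter (fun σ => (b : ℝ) ^ (k - k / 2) / 2 ^ (A * Nat.log 2 k) <
      |∑ n ∈ (range (b ^ k)).filter (fun n => SymC (b := b) k (fun i => π (σ i)) n), g0 b k (A2 * (Nat.log 2 k) ^ 2) n|)).card : ℝ) ≤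
      (Fintype.card Ω : ℝ) ^ (k / 2) / 2 ^ (A * Nat.log 2 k) := by
  obtain ⟨A2, K0, hA2, h⟩ := total_small' hl0 hl1 hb3 (3 * A)
  refine ⟨A2, K0, hA2, fun k hk => ⟨(h k hk).1, ?_⟩⟩
  have h3 := (h k hk).2
  set u := Nat.log 2 k with hu
  set g := g0 b k (A2 * u ^ 2) with hg
  have hb0 : (0 : ℝ) < b := by exact_mod_cast (by omega : 0 < b)
  have h4 := second_moment_fam hT hS k (b ^ k) g
  set X : (Fin (k / 2) → Ω) → ℝ := fun σ => ∑ n ∈ (range (b ^ k)).filter (fun n => SymC (b := b) k (fun i => π (σ i)) n), g n with hX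
  set V : ℝ := (b : ℝ) ^ (k - k / 2) with hV
  have hV0 : 0 < V := by positivity
  set P : ℝ := 2 ^ (A * u) with hP
  have hP0 : 0 < P := by positivity
  have h5 : ∑ σ : Fin (k / 2) → Ω, X σ ^ 2 ≤ (Fintype.card Ω : ℝ) ^ (k / 2) * (V ^ 2 / P ^ 3) := by
    refine h4.trans ?_
    have e1 : (b : ℝ) ^ k = (b : ℝ) ^ (k / 2) * V := by rw [hV, ← pow_add]; congr 1; omega
    have e2 : (2 : ℝ) ^ (3 * A * u) = P ^ 3 := by rw [hP, ← pow_mul]; congr 1; ring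
    rw [e1, e2] at h3
    calc (Fintype.card Ω : ℝ) ^ (k / 2) * (1 / (b : ℝ) ^ 2) ^ (k / 2) *
          ∑ T ∈ (range (k / 2)).powerset, lam ^ T.card * DD b (b ^ k) g (JJ k T)
        ≤ (Fintype.card Ω : ℝ) ^ (k / 2) * (1 / (b : ℝ) ^ 2) ^ (k / 2) * (((b : ℝ) ^ (k / 2) * V) ^ 2 / P ^ 3) := by gcongr
      _ = (Fintype.card Ω : ℝ) ^ (k / 2) * (V ^ 2 / P ^ 3) * ((1 / (b : ℝ) ^ 2) ^ (k / 2) * ((b : ℝ) ^ (k / 2)) ^ 2) := by ring
      _ = (Fintype.card Ω : ℝ) ^ (k / 2) * (V ^ 2 / P ^ 3) := by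
          have : (1 / (b : ℝ) ^ 2) ^ (k / 2) * ((b : ℝ) ^ (k / 2)) ^ 2 = 1 := by
            rw [← pow_mul, mul_comm (k / 2) 2, pow_mul, ← mul_pow, one_div, inv_mul_cancel₀ (by positivity), one_pow]
          rw [this, mul_one]
  set S := (univ : Finset (Fin (k / 2) → Ω)).filter (fun σ => V / P < |X σ|) with hS
  have h6 : (S.card : ℝ) * (V / P) ^ 2 ≤ ∑ σ : Fin (k / 2) → Ω, X σ ^ 2 := by
    calc (S.card : ℝ) * (V / P) ^ 2 = ∑ _σ ∈ S, (V / P) ^ 2 := by rw [sum_const, nsmul_eq_mul]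
      _ ≤ ∑ σ ∈ S, X σ ^ 2 := by
          apply sum_le_sum; intro σ hσ
          rw [hS, mem_filter] at hσ
          rw [← sq_abs (X σ)]
          exact pow_le_pow_left₀ (by positivity) hσ.2.le 2
      _ ≤ ∑ σ : Fin (k / 2) → Ω, X σ ^ 2 :=
          sum_le_sum_of_subset_of_nonneg (subset_univ _) fun σ _ _ => sq_nonneg _
  have h7 := h6.trans h5
  have h8 : (Fintype.card Ω : ℝ) ^ (k / 2) * (V ^ 2 / P ^ 3) = ((Fintype.card Ω : ℝ) ^ (k / 2) / P) * (V / P) ^ 2 := by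
    field_simp
  rw [h8] at h7
  exact le_of_mul_le_mul_right h7 (by positivity)

open Classical in
/-- the finite version -/
theorem finite_log' {π : Ω → Equiv.Perm (Fin b)} (hb3 : 3 ≤ b) (hT : Trans π) {lam : ℝ} (hl0 : 0 ≤ lam) (hl1 : lam < 1) (hS : Spread π lam) (A : ℕ) : ∃ K0 : ℕ, 2 ≤ K0 ∧ ∀ k : ℕ, K0 ≤ k →
    (((univ : Finset (Fin (k / 2) → Ω)).filter (fun σ => (b : ℝ) ^ (k - k / 2) / (k : ℝ) ^ A <
      |TT b k (fun i => π (σ i)) - (b : ℝ) ^ (k - k / 2) / (Nat.totient b : ℝ) * cc b (hd1 (fun i => π (σ i)))|)).card : ℝ) ≤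
      (Fintype.card Ω : ℝ) ^ (k / 2) / (k : ℝ) ^ A := by
  obtain ⟨A2, K1, hA2, h1⟩ := dev_small' hb3 hT hl0 hl1 hS (A + 1)
  obtain ⟨K2, h3⟩ := main_close (G := Equiv.Perm (Fin b)) (b := b) (by omega) A
  obtain ⟨K3, h4⟩ := ev_ge 1
  refine ⟨max (max K1 K2) (max K3 (2 ^ (A + 2) + 2)), ?_, fun k hk => ?_⟩
  · refine le_trans ?_ (le_max_right _ _)
    refine le_trans ?_ (le_max_right _ _)
    exact Nat.le_add_left _ _
  have hka : K1 ≤ k := le_trans (le_trans (le_max_left _ _) (le_max_left _ _)) hk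
  have hkb : K2 ≤ k := le_trans (le_trans (le_max_right _ _) (le_max_left _ _)) hk
  have hkc : K3 ≤ k := le_trans (le_trans (le_max_left _ _) (le_max_right _ _)) hk
  have hkd : 2 ^ (A + 2) + 2 ≤ k := le_trans (le_trans (le_max_right _ _) (le_max_right _ _)) hk
  obtain ⟨h5, h6⟩ := h1 k hka
  have h7 := h3 k hkb (A2 * (Nat.log 2 k) ^ 2) (Nat.mul_pos hA2 (Nat.pow_pos (h4 k hkc))) h5
  set u := Nat.log 2 k with hu
  have hk2 : k < 2 ^ (u + 1) := Nat.lt_pow_succ_log_self (by norm_num) _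
  have hk1 : 2 ≤ k := le_trans (Nat.le_add_left _ _) hkd
  have hk0 : (0 : ℝ) < k := by exact_mod_cast (by omega : 0 < k)
  have hP : 2 * (k : ℝ) ^ A ≤ 2 ^ ((A + 1) * u) := by
    have e1 : (k : ℝ) ≤ 2 * 2 ^ u := by
      have : (k : ℝ) ≤ 2 ^ (u + 1) := by exact_mod_cast hk2.le
      rw [pow_succ] at this; linarith
    have e2 : (k : ℝ) ^ (A + 1) ≤ 2 ^ (A + 1) * 2 ^ ((A + 1) * u) := by
      calc (k : ℝ) ^ (A + 1) ≤ (2 * 2 ^ u) ^ (A + 1) := by gcongr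
        _ = _ := by rw [mul_pow, ← pow_mul, mul_comm u]
    have e3 : (2 : ℝ) ^ (A + 2) ≤ k := by exact_mod_cast (le_trans (Nat.le_add_right _ _) hkd : 2 ^ (A + 2) ≤ k)
    have e4 : (2 : ℝ) ^ (A + 1) * (2 * (k : ℝ) ^ A) ≤ 2 ^ (A + 1) * 2 ^ ((A + 1) * u) := by
      calc (2 : ℝ) ^ (A + 1) * (2 * (k : ℝ) ^ A) = 2 ^ (A + 2) * (k : ℝ) ^ A := by rw [pow_succ 2 (A + 1)]; ring
        _ ≤ k * (k : ℝ) ^ A := by gcongr
        _ = (k : ℝ) ^ (A + 1) := by rw [pow_succ]; ring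
        _ ≤ _ := e2
    exact le_of_mul_le_mul_left e4 (by positivity)
  have hkA : (0 : ℝ) < (k : ℝ) ^ A := by positivity
  have hV : (0 : ℝ) < (b : ℝ) ^ (k - k / 2) := by
    have : (0 : ℝ) < b := by exact_mod_cast (by omega : 0 < b)
    positivity
  refine le_trans ?_ (h6.trans ?_)
  · rw [Nat.cast_le]
    apply card_le_card
    intro σ hσ
    rw [mem_filter] at hσ ⊢
    refine ⟨mem_univ _, ?_⟩
    by_contra hcon
    rw [not_lt] at hcon
    have e1 : ∑ n ∈ (range (b ^ k)).filter (fun n => SymC (b := b) k (fun i => π (σ i)) n), g0 b k (A2 * u ^ 2) n =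
        TT b k (fun i => π (σ i)) - ∑ q ∈ range (b ^ (k - k / 2)), g1 b k (A2 * u ^ 2) (lowq b k (fun i => π (σ i)) q + q * b ^ (k / 2)) := by
      rw [← sum_sym]
      unfold TT g0
      rw [sum_sub_distrib]
    rw [e1] at hcon
    have e2 := h7 (fun i => π (σ i))
    have e3 : (b : ℝ) ^ (k - k / 2) / 2 ^ ((A + 1) * u) ≤ (b : ℝ) ^ (k - k / 2) / (2 * (k : ℝ) ^ A) := by
      gcongr
    have e4 : (b : ℝ) ^ (k - k / 2) / (2 * (k : ℝ) ^ A) + (b : ℝ) ^ (k - k / 2) / (2 * (k : ℝ) ^ A) =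
        (b : ℝ) ^ (k - k / 2) / (k : ℝ) ^ A := by
      field_simp; norm_num
    have e5 := abs_sub_le (TT b k (fun i => π (σ i))) (∑ q ∈ range (b ^ (k - k / 2)), g1 b k (A2 * u ^ 2) (lowq b k (fun i => π (σ i)) q + q * b ^ (k / 2)))
      ((b : ℝ) ^ (k - k / 2) / (Nat.totient b : ℝ) * cc b (hd1 (fun i => π (σ i))))
    linarith [hσ.2]
  · apply div_le_div_of_nonneg_left (by positivity) hkA
    linarith

end fam

end Pool.Agent.V7H99.SY
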