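import Mathlib
import Pool.Agent.V7H99.SY.S1

/-! The qualitative spreading condition (helper99). -/

set_option autoImplicit false

namespace Pool.Agent.V7H99.SY
open Finset

section fam
variable {b : ℕ} {Ω : Type*} [Fintype Ω]

/-- no nonzero matrix with vanishing row and column sums is constant on each of the graphs -/
def Rigid (π : Ω → Equiv.Perm (Fin b)) : Prop :=
  ∀ f : Fin b → Fin b → ℝ, (∀ x, ∑ y, f x y = 0) → (∀ y, ∑ x, f x y = 0) →
    (∀ ω x x', f x (π ω x) = f x' (π ω x')) → ∀ x y, f x y = 0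

lemma cs_id (a : Fin b → ℝ) : ∑ x, ∑ x', (a x - a x') ^ 2 = 2 * (b * ∑ x, a x ^ 2 - (∑ x, a x) ^ 2) := by
  have h1 : ∀ x x', (a x - a x') ^ 2 = a x ^ 2 + a x' ^ 2 - 2 * (a x * a x') := fun x x' => by ring
  simp only [h1, sum_sub_distrib, sum_add_distrib, sum_const, card_univ, Fintype.card_fin, nsmul_eq_mul]
  have h2 : ∑ x, ∑ x', 2 * (a x * a x') = 2 * (∑ x, a x) ^ 2 := by
    rw [sq, sum_mul_sum, mul_sum]
    apply sum_congr rfl; intro x _
    rw [mul_sum]
  rw [h2, ← mul_sum]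
  ring

theorem spread_of_rigid {π : Ω → Equiv.Perm (Fin b)} (hb : 0 < b) (hΩ : 0 < Fintype.card Ω) (hT : Trans π) (hR : Rigid π) :
    ∃ lam : ℝ, 0 ≤ lam ∧ lam < 1 ∧ Spread π lam := by
  have hb0 : (b : ℝ) ≠ 0 := by positivity
  have hΩ0 : (0 : ℝ) < Fintype.card Ω := by exact_mod_cast hΩ
  set Φ : (Fin b → Fin b → ℝ) → ℝ := fun f => ∑ ω, (∑ x, f x (π ω x)) ^ 2 with hΦ
  set K : Set (Fin b → Fin b → ℝ) := {f | (∀ x, ∑ y, f x y = 0) ∧ (∀ y, ∑ x, f x y = 0) ∧ ∑ x, ∑ y, f x y ^ 2 = 1} with hK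
  have hle : ∀ f : Fin b → Fin b → ℝ, Φ f + (1 / 2) * ∑ ω, ∑ x, ∑ x', (f x (π ω x) - f x' (π ω x')) ^ 2 =
      Fintype.card Ω * ∑ x, ∑ y, f x y ^ 2 := by
    intro f
    have h1 : ∀ ω, ∑ x, ∑ x', (f x (π ω x) - f x' (π ω x')) ^ 2 = 2 * (b * ∑ x, f x (π ω x) ^ 2 - (∑ x, f x (π ω x)) ^ 2) :=
      fun ω => cs_id (fun x => f x (π ω x))
    have h2 := sum_trans hb hT (fun x y => f x y ^ 2)
    simp only [h1, ← mul_sum, sum_sub_distrib, hΦ]
    rw [h2]
    field_simp
    ring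
  have hhom : ∀ (f : Fin b → Fin b → ℝ), (∀ x, ∑ y, f x y = 0) → (∀ y, ∑ x, f x y = 0) → 0 < ∑ x, ∑ y, f x y ^ 2 →
      ∃ g ∈ K, Φ f = (∑ x, ∑ y, f x y ^ 2) * Φ g := by
    intro f h1 h2 h3
    set S := ∑ x, ∑ y, f x y ^ 2 with hS
    have hs : 0 < √S := Real.sqrt_pos.2 h3
    have hss : √S ^ 2 = S := Real.sq_sqrt h3.le
    refine ⟨fun x y => (√S)⁻¹ * f x y, ⟨?_, ?_, ?_⟩, ?_⟩
    · intro x; rw [← mul_sum, h1, mul_zero]
    · intro y; rw [← mul_sum, h2, mul_zero]
    · simp only [mul_pow, ← mul_sum]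
      rw [← hS, inv_pow, hss]
      field_simp
    · simp only [hΦ, ← mul_sum, mul_pow]
      rw [inv_pow, hss]
      field_simp
  rcases K.eq_empty_or_nonempty with he | hne
  · refine ⟨0, le_rfl, by norm_num, fun f h1 h2 => ?_⟩
    rcases (sum_nonneg fun x _ => sum_nonneg fun y _ => sq_nonneg (f x y) : 0 ≤ ∑ x, ∑ y, f x y ^ 2).eq_or_lt with h3 | h3
    · have h4 := hle f
      rw [← h3, mul_zero] at h4
      have h5 : 0 ≤ ∑ ω, ∑ x, ∑ x', (f x (π ω x) - f x' (π ω x')) ^ 2 :=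
        sum_nonneg fun _ _ => sum_nonneg fun _ _ => sum_nonneg fun _ _ => sq_nonneg _
      rw [zero_mul, zero_mul]
      simp only [hΦ] at h4
      linarith
    · obtain ⟨g, hg, _⟩ := hhom f h1 h2 h3
      rw [he] at hg
      exact absurd hg (Set.notMem_empty _)
  · have hcomp : IsCompact K := by
      apply Metric.isCompact_of_isClosed_isBounded
      · have e : K = (⋂ x : Fin b, {f | ∑ y, f x y = 0}) ∩ ((⋂ y : Fin b, {f | ∑ x, f x y = 0}) ∩ {f | ∑ x, ∑ y, f x y ^ 2 = 1}) := by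
          ext f
          simp [hK]
        rw [e]
        refine IsClosed.inter (isClosed_iInter fun x => ?_) (IsClosed.inter (isClosed_iInter fun y => ?_) ?_)
        · exact isClosed_eq (by fun_prop) continuous_const
        · exact isClosed_eq (by fun_prop) continuous_const
        · exact isClosed_eq (by fun_prop) continuous_const
      · rw [isBounded_iff_forall_norm_le]
        refine ⟨1, fun f hf => ?_⟩
        rw [pi_norm_le_iff_of_nonneg (by norm_num)]
        intro x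
        rw [pi_norm_le_iff_of_nonneg (by norm_num)]
        intro y
        rw [Real.norm_eq_abs]
        have h1 : f x y ^ 2 ≤ 1 := by
          rw [← hf.2.2]
          calc f x y ^ 2 ≤ ∑ y, f x y ^ 2 := single_le_sum (f := fun y => f x y ^ 2) (fun y _ => sq_nonneg _) (mem_univ y)
            _ ≤ ∑ x, ∑ y, f x y ^ 2 := single_le_sum (f := fun x => ∑ y, f x y ^ 2) (fun x _ => sum_nonneg fun y _ => sq_nonneg _) (mem_univ x)
        exact abs_le_one_iff_mul_self_le_one.2 (by rw [← sq]; exact h1)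
    have hcont : Continuous Φ := by
      rw [hΦ]
      fun_prop
    obtain ⟨g, hgK, hgmax⟩ := hcomp.exists_isMaxOn hne hcont.continuousOn
    refine ⟨Φ g / Fintype.card Ω, ?_, ?_, ?_⟩
    · apply div_nonneg _ hΩ0.le
      rw [hΦ]
      exact sum_nonneg fun _ _ => sq_nonneg _
    · rw [div_lt_one hΩ0]
      by_contra hcon
      rw [not_lt] at hcon
      have h4 := hle g
      rw [hgK.2.2, mul_one] at h4
      have h5 : ∑ ω, ∑ x, ∑ x', (g x (π ω x) - g x' (π ω x')) ^ 2 = 0 := by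
        apply le_antisymm
        · linarith
        · exact sum_nonneg fun _ _ => sum_nonneg fun _ _ => sum_nonneg fun _ _ => sq_nonneg _
      have h6 : ∀ ω x x', g x (π ω x) = g x' (π ω x') := by
        intro ω x x'
        have e1 := (sum_eq_zero_iff_of_nonneg (fun ω _ => sum_nonneg fun x _ => sum_nonneg fun x' _ =>
          sq_nonneg (g x (π ω x) - g x' (π ω x')))).1 h5 ω (mem_univ _)
        have e2 := (sum_eq_zero_iff_of_nonneg (fun x _ => sum_nonneg fun x' _ =>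
          sq_nonneg (g x (π ω x) - g x' (π ω x')))).1 e1 x (mem_univ _)
        have e3 := (sum_eq_zero_iff_of_nonneg (fun x' _ =>
          sq_nonneg (g x (π ω x) - g x' (π ω x')))).1 e2 x' (mem_univ _)
        exact sub_eq_zero.1 (pow_eq_zero_iff (by norm_num) |>.1 e3)
      have h7 := hR g hgK.1 hgK.2.1 h6
      have h8 := hgK.2.2
      simp only [h7] at h8
      norm_num at h8
    · intro f h1 h2
      rcases (sum_nonneg fun x _ => sum_nonneg fun y _ => sq_nonneg (f x y) : 0 ≤ ∑ x, ∑ y, f x y ^ 2).eq_or_lt with h3 | h3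
      · have h4 := hle f
        rw [← h3, mul_zero] at h4
        have h5 : 0 ≤ ∑ ω, ∑ x, ∑ x', (f x (π ω x) - f x' (π ω x')) ^ 2 :=
          sum_nonneg fun _ _ => sum_nonneg fun _ _ => sum_nonneg fun _ _ => sq_nonneg _
        rw [← h3, mul_zero]
        simp only [hΦ] at h4
        linarith
      · obtain ⟨g', hg', he⟩ := hhom f h1 h2 h3
        have h4 : Φ g' ≤ Φ g := hgmax hg'
        have h5 : ∑ ω, (∑ x, f x (π ω x)) ^ 2 = Φ f := rfl
        rw [h5, he, div_mul_cancel₀ _ hΩ0.ne']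
        rw [mul_comm]
        exact mul_le_mul_of_nonneg_right h4 h3.le

end fam

end Pool.Agent.V7H99.SY
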