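import Mathlib
import Pool.Agent.V7H99.SY.S4
import Pool.Agent.V7H99.SY.S5

/-! The prime number theorem for almost all digit symmetries from a family: infinite version (helper99). -/

set_option autoImplicit false

namespace Pool.Agent.V7H99.SY
open Finset MeasureTheory Filter Topology
open scoped ENNReal

section meas
variable {Ω : Type*} [Fintype Ω] [Nonempty Ω] [MeasurableSpace Ω] [MeasurableSingletonClass Ω]

/-- independent uniformly distributed entries -/
noncomputable def PM (Ω : Type*) [Fintype Ω] [Nonempty Ω] [MeasurableSpace Ω] : Measure (ℕ → Ω) :=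
  Measure.infinitePi (fun _ : ℕ => (PMF.uniformOfFintype Ω).toMeasure)

lemma cyl (h : ℕ) (τ : Fin h → Ω) : PM Ω {ω | (fun i : Fin h => ω i) = τ} = ((Fintype.card Ω : ℝ≥0∞)⁻¹) ^ h := by
  have e : {ω : ℕ → Ω | (fun i : Fin h => ω i) = τ} =
      Set.pi (↑(range h) : Set ℕ) (fun i => if hi : i < h then {τ ⟨i, hi⟩} else Set.univ) := by
    ext ω
    rw [Set.mem_ofPred_eq, Set.mem_pi, funext_iff]
    constructor
    · intro hω i hi
      rw [mem_coe, mem_range] at hi
      rw [dif_pos hi]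
      exact hω ⟨i, hi⟩
    · intro hω i
      have := hω i (by rw [mem_coe, mem_range]; exact i.2)
      rw [dif_pos i.2] at this
      exact this
  rw [e]
  unfold PM
  rw [Measure.infinitePi_pi]
  · have : ∀ i ∈ range h, (PMF.uniformOfFintype Ω).toMeasure (if hi : i < h then {τ ⟨i, hi⟩} else Set.univ) = (Fintype.card Ω : ℝ≥0∞)⁻¹ := by
      intro i hi
      rw [mem_range] at hi
      rw [dif_pos hi, PMF.toMeasure_apply_singleton _ _ (measurableSet_singleton _), PMF.uniformOfFintype_apply]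
    rw [prod_congr rfl this, prod_const, card_range]
  · intro i _
    split_ifs
    · exact measurableSet_singleton _
    · exact MeasurableSet.univ

lemma proj_le (h : ℕ) (B : Finset (Fin h → Ω)) :
    PM Ω {ω | (fun i : Fin h => ω i) ∈ B} ≤ (B.card : ℝ≥0∞) * ((Fintype.card Ω : ℝ≥0∞)⁻¹) ^ h := by
  have e : {ω : ℕ → Ω | (fun i : Fin h => ω i) ∈ B} ⊆ ⋃ τ ∈ B, {ω | (fun i : Fin h => ω i) = τ} := by
    intro ω hω
    rw [Set.mem_iUnion₂]
    exact ⟨_, hω, rfl⟩
  refine (measure_mono e).trans ((measure_biUnion_finset_le _ _).trans ?_)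
  rw [sum_congr rfl fun τ _ => cyl h τ, sum_const, nsmul_eq_mul]

lemma proj_real (h : ℕ) (B : Finset (Fin h → Ω)) {c : ℝ} (hB : (B.card : ℝ) ≤ (Fintype.card Ω : ℝ) ^ h * c) :
    PM Ω {ω | (fun i : Fin h => ω i) ∈ B} ≤ ENNReal.ofReal c := by
  refine (proj_le h B).trans ?_
  have hΩ : (0 : ℝ) < Fintype.card Ω := by exact_mod_cast Fintype.card_pos
  have e1 : ((Fintype.card Ω : ℝ≥0∞)⁻¹) ^ h = ENNReal.ofReal (((Fintype.card Ω : ℝ)⁻¹) ^ h) := by
    rw [ENNReal.ofReal_pow (by positivity), ENNReal.ofReal_inv_of_pos hΩ, ENNReal.ofReal_natCast]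
  rw [e1, ← ENNReal.ofReal_natCast B.card, ← ENNReal.ofReal_mul (by positivity)]
  apply ENNReal.ofReal_le_ofReal
  calc (B.card : ℝ) * ((Fintype.card Ω : ℝ)⁻¹) ^ h ≤ ((Fintype.card Ω : ℝ) ^ h * c) * ((Fintype.card Ω : ℝ)⁻¹) ^ h := by gcongr
    _ = c := by
      rw [inv_pow]; field_simp

end meas

section fam
variable {b : ℕ} [NeZero b]

open scoped Classical in
/-- the number of primes with the symmetry -/
noncomputable def PC (b : ℕ) [NeZero b] (k : ℕ) (σ : Fin (k / 2) → Equiv.Perm (Fin b)) : ℕ :=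
  ((range (b ^ k)).filter (fun n => n.Prime ∧ b ^ (k - 1) ≤ n ∧ SymC (b := b) k σ n)).card

open scoped Classical in
lemma TT_eq (k : ℕ) (σ : Fin (k / 2) → Equiv.Perm (Fin b)) : TT b k σ =
    ∑ n ∈ (range (b ^ k)).filter (fun n => n.Prime ∧ b ^ (k - 1) ≤ n ∧ SymC (b := b) k σ n), Real.log n := by
  classical
  unfold TT th
  rw [sum_filter, sum_filter]
  apply sum_congr rfl; intro n _
  by_cases h1 : SymC (b := b) k σ n
  · by_cases h2 : b ^ (k - 1) ≤ n
    · by_cases h3 : n.Prime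
      · rw [if_pos h1, if_pos h2, if_pos h3, if_pos ⟨h3, h2, h1⟩]
      · rw [if_pos h1, if_pos h2, if_neg h3, if_neg (fun h => h3 h.1)]
    · rw [if_pos h1, if_neg h2, if_neg (fun h => h2 h.2.1)]
  · rw [if_neg h1, if_neg (fun h => h1 h.2.2)]

lemma PC_bounds (hb : 2 ≤ b) {k : ℕ} (hk : 1 ≤ k) (σ : Fin (k / 2) → Equiv.Perm (Fin b)) :
    TT b k σ ≤ PC b k σ * (k * Real.log b) ∧ PC b k σ * (((k : ℝ) - 1) * Real.log b) ≤ TT b k σ := by
  classical
  rw [TT_eq]
  unfold PC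
  have hb0 : (0 : ℝ) < b := by exact_mod_cast (by omega : 0 < b)
  constructor
  · have h1 : ∀ n ∈ (range (b ^ k)).filter (fun n => n.Prime ∧ b ^ (k - 1) ≤ n ∧ SymC (b := b) k σ n), Real.log n ≤ k * Real.log b := by
      intro n hn
      rw [mem_filter, mem_range] at hn
      rw [← Real.log_pow]
      apply Real.log_le_log (by exact_mod_cast hn.2.1.pos)
      exact_mod_cast hn.1.le
    refine (sum_le_sum h1).trans ?_
    rw [sum_const, nsmul_eq_mul]
  · have h1 : ∀ n ∈ (range (b ^ k)).filter (fun n => n.Prime ∧ b ^ (k - 1) ≤ n ∧ SymC (b := b) k σ n), ((k : ℝ) - 1) * Real.log b ≤ Real.log n := by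
      intro n hn
      rw [mem_filter, mem_range] at hn
      have : ((k : ℝ) - 1) = ((k - 1 : ℕ) : ℝ) := by rw [Nat.cast_sub hk]; simp
      rw [this, ← Real.log_pow]
      apply Real.log_le_log (by positivity)
      exact_mod_cast hn.2.2.1
    refine le_trans ?_ (sum_le_sum h1)
    rw [sum_const, nsmul_eq_mul]

/-- the deterministic passage to the number of primes -/
lemma det_lim (hb : 2 ≤ b) (σ : ∀ k : ℕ, Fin (k / 2) → Equiv.Perm (Fin b)) (c : ℝ)
    (h : ∀ᶠ k in atTop, |TT b k (σ k) - (b : ℝ) ^ (k - k / 2) * c| ≤ (b : ℝ) ^ (k - k / 2) / (k : ℝ) ^ 2) :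
    Tendsto (fun k : ℕ => (PC b k (σ k) : ℝ) * (k * Real.log b) / (b : ℝ) ^ (k - k / 2)) atTop (𝓝 c) := by
  have hb0 : (0 : ℝ) < b := by exact_mod_cast (by omega : 0 < b)
  have hlog : 0 < Real.log b := Real.log_pos (by exact_mod_cast (by omega : 1 < b))
  have hT : Tendsto (fun k : ℕ => TT b k (σ k) / (b : ℝ) ^ (k - k / 2)) atTop (𝓝 c) := by
    rw [tendsto_iff_dist_tendsto_zero]
    have h0 : Tendsto (fun k : ℕ => 1 / (k : ℝ) ^ 2) atTop (𝓝 0) := by
      have := tendsto_one_div_atTop_nhds_zero_nat (𝕜 := ℝ)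
      have h2 := this.mul this
      simp only [mul_zero] at h2
      refine h2.congr fun k => ?_
      rw [sq]; field_simp
    refine tendsto_of_tendsto_of_tendsto_of_le_of_le' tendsto_const_nhds h0 (Eventually.of_forall fun k => dist_nonneg) ?_
    filter_upwards [h] with k hk
    rw [Real.dist_eq]
    have hV : 0 < (b : ℝ) ^ (k - k / 2) := by positivity
    have e1 : TT b k (σ k) / (b : ℝ) ^ (k - k / 2) - c = (TT b k (σ k) - (b : ℝ) ^ (k - k / 2) * c) / (b : ℝ) ^ (k - k / 2) := by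
      field_simp
    rw [e1, abs_div, abs_of_pos hV, div_le_iff₀ hV]
    calc _ ≤ (b : ℝ) ^ (k - k / 2) / (k : ℝ) ^ 2 := hk
      _ = 1 / (k : ℝ) ^ 2 * (b : ℝ) ^ (k - k / 2) := by ring
  have hq : Tendsto (fun k : ℕ => (k : ℝ) / ((k : ℝ) - 1)) atTop (𝓝 1) := by
    have h1 : Tendsto (fun k : ℕ => 1 + 1 / ((k : ℝ) - 1)) atTop (𝓝 (1 + 0)) := by
      apply Tendsto.add tendsto_const_nhds
      apply Tendsto.div_atTop tendsto_const_nhds
      exact tendsto_atTop_add_const_right _ _ tendsto_natCast_atTop_atTop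
    rw [add_zero] at h1
    refine h1.congr' ?_
    filter_upwards [eventually_ge_atTop 2] with k hk
    have : (2 : ℝ) ≤ k := by exact_mod_cast hk
    have h2 : (k : ℝ) - 1 ≠ 0 := by linarith
    field_simp
    ring
  have hU := hT.mul hq
  rw [mul_one] at hU
  refine tendsto_of_tendsto_of_tendsto_of_le_of_le' hT hU ?_ ?_
  · filter_upwards [eventually_ge_atTop 2] with k hk
    have hV : 0 < (b : ℝ) ^ (k - k / 2) := by positivity
    apply div_le_div_of_nonneg_right _ hV.le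
    exact (PC_bounds hb (by omega) (σ k)).1
  · filter_upwards [eventually_ge_atTop 2] with k hk
    have hV : 0 < (b : ℝ) ^ (k - k / 2) := by positivity
    have h2 : (0 : ℝ) < (k : ℝ) - 1 := by
      have : (2 : ℝ) ≤ k := by exact_mod_cast hk
      linarith
    have h3 := (PC_bounds hb (by omega : 1 ≤ k) (σ k)).2
    rw [div_mul_div_comm, div_le_div_iff₀ hV (mul_pos hV h2)]
    have hk0 : (0 : ℝ) ≤ k := Nat.cast_nonneg k
    calc (PC b k (σ k) : ℝ) * (k * Real.log b) * ((b : ℝ) ^ (k - k / 2) * ((k : ℝ) - 1)) =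
          (PC b k (σ k) * (((k : ℝ) - 1) * Real.log b)) * (k * (b : ℝ) ^ (k - k / 2)) := by ring
      _ ≤ TT b k (σ k) * (k * (b : ℝ) ^ (k - k / 2)) := by gcongr
      _ = TT b k (σ k) * k * (b : ℝ) ^ (k - k / 2) := by ring

variable {Ω : Type*} [Fintype Ω] [Nonempty Ω] [MeasurableSpace Ω] [MeasurableSingletonClass Ω]

/-- the probabilistic estimate -/
theorem prob_est {π : Ω → Equiv.Perm (Fin b)} (hb3 : 3 ≤ b) (hT : Trans π) (hR : Rigid π) (A : ℕ) :
    ∃ K0 : ℕ, 2 ≤ K0 ∧ ∀ k : ℕ, K0 ≤ k → PM Ω {ω | (b : ℝ) ^ (k - k / 2) / (k : ℝ) ^ A <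
      |TT b k (fun i : Fin (k / 2) => π (ω i)) - (b : ℝ) ^ (k - k / 2) / (Nat.totient b : ℝ) * cc b (π (ω 0))|} ≤
        ENNReal.ofReal (1 / (k : ℝ) ^ A) := by
  classical
  obtain ⟨lam, hl0, hl1, hS⟩ := spread_of_rigid (by omega) Fintype.card_pos hT hR
  obtain ⟨K0, hK, h⟩ := finite_log' hb3 hT hl0 hl1 hS A
  refine ⟨K0, hK, fun k hk => ?_⟩
  have h1 := h k hk
  have hk0 : 0 < k / 2 := by omega
  refine le_trans (le_of_eq ?_) (proj_real (k / 2) _ (c := 1 / (k : ℝ) ^ A) (by rw [mul_one_div]; exact h1))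
  congr 1
  ext ω
  rw [Set.mem_ofPred_eq, Set.mem_ofPred_eq, mem_filter]
  have e : hd1 (fun i : Fin (k / 2) => π (ω i)) = π (ω 0) := by
    unfold hd1
    rw [dif_pos hk0]
  rw [e]
  simp

/-- almost surely the number of primes is asymptotic to the expected number -/
theorem as_lim {π : Ω → Equiv.Perm (Fin b)} (hb3 : 3 ≤ b) (hT : Trans π) (hR : Rigid π) :
    ∀ᵐ ω ∂(PM Ω), Tendsto (fun k : ℕ => (PC b k (fun i : Fin (k / 2) => π (ω i)) : ℝ) * (k * Real.log b) / (b : ℝ) ^ (k - k / 2))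
      atTop (𝓝 (cc b (π (ω 0)) / (Nat.totient b : ℝ))) := by
  obtain ⟨K0, hK, h⟩ := prob_est hb3 hT hR 2
  set s : ℕ → Set (ℕ → Ω) := fun k => if K0 ≤ k then {ω | (b : ℝ) ^ (k - k / 2) / (k : ℝ) ^ 2 <
      |TT b k (fun i : Fin (k / 2) => π (ω i)) - (b : ℝ) ^ (k - k / 2) / (Nat.totient b : ℝ) * cc b (π (ω 0))|} else ∅ with hs
  have h1 : ∀ k, PM Ω (s k) ≤ ENNReal.ofReal (1 / (k : ℝ) ^ 2) := by
    intro k
    rw [hs]
    simp only
    split_ifs with hk
    · exact h k hk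
    · rw [measure_empty]; exact zero_le
  have h2 : ∑' k, PM Ω (s k) ≠ ∞ := by
    apply ne_top_of_le_ne_top _ (ENNReal.tsum_le_tsum h1)
    exact (Real.summable_one_div_nat_pow.2 (by norm_num)).tsum_ofReal_ne_top
  filter_upwards [ae_eventually_notMem h2] with ω hω
  apply det_lim (by omega) (fun k => fun i : Fin (k / 2) => π (ω i))
  filter_upwards [hω, eventually_ge_atTop K0] with k hk hkK
  rw [hs] at hk
  simp only at hk
  rw [if_pos hkK, Set.mem_ofPred_eq, not_lt] at hk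
  have e : (b : ℝ) ^ (k - k / 2) * (cc b (π (ω 0)) / (Nat.totient b : ℝ)) =
      (b : ℝ) ^ (k - k / 2) / (Nat.totient b : ℝ) * cc b (π (ω 0)) := by ring
  rw [e]
  exact hk

end fam

end Pool.Agent.V7H99.SY
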