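import Mathlib
import Pool.Agent.V7H99.SY.S5

/-! Examples of fair and rigid families (helper99). -/

set_option autoImplicit false

namespace Pool.Agent.V7H99.SY
open Finset

/-- two-transitive families are rigid -/
theorem rigid_two {b : ℕ} {Ω : Type*} (hb3 : 3 ≤ b) {π : Ω → Equiv.Perm (Fin b)}
    (h2 : ∀ x x' y y' : Fin b, x ≠ x' → y ≠ y' → ∃ ω, π ω x = y ∧ π ω x' = y')
    (f : Fin b → Fin b → ℝ) (h1 : ∀ x, ∑ y, f x y = 0) (hc : ∀ ω x x', f x (π ω x) = f x' (π ω x')) : ∀ x y, f x y = 0 := by
  have hstep : ∀ x x' y y' : Fin b, x ≠ x' → y ≠ y' → f x y = f x' y' := by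
    intro x x' y y' hx hy
    obtain ⟨ω, e1, e2⟩ := h2 x x' y y' hx hy
    rw [← e1, ← e2]; exact hc ω x x'
  have hrow : ∀ x y y' : Fin b, f x y = f x y' := by
    intro x y y'
    -- a third value in each coordinate
    obtain ⟨x', hx'⟩ : ∃ x' : Fin b, x' ≠ x := by
      by_contra hcon
      push Not at hcon
      have e1 := hcon ⟨0, by omega⟩
      have e2 := hcon ⟨1, by omega⟩
      have := e1.trans e2.symm
      rw [Fin.mk.injEq] at this
      omega
    obtain ⟨z, hz⟩ : ∃ z : Fin b, z ≠ y ∧ z ≠ y' := by
      by_contra hcon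
      push Not at hcon
      have hsub : (univ : Finset (Fin b)) ⊆ {y, y'} := by
        intro z _
        rw [mem_insert, mem_singleton]
        by_cases h : z = y
        · exact Or.inl h
        · exact Or.inr (hcon z h)
      have := card_le_card hsub
      rw [card_univ, Fintype.card_fin] at this
      have := (this.trans (card_insert_le _ _))
      rw [card_singleton] at this
      omega
    rw [hstep x x' y z (Ne.symm hx') (Ne.symm hz.1), hstep x x' y' z (Ne.symm hx') (Ne.symm hz.2)]
  intro x y
  have h3 := h1 x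
  rw [sum_congr rfl fun y' _ => hrow x y' y, sum_const, card_univ, Fintype.card_fin, nsmul_eq_mul] at h3
  have hb0 : (b : ℝ) ≠ 0 := by
    have : 0 < b := by omega
    positivity
  exact (mul_eq_zero.1 h3).resolve_left hb0

/-- all permutations: rigid -/
theorem rigid_perm {b : ℕ} (hb3 : 3 ≤ b) : Rigid (fun g : Equiv.Perm (Fin b) => g) := by
  intro f h1 _ hc
  refine rigid_two (π := fun g : Equiv.Perm (Fin b) => g) hb3 ?_ f h1 hc
  intro x x' y y' hx hy
  -- first move x to y, then fix y and move the image of x' to y'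
  refine ⟨(Equiv.swap x y).trans (Equiv.swap (Equiv.swap x y x') y'), ?_, ?_⟩
  · rw [Equiv.trans_apply, Equiv.swap_apply_left]
    apply Equiv.swap_apply_of_ne_of_ne
    · intro h
      have h5 : Equiv.swap x y x = Equiv.swap x y x' := by rw [Equiv.swap_apply_left]; exact h
      exact hx ((Equiv.swap x y).injective h5)
    · exact hy
  · rw [Equiv.trans_apply, Equiv.swap_apply_left]

/-- all permutations: fair -/
theorem trans_perm {b : ℕ} : Trans (fun g : Equiv.Perm (Fin b) => g) := by
  intro x y
  have h1 : ∀ y', (univ.filter (fun g : Equiv.Perm (Fin b) => g x = y')).card = (univ.filter (fun g : Equiv.Perm (Fin b) => g x = y)).card := by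
    intro y'
    refine card_bij' (fun g _ => g.trans (Equiv.swap y' y)) (fun g _ => g.trans (Equiv.swap y' y)) ?_ ?_ ?_ ?_
    · intro g hg
      rw [mem_filter] at hg ⊢
      refine ⟨mem_univ _, ?_⟩
      rw [Equiv.trans_apply, hg.2, Equiv.swap_apply_left]
    · intro g hg
      rw [mem_filter] at hg ⊢
      refine ⟨mem_univ _, ?_⟩
      rw [Equiv.trans_apply, hg.2, Equiv.swap_apply_right]
    · intro g _
      ext z
      simp
    · intro g _
      ext z
      simp
  have h2 := card_eq_sum_card_fiberwise (s := (univ : Finset (Equiv.Perm (Fin b)))) (t := (univ : Finset (Fin b))) (f := fun g => g x)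
    (fun g _ => mem_univ _)
  rw [sum_congr rfl fun y' _ => h1 y', sum_const, card_univ, card_univ, Fintype.card_fin, smul_eq_mul] at h2
  exact h2.symm

section tw
variable {b : ℕ} [NeZero b]

/-- shifts, composed with `τ` for the indices `j < r` -/
def tw (τ : Equiv.Perm (Fin b)) (r s : ℕ) (p : Fin b × Fin s) : Equiv.Perm (Fin b) :=
  (if p.2.val < r then τ else 1).trans (Equiv.addRight p.1)

lemma tw_apply (τ : Equiv.Perm (Fin b)) (r s : ℕ) (p : Fin b × Fin s) (x : Fin b) :
    tw τ r s p x = (if p.2.val < r then τ x else x) + p.1 := by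
  unfold tw
  split_ifs <;> rfl

theorem trans_tw (τ : Equiv.Perm (Fin b)) (r s : ℕ) : Trans (tw τ r s) := by
  intro x y
  have h1 : (univ.filter (fun p : Fin b × Fin s => tw τ r s p x = y)).card = s := by
    refine Eq.trans (Eq.symm ?_) (Fintype.card_fin s)
    rw [← card_univ]
    refine card_bij' (fun j _ => (y - (if j.val < r then τ x else x), j)) (fun p _ => p.2) ?_ ?_ ?_ ?_
    · intro j _
      rw [mem_filter]
      refine ⟨mem_univ _, ?_⟩
      rw [tw_apply]
      simp
    · intro p _; exact mem_univ _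
    · intro j _; rfl
    · intro p hp
      rw [mem_filter, tw_apply] at hp
      ext
      · simp only
        rw [← hp.2]
        congr 1
        abel
      · rfl
  rw [h1, Fintype.card_prod, Fintype.card_fin, Fintype.card_fin]

theorem rigid_tw {τ : Equiv.Perm (Fin b)} {r s : ℕ} (hr : 1 ≤ r) (hrs : r < s)
    (hτ : ∃ x x' : Fin b, (x - τ x) - (x' - τ x') = 1) : Rigid (tw τ r s) := by
  intro f h1 _ hc
  have hb0 : (b : ℝ) ≠ 0 := by
    have : 0 < b := Nat.pos_of_ne_zero (NeZero.ne b)
    positivity
  -- f depends on y - x only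
  have e1 : ∀ c x x', f x (x + c) = f x' (x' + c) := by
    intro c x x'
    have := hc (c, ⟨r, hrs⟩) x x'
    rw [tw_apply, tw_apply] at this
    simpa using this
  have e2 : ∀ c x x', f x (τ x + c) = f x' (τ x' + c) := by
    intro c x x'
    have := hc (c, ⟨0, by omega⟩) x x'
    rw [tw_apply, tw_apply] at this
    have h0 : 0 < r := hr
    simpa [h0] using this
  have e3 : ∀ x y, f x y = f 0 (y - x) := by
    intro x y
    have := e1 (y - x) x 0
    rw [zero_add] at this
    rw [← this]; congr 1; abel
  obtain ⟨x, x', hx⟩ := hτ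
  have e4 : ∀ c, f 0 (c + 1) = f 0 c := by
    intro c
    have := e2 (c + (x - τ x)) x x'
    rw [e3 x, e3 x'] at this
    have a1 : τ x + (c + (x - τ x)) - x = c := by abel
    have a2 : τ x' + (c + (x - τ x)) - x' = c + 1 := by
      rw [← hx]; abel
    rw [a1, a2] at this
    exact this.symm
  have e5 : ∀ n : ℕ, f 0 (Fin.ofNat b n) = f 0 0 := by
    intro n
    induction n with
    | zero => rfl
    | succ n ih =>
      have h : Fin.ofNat b (n + 1) = Fin.ofNat b n + 1 := by
        apply Fin.ext
        rw [Fin.val_add]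
        show (n + 1) % b = (n % b + (1 : Fin b).val) % b
        have h1' : (1 : Fin b).val = 1 % b := rfl
        rw [h1', ← Nat.add_mod]
      rw [h, e4, ih]
  have e6 : ∀ c : Fin b, f 0 c = f 0 0 := by
    intro c
    have := e5 c.val
    have h : Fin.ofNat b c.val = c := Fin.ext (Nat.mod_eq_of_lt c.2)
    rw [h] at this
    exact this
  intro x y
  rw [e3, e6]
  have h3 := h1 0
  rw [sum_congr rfl fun y' _ => e6 y', sum_const, card_univ, Fintype.card_fin, nsmul_eq_mul] at h3
  exact (mul_eq_zero.1 h3).resolve_left hb0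

end tw

end Pool.Agent.V7H99.SY
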